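import Pool.Agent.HMA.Spec

/-!
# HMA, Adj: all entries of the adjugate of the closed diagram agree up to powers of `y`
-/

namespace Pool.Agent.HMA

open Polynomial Matrix

namespace AdjAux

variable {n : Type*} [Fintype n] [DecidableEq n]

/-- Two rows of the adjugate, for a matrix with a vector in the kernel. -/
theorem rows (N : Matrix n n ℝ) (u : n → ℝ) (hu : u ≠ 0) (h : N.mulVec u = 0) (i i' j : n) :
    u i' * N.adjugate i j = u i * N.adjugate i' j := by
  rw [adjugate_apply, adjugate_apply]
  have h1 : (N.updateRow j (u i' • Pi.single i 1 + (-(u i)) • Pi.single i' 1)).det = 0 := by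
    refine exists_mulVec_eq_zero_iff.1 ⟨u, hu, ?_⟩
    funext k
    by_cases hk : k = j
    · subst hk
      change (N.updateRow k (u i' • Pi.single i 1 + (-(u i)) • Pi.single i' 1)) k ⬝ᵥ u = 0
      rw [updateRow_self, add_dotProduct, smul_dotProduct, smul_dotProduct, single_dotProduct,
        single_dotProduct, smul_eq_mul, smul_eq_mul]
      ring
    · change (N.updateRow j (u i' • Pi.single i 1 + (-(u i)) • Pi.single i' 1)) k ⬝ᵥ u = 0
      rw [updateRow_ne hk]
      exact congrFun h k
  rw [det_updateRow_add, det_updateRow_smul, det_updateRow_smul] at h1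
  linarith

/-- A column of `single`. -/
theorem sum_single {m k : Type*} [Fintype m] [DecidableEq m] [DecidableEq k] (v : m → ℝ) (i₀ : m)
    (j₀ j : k) (w : ℝ) :
    ∑ i, v i * single i₀ j₀ w i j = if j = j₀ then w * v i₀ else 0 := by
  by_cases hj : j = j₀
  · subst hj
    rw [if_pos rfl, Finset.sum_eq_single i₀]
    · rw [single_apply_same, mul_comm]
    · intro i _ hi
      rw [single_apply_of_row_ne (Ne.symm hi), mul_zero]
    · intro h
      exact absurd (Finset.mem_univ _) h
  · rw [if_neg hj]
    refine Finset.sum_eq_zero fun i _ => ?_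
    rw [single_apply_of_col_ne _ _ (Ne.symm hj), mul_zero]

/-- `single` and the constant vector. -/
theorem single_one (i j : n) (w : ℝ) : (single i j w).mulVec (fun _ => (1 : ℝ)) = Pi.single i w := by
  funext a
  have h := sum_single (fun _ : n => (1 : ℝ)) j i a w
  rw [mulVec]
  unfold dotProduct
  have h2 : ∀ k, single i j w a k * 1 = 1 * single j i w k a := by
    intro k
    rw [mul_one, one_mul]
    by_cases ha : a = i
    · subst ha
      by_cases hk : k = j
      · subst hk
        rw [single_apply_same, single_apply_same]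
      · rw [single_apply_of_col_ne _ _ (Ne.symm hk), single_apply_of_row_ne (Ne.symm hk)]
    · rw [single_apply_of_row_ne (Ne.symm ha), single_apply_of_col_ne _ _ (Ne.symm ha)]
  rw [Finset.sum_congr rfl fun k _ => h2 k, h, mul_one]
  by_cases ha : a = i
  · subst ha
    rw [if_pos rfl, Pi.single_eq_same]
  · rw [if_neg ha, Pi.single_eq_of_ne ha]

end AdjAux

theorem tAdj : S_Row1 → S_Bal → S_LK → S_Adj := by
  intro hR _ hL T c hO hC
  obtain ⟨z, hz⟩ := hL T hO 0
  refine ⟨fun j => z j - z T.ne, fun y hy => ?_⟩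
  obtain ⟨h1, h2, h3⟩ := hz y hy
  have hy0 : y ≠ 0 := hy.ne'
  -- the rows sum to zero
  have hrow : (foxC (-y) T c).mulVec (fun _ => (1 : ℝ)) = 0 := by
    have hf := hR ℝ (-y) T
    unfold foxC
    cases c
    · rw [if_neg (by decide), add_mulVec, add_mulVec, hf, AdjAux.single_one, AdjAux.single_one]
      funext k
      simp only [Pi.add_apply, Pi.zero_apply, Pi.single_neg, Pi.neg_apply]
      ring
    · rw [if_pos rfl, add_mulVec, add_mulVec, hf, AdjAux.single_one, AdjAux.single_one]
      funext k
      simp only [Pi.add_apply, Pi.zero_apply, Pi.single_neg, Pi.neg_apply]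
      ring
  -- the left kernel
  have hcol : (foxC (-y) T c)ᵀ.mulVec (fun i => y ^ z i) = 0 := by
    funext j
    change (foxC (-y) T c)ᵀ j ⬝ᵥ (fun i => y ^ z i) = 0
    have e0 : (foxC (-y) T c)ᵀ j ⬝ᵥ (fun i => y ^ z i) =
        ∑ i, y ^ z i * foxC (-y) T c i j := by
      unfold dotProduct
      exact Finset.sum_congr rfl fun i _ => mul_comm _ _
    rw [e0]
    have eNE : wNE (-y) (T.ovr T.ne) * y ^ z T.ne = -y ^ (0 + (if T.und T.ne then 0 else 1) : ℤ) := by
      rw [← h2]
      ring
    have eSW : wSW (-y) (T.ovr T.sw) * y ^ z T.sw =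
        -y ^ (0 + (if T.ovr T.nw then -1 else 1) + (if T.und T.sw then 0 else 1) : ℤ) := by
      rw [← h3]
      ring
    unfold foxC
    unfold Closes at hC
    cases c
    · rw [if_neg (by decide)] at hC ⊢
      obtain ⟨c1, c2⟩ := hC
      simp only [Matrix.add_apply, mul_add, Finset.sum_add_distrib]
      rw [h1 j, AdjAux.sum_single, AdjAux.sum_single, eNE, eSW]
      have E1 : (0 + (if T.ovr T.nw then 0 else 1) : ℤ) =
          0 + (if T.ovr T.nw then -1 else 1) + (if T.und T.sw then 0 else 1) := by
        rw [c1]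
        cases T.und T.sw <;> simp
      have E2 : (0 + (if T.und T.ne then -1 else 1) + (if T.ovr T.se then 0 else 1) : ℤ) =
          0 + (if T.und T.ne then 0 else 1) := by
        rw [c2]
        cases T.und T.ne <;> simp
      rw [E1, E2]
      split_ifs <;> ring
    · rw [if_pos rfl] at hC ⊢
      obtain ⟨c1, c2⟩ := hC
      simp only [Matrix.add_apply, mul_add, Finset.sum_add_distrib]
      rw [h1 j, AdjAux.sum_single, AdjAux.sum_single, eNE, eSW]
      have E1 : (0 + (if T.ovr T.nw then 0 else 1) : ℤ) =
          0 + (if T.und T.ne then 0 else 1) := by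
        rw [c1]
      have E2 : (0 + (if T.und T.ne then -1 else 1) + (if T.ovr T.se then 0 else 1) : ℤ) =
          0 + (if T.ovr T.nw then -1 else 1) + (if T.und T.sw then 0 else 1) := by
        rw [c1, c2]
      rw [E1, E2]
      split_ifs <;> ring
  intro i j i'
  have hone : (fun _ : T.Cr => (1 : ℝ)) ≠ 0 := fun h => one_ne_zero (congrFun h T.ne)
  have hv : (fun i : T.Cr => y ^ z i) ≠ 0 := fun h => (zpow_pos hy (z T.ne)).ne' (congrFun h T.ne)
  have a1 : (foxC (-y) T c).adjugate i T.ne = (foxC (-y) T c).adjugate i' T.ne := by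
    have := AdjAux.rows (foxC (-y) T c) (fun _ => 1) hone hrow i i' T.ne
    rwa [one_mul, one_mul] at this
  have a2 : y ^ z T.ne * (foxC (-y) T c).adjugate i j =
      y ^ z j * (foxC (-y) T c).adjugate i T.ne := by
    have := AdjAux.rows (foxC (-y) T c)ᵀ (fun i => y ^ z i) hv hcol j T.ne i
    rw [← adjugate_transpose, transpose_apply, transpose_apply] at this
    exact this
  rw [← a1, zpow_sub₀ hy0, div_mul_eq_mul_div, ← a2, mul_div_cancel_left₀ _ (zpow_pos hy _).ne']

end Pool.Agent.HMA
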