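import Pool.Agent.HMA.Spec

/-!
# HMA, Bal: two of the four ends of a tangle enter, two leave
-/

namespace Pool.Agent.HMA

theorem BalAux.not_val (b : Bool) :
    (if (!b) = true then (1 : ℤ) else -1) = -(if b = true then (1 : ℤ) else -1) := by
  cases b <;> simp

theorem tBal : S_Bal := by
  intro T
  induction T with
  | cr o u =>
    intro _
    change ((if o = true then (1 : ℤ) else -1) + (if u = true then 1 else -1) =
      (if u = true then 1 else -1) + (if o = true then 1 else -1))
    ring
  | hor S T ihS ihT =>
    rintro ⟨hS, hT, h1, h2⟩
    have e1 := ihS hS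
    have e2 := ihT hT
    change ((if S.ovr S.nw = true then (1 : ℤ) else -1) + (if S.und S.sw = true then 1 else -1) =
      (if T.und T.ne = true then 1 else -1) + (if T.ovr T.se = true then 1 else -1))
    rw [h1, h2] at e1
    linarith
  | ver S T ihS ihT =>
    rintro ⟨hS, hT, h1, h2⟩
    have e1 := ihS hS
    have e2 := ihT hT
    change ((if S.ovr S.nw = true then (1 : ℤ) else -1) + (if T.und T.sw = true then 1 else -1) =
      (if S.und S.ne = true then 1 else -1) + (if T.ovr T.se = true then 1 else -1))
    rw [h1, h2, BalAux.not_val, BalAux.not_val] at e1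
    linarith

end Pool.Agent.HMA
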