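import Pool.Agent.HMA.Spec

/-! # Products of the polynomials `SS k` -/

set_option autoImplicit false

namespace Pool.Agent.HMA

open Polynomial

namespace ChebAux

theorem SS_two (k : ℕ) : SS (k + 2) = X * SS (k + 1) - SS k := by
  rw [SS]

theorem SS_one : SS 1 = X := by
  rw [SS]

theorem SS_zero : SS 0 = 1 := by
  rw [SS]

theorem uni_le {a : ℕ} (P : AddSubmonoid ℤ[X]) (h : ∀ k i, k + 2 * i = a → SS k ∈ P) :
    Uni a ≤ P := by
  rw [Uni, AddSubmonoid.closure_le]
  rintro f ⟨k, i, hk, rfl⟩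
  exact h k i hk

theorem SS_mem (k : ℕ) : SS k ∈ Uni k := AddSubmonoid.subset_closure ⟨k, 0, by omega, rfl⟩

theorem mono (a i : ℕ) : Uni a ≤ Uni (a + 2 * i) :=
  uni_le _ fun k j hk => AddSubmonoid.subset_closure ⟨k, j + i, by omega, rfl⟩

theorem mul_succ (a b : ℕ) : SS (a + 1) * SS (b + 1) = SS a * SS b + SS (a + b + 2) := by
  induction a using Nat.twoStepInduction with
  | zero =>
    rw [zero_add, zero_add, SS_one, SS_zero, SS_two]
    ring
  | one =>
    have h1 : SS (1 + b + 2) = X * SS (b + 2) - SS (b + 1) := by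
      rw [show 1 + b + 2 = (b + 1) + 2 by omega, SS_two]
    rw [h1, show (1 : ℕ) + 1 = 0 + 2 by omega, SS_two 0, zero_add, SS_one, SS_zero, SS_two b]
    ring
  | more a h0 h1 =>
    have h2 : SS (a + 2 + b + 2) = X * SS (a + 1 + b + 2) - SS (a + b + 2) := by
      rw [show a + 2 + b + 2 = (a + b + 2) + 2 by omega, SS_two,
        show a + b + 2 + 1 = a + 1 + b + 2 by omega]
    have e1 : SS (a + 2 + 1) = X * SS (a + 1 + 1) - SS (a + 1) := SS_two (a + 1)
    have e2 : SS (a + 2) = X * SS (a + 1) - SS a := SS_two a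
    linear_combination SS (b + 1) * e1 - SS b * e2 - h2 + X * h1 - h0

theorem mul_mem' (a : ℕ) : ∀ b : ℕ, ∃ G ∈ Uni (a + b), SS a * SS b = SS (a + b) + G := by
  induction a with
  | zero =>
    intro b
    exact ⟨0, zero_mem _, by rw [SS_zero, zero_add, one_mul, add_zero]⟩
  | succ a ih =>
    intro b
    cases b with
    | zero => exact ⟨0, zero_mem _, by rw [SS_zero, mul_one, add_zero, add_zero]⟩
    | succ b =>
      obtain ⟨G, hG, h⟩ := ih b
      refine ⟨SS a * SS b, ?_, ?_⟩
      · rw [h]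
        have h1 : SS (a + b) + G ∈ Uni (a + b) := add_mem (SS_mem _) hG
        have h2 := mono (a + b) 1 h1
        rw [show a + 1 + (b + 1) = a + b + 2 * 1 by omega]
        exact h2
      · rw [mul_succ, show a + 1 + (b + 1) = a + b + 2 by omega]
        ring

theorem SS_mul_mem (a b : ℕ) : SS a * SS b ∈ Uni (a + b) := by
  obtain ⟨G, hG, h⟩ := mul_mem' a b
  rw [h]
  exact add_mem (SS_mem _) hG

theorem mul_mem (a b : ℕ) (F G : ℤ[X]) (hF : F ∈ Uni a) (hG : G ∈ Uni b) :
    F * G ∈ Uni (a + b) := by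
  have h1 : Uni a ≤ (Uni (a + b)).comap (AddMonoidHom.mulRight G) := by
    refine uni_le _ fun k i hk => ?_
    have h2 : Uni b ≤ (Uni (a + b)).comap (AddMonoidHom.mulLeft (SS k)) := by
      refine uni_le _ fun l j hl => ?_
      have h3 := mono (k + l) (i + j) (SS_mul_mem k l)
      rw [show k + l + 2 * (i + j) = a + b by omega] at h3
      exact h3
    exact h2 hG
  exact h1 hF

end ChebAux

open ChebAux in
theorem tCheb : S_Cheb :=
  ⟨mul_mem', mul_mem, fun a i _ h => mono a i h⟩

end Pool.Agent.HMA
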