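import Pool.Agent.HMA.Spec

/-!
# HMA, Clo: the minors of the closures
-/

namespace Pool.Agent.HMA

open Polynomial Matrix

namespace CloAux

variable {n R : Type*} [Fintype n] [DecidableEq n] [CommRing R]

/-- Two entries which do not change a minor. -/
theorem minor (M : Matrix n n R) (i j k l : n) (w1 w2 : R) :
    (M + single j k w1 + single l i w2).adjugate i j = M.adjugate i j := by
  rw [adjugate_apply, adjugate_apply]
  by_cases hl : l = j
  · subst hl
    refine congrArg det ?_
    ext a b
    by_cases ha : a = l
    · subst ha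
      rw [updateRow_self, updateRow_self]
    · rw [updateRow_ne ha, updateRow_ne ha, Matrix.add_apply, Matrix.add_apply,
        single_apply_of_row_ne (Ne.symm ha), single_apply_of_row_ne (Ne.symm ha), add_zero,
        add_zero]
  · have h1 : (M + single j k w1 + single l i w2).updateRow j (Pi.single i 1) =
        (M.updateRow j (Pi.single i 1)).updateRow l
          ((M.updateRow j (Pi.single i 1)) l + w2 • (M.updateRow j (Pi.single i 1)) j) := by
      ext a b
      by_cases ha : a = j
      · subst ha
        rw [updateRow_self, updateRow_ne (Ne.symm hl), updateRow_self]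
      · rw [updateRow_ne ha, Matrix.add_apply, Matrix.add_apply,
          single_apply_of_row_ne (Ne.symm ha), add_zero]
        by_cases hal : a = l
        · subst hal
          rw [updateRow_self, Pi.add_apply, Pi.smul_apply, updateRow_ne ha, updateRow_self]
          by_cases hb : b = i
          · subst hb
            rw [single_apply_same, Pi.single_eq_same, smul_eq_mul, mul_one]
          · rw [single_apply_of_col_ne _ _ (Ne.symm hb), Pi.single_eq_of_ne hb, smul_zero]
        · rw [updateRow_ne hal, updateRow_ne ha, single_apply_of_row_ne (Ne.symm hal), add_zero]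
    rw [h1, det_updateRow_add_smul_self _ hl]

/-- Cramer. -/
theorem cramer' (M : Matrix n n R) (h : n → R) (j : n) (w : R)
    (hh : M.mulVec h = Pi.single j w) (i : n) : M.adjugate i j * w = M.det * h i := by
  have h1 : M.adjugate.mulVec (M.mulVec h) = M.det • h := by
    rw [mulVec_mulVec, adjugate_mul, smul_mulVec, one_mulVec]
  rw [hh] at h1
  have h2 := congrFun h1 i
  rw [mulVec_single] at h2
  simpa using h2

end CloAux

theorem tClo : S_Clo := by
  intro T ξ m a b hR
  obtain ⟨hd, hm, h, hh, ha, hb⟩ := hR
  constructor
  · have h1 : foxC (-(ξ ^ 2)) T true = fox (-(ξ ^ 2)) T +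
        single T.ne T.nw (wNE (-(ξ ^ 2)) (T.ovr T.ne)) +
        single T.sw T.se (wSW (-(ξ ^ 2)) (T.ovr T.sw)) := by
      unfold foxC
      rw [if_pos rfl]
    rw [h1, CloAux.minor, CloAux.cramer' _ h _ _ hh, hd, hb]
  · have h1 : foxC (-(ξ ^ 2)) T false = fox (-(ξ ^ 2)) T +
        single T.ne T.se (wNE (-(ξ ^ 2)) (T.ovr T.ne)) +
        single T.sw T.nw (wSW (-(ξ ^ 2)) (T.ovr T.sw)) := by
      unfold foxC
      rw [if_neg (by decide), add_right_comm]
    rw [h1, CloAux.minor, CloAux.cramer' _ h _ _ hh, hd, ha]

end Pool.Agent.HMA
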