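import Pool.Agent.HMA.Spec

/-!
# HMA, Coef: the coefficients of a full polynomial
-/

set_option autoImplicit false

namespace Pool.Agent.HMA

open Polynomial

namespace CoefAux

theorem shift (y : ℝ) (i k N : ℕ) (h : i + k ≤ N) :
    ∑ j ∈ Finset.range (k + 1), y ^ (i + j) =
      ∑ m ∈ Finset.range (N + 1), ((if i ≤ m ∧ m ≤ i + k then 1 else 0 : ℕ) : ℝ) * y ^ m := by
  have h1 : (Finset.range (N + 1)).filter (fun m => i ≤ m ∧ m ≤ i + k) =
      (Finset.range (k + 1)).image (fun j => i + j) := by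
    ext m
    simp only [Finset.mem_filter, Finset.mem_range, Finset.mem_image]
    constructor
    · rintro ⟨h1, h2, h3⟩
      exact ⟨m - i, by omega, by omega⟩
    · rintro ⟨j, h1, rfl⟩
      omega
  calc ∑ j ∈ Finset.range (k + 1), y ^ (i + j)
      = ∑ m ∈ (Finset.range (k + 1)).image (fun j => i + j), y ^ m := by
        rw [Finset.sum_image]
        intro a _ b _ hab
        exact Nat.add_left_cancel hab
    _ = ∑ m ∈ Finset.range (N + 1), (if i ≤ m ∧ m ≤ i + k then y ^ m else 0) := by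
        rw [← h1, Finset.sum_filter]
    _ = _ := by
        refine Finset.sum_congr rfl fun m _ => ?_
        by_cases h2 : i ≤ m ∧ m ≤ i + k
        · rw [if_pos h2, if_pos h2, Nat.cast_one, one_mul]
        · rw [if_neg h2, if_neg h2, Nat.cast_zero, zero_mul]

theorem prod (y : ℝ) (q p : ℕ) :
    (∑ i ∈ Finset.range (p + 1), y ^ i) * (∑ j ∈ Finset.range (q + 1), y ^ j) =
      ∑ m ∈ Finset.range (p + q + 1), ((min m p + 1 - (m - q) : ℕ) : ℝ) * y ^ m := by
  induction p with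
  | zero =>
    rw [Finset.sum_range_one, pow_zero, one_mul, Nat.zero_add]
    refine Finset.sum_congr rfl fun m hm => ?_
    have h1 : min m 0 + 1 - (m - q) = 1 := by
      have := Finset.mem_range.1 hm
      omega
    rw [h1, Nat.cast_one, one_mul]
  | succ p ih =>
    rw [Finset.sum_range_succ, add_mul, ih, Finset.mul_sum]
    have h1 : ∀ j, y ^ (p + 1) * y ^ j = y ^ (p + 1 + j) := fun j => (pow_add _ _ _).symm
    simp only [h1]
    rw [shift y (p + 1) q (p + 1 + q) le_rfl]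
    have h2 : ∑ m ∈ Finset.range (p + q + 1), ((min m p + 1 - (m - q) : ℕ) : ℝ) * y ^ m =
        ∑ m ∈ Finset.range (p + 1 + q + 1), ((min m p + 1 - (m - q) : ℕ) : ℝ) * y ^ m := by
      rw [show p + 1 + q + 1 = p + q + 1 + 1 by omega, Finset.sum_range_succ _ (p + q + 1)]
      have h3 : min (p + q + 1) p + 1 - (p + q + 1 - q) = 0 := by omega
      rw [h3, Nat.cast_zero, zero_mul, add_zero]
    rw [h2, ← Finset.sum_add_distrib]
    refine Finset.sum_congr rfl fun m hm => ?_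
    rw [← add_mul, ← Nat.cast_add]
    congr 2
    have := Finset.mem_range.1 hm
    by_cases h3 : p + 1 ≤ m ∧ m ≤ p + 1 + q
    · rw [if_pos h3]
      omega
    · rw [if_neg h3]
      omega

theorem ssk {ξ : ℝ} (hξ : 0 < ξ) :
    ∀ k, ξ ^ k * ev ξ (SS k) = ∑ j ∈ Finset.range (k + 1), (ξ ^ 2) ^ j
  | 0 => by simp [SS, ev]
  | 1 => by
    have h : ξ ≠ 0 := hξ.ne'
    simp only [SS, ev, aeval_X, Finset.sum_range_succ, Finset.sum_range_zero]
    field_simp
    ring
  | k + 2 => by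
    have h : ξ ≠ 0 := hξ.ne'
    have h1 := ssk hξ k
    have h2 := ssk hξ (k + 1)
    have e : ev ξ (SS (k + 2)) = (ξ + ξ⁻¹) * ev ξ (SS (k + 1)) - ev ξ (SS k) := by
      simp [SS, ev]
    have h3 : ξ ^ (k + 2) * ev ξ (SS (k + 2)) =
        (ξ ^ 2 + 1) * (ξ ^ (k + 1) * ev ξ (SS (k + 1))) - ξ ^ 2 * (ξ ^ k * ev ξ (SS k)) := by
      rw [e]
      field_simp
      ring
    rw [h3, h1, h2, Finset.sum_range_succ _ (k + 1 + 1), Finset.sum_range_succ _ (k + 1)]
    ring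

/-- The properties of the coefficients of an element of `Uni N`. -/
def P (N : ℕ) (F : ℤ[X]) (a : ℕ → ℕ) : Prop :=
  (∀ ξ : ℝ, 0 < ξ → ξ ^ N * ev ξ F = ∑ j ∈ Finset.range (N + 1), (a j : ℝ) * (ξ ^ 2) ^ j) ∧
    (∀ i j, i + j = N → a i = a j) ∧ ∀ j, 2 * (j + 1) ≤ N → a j ≤ a (j + 1)

theorem P.add {N : ℕ} {F G : ℤ[X]} {a b : ℕ → ℕ} (h : P N F a) (h' : P N G b) :
    P N (F + G) fun j => a j + b j := by
  refine ⟨fun ξ hξ => ?_, fun i j hij => ?_, fun j hj => ?_⟩
  · have e : ev ξ (F + G) = ev ξ F + ev ξ G := map_add _ _ _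
    rw [e, mul_add, h.1 ξ hξ, h'.1 ξ hξ, ← Finset.sum_add_distrib]
    refine Finset.sum_congr rfl fun j _ => ?_
    rw [Nat.cast_add, add_mul]
  · change a i + b i = a j + b j
    rw [h.2.1 i j hij, h'.2.1 i j hij]
  · exact Nat.add_le_add (h.2.2 j hj) (h'.2.2 j hj)

theorem uni {N : ℕ} {F : ℤ[X]} (hF : F ∈ Uni N) : ∃ a, P N F a := by
  refine AddSubmonoid.closure_induction (motive := fun F _ => ∃ a, P N F a) ?_ ?_ ?_ hF
  · rintro F ⟨k, i, hki, rfl⟩
    refine ⟨fun j => if i ≤ j ∧ j ≤ i + k then 1 else 0, fun ξ hξ => ?_, fun a b hab => ?_,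
      fun j hj => ?_⟩
    · rw [← shift (ξ ^ 2) i k N (by omega), ← hki]
      have e : ξ ^ (k + 2 * i) * ev ξ (SS k) = (ξ ^ 2) ^ i * (ξ ^ k * ev ξ (SS k)) := by ring
      rw [e, ssk hξ k, Finset.mul_sum]
      refine Finset.sum_congr rfl fun j _ => ?_
      rw [pow_add]
    · have h1 : (i ≤ a ∧ a ≤ i + k) ↔ (i ≤ b ∧ b ≤ i + k) := by omega
      simp only [h1]
    · change (if i ≤ j ∧ j ≤ i + k then 1 else 0) ≤ if i ≤ j + 1 ∧ j + 1 ≤ i + k then 1 else 0
      by_cases h1 : i ≤ j ∧ j ≤ i + k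
      · rw [if_pos h1, if_pos (by omega)]
      · rw [if_neg h1]
        exact Nat.zero_le _
  · refine ⟨fun _ => 0, fun ξ hξ => ?_, fun _ _ _ => rfl, fun _ _ => le_rfl⟩
    have e : ev ξ 0 = 0 := map_zero _
    rw [e, mul_zero]
    exact (Finset.sum_eq_zero fun j _ => by rw [Nat.cast_zero, zero_mul]).symm
  · rintro F G _ _ ⟨a, ha⟩ ⟨b, hb⟩
    exact ⟨_, ha.add hb⟩

theorem full (p q : ℕ) : P (p + q) (SS p * SS q) fun m => min m p + 1 - (m - q) := by
  refine ⟨fun ξ hξ => ?_, fun i j hij => ?_, fun j hj => ?_⟩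
  · have e : ev ξ (SS p * SS q) = ev ξ (SS p) * ev ξ (SS q) := map_mul _ _ _
    rw [← prod (ξ ^ 2) q p, ← ssk hξ p, ← ssk hξ q, e]
    ring
  · change min i p + 1 - (i - q) = min j p + 1 - (j - q)
    omega
  · change min j p + 1 - (j - q) ≤ min (j + 1) p + 1 - (j + 1 - q)
    omega

end CoefAux

open CoefAux in
/-- The coefficients of a full polynomial. -/
theorem tCoef : S_Coef := by
  rintro p q F ⟨G, hG, rfl⟩
  obtain ⟨a, ha⟩ := uni hG
  have h := (full p q).add ha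
  refine ⟨_, fun ξ hξ => ?_, ?_, h.2.1, fun j h1 h2 => ?_, h.2.2⟩
  · rw [h.1 ξ hξ]
    refine Finset.sum_congr rfl fun j _ => ?_
    rw [← pow_mul]
  · omega
  · have h3 := ha.2.2 j (by omega)
    omega

end Pool.Agent.HMA
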