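import Pool.Agent.HMA.Spec

/-! # The cone of parallel tangles -/

set_option autoImplicit false

namespace Pool.Agent.HMA

open Polynomial

namespace Cone1Aux

theorem sg_two (k : ℕ) : sg (k + 2) = (X * (sg (k + 1)).1 - (sg k).1,
    X * (sg (k + 1)).2 - (sg k).2) := by
  rw [sg]

theorem sg_fst (k : ℕ) : (sg (k + 1)).1 = SS k := by
  induction k using Nat.twoStepInduction with
  | zero => rw [zero_add, sg, SS]
  | one =>
    rw [show (1 : ℕ) + 1 = 0 + 2 by omega, sg_two, sg, zero_add, sg, SS]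
    ring
  | more k h0 h1 =>
    rw [show k + 2 + 1 = (k + 1) + 2 by omega, sg_two, SS]
    simp only
    rw [show k + 1 + 1 = (k + 1) + 1 by omega, h1, h0]

theorem sg_succ (l : ℕ) : sg (l + 1) = (X * (sg l).1 + (sg l).2, -(sg l).1) := by
  induction l using Nat.twoStepInduction with
  | zero =>
    rw [zero_add, sg, sg]
    simp
  | one =>
    rw [show (1 : ℕ) + 1 = 0 + 2 by omega, sg_two, zero_add, sg, sg]
    simp
  | more k _ h1 =>
    have e : (sg (k + 2 + 1)).1 = X * (sg (k + 2)).1 - (sg (k + 1)).1 :=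
      congrArg Prod.fst (sg_two (k + 1))
    have f : (sg (k + 2 + 1)).2 = X * (sg (k + 2)).2 - (sg (k + 1)).2 :=
      congrArg Prod.snd (sg_two (k + 1))
    have a1 : (sg (k + 2)).1 = X * (sg (k + 1)).1 + (sg (k + 1)).2 := congrArg Prod.fst h1
    have b1 : (sg (k + 2)).2 = -(sg (k + 1)).1 := congrArg Prod.snd h1
    refine Prod.ext ?_ ?_
    · change (sg (k + 2 + 1)).1 = X * (sg (k + 2)).1 + (sg (k + 2)).2
      linear_combination e - b1
    · change (sg (k + 2 + 1)).2 = -(sg (k + 2)).1
      linear_combination f + X * b1 + a1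

theorem pm_sg (k l : ℕ) : pm (sg k) (sg l) = sg (k + l) := by
  induction k using Nat.twoStepInduction with
  | zero =>
    rw [zero_add, sg]
    refine Prod.ext ?_ ?_
    · simp only [pm]
      ring
    · simp only [pm]
      ring
  | one =>
    rw [show 1 + l = l + 1 by omega, sg_succ l, sg]
    refine Prod.ext ?_ ?_
    · simp only [pm]
      ring
    · simp only [pm]
      ring
  | more k h0 h1 =>
    have e : k + 2 + l = (k + l) + 2 := by omega
    rw [e, sg_two, sg_two, show k + l + 1 = k + 1 + l by omega, ← h0, ← h1]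
    refine Prod.ext ?_ ?_
    · simp only [pm]
      ring
    · simp only [pm]
      ring

theorem pm_zero_left (y : ℤ[X] × ℤ[X]) : pm 0 y = 0 := by
  refine Prod.ext ?_ ?_
  · simp [pm]
  · simp [pm]

theorem pm_zero_right (x : ℤ[X] × ℤ[X]) : pm x 0 = 0 := by
  refine Prod.ext ?_ ?_
  · simp [pm]
  · simp [pm]

theorem pm_add_left (x x' y : ℤ[X] × ℤ[X]) : pm (x + x') y = pm x y + pm x' y := by
  refine Prod.ext ?_ ?_
  · simp only [pm, Prod.fst_add, Prod.snd_add]
    ring
  · simp only [pm, Prod.fst_add, Prod.snd_add]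
    ring

theorem pm_add_right (x y y' : ℤ[X] × ℤ[X]) : pm x (y + y') = pm x y + pm x y' := by
  refine Prod.ext ?_ ?_
  · simp only [pm, Prod.fst_add, Prod.snd_add]
    ring
  · simp only [pm, Prod.fst_add, Prod.snd_add]
    ring

theorem pm_mul (P Q : ℤ[X]) (x y : ℤ[X] × ℤ[X]) :
    pm (P * x.1, P * x.2) (Q * y.1, Q * y.2) = (P * Q * (pm x y).1, P * Q * (pm x y).2) := by
  refine Prod.ext ?_ ?_
  · simp only [pm]
    ring
  · simp only [pm]
    ring

theorem kk_le {E : ℕ} (S : AddSubmonoid (ℤ[X] × ℤ[X]))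
    (h : ∀ e k P, e + k = E → P ∈ Uni e → (P * (sg k).1, P * (sg k).2) ∈ S) : KK E ≤ S := by
  rw [KK, AddSubmonoid.closure_le]
  rintro f ⟨e, k, P, hk, hP, rfl⟩
  exact h e k P hk hP

theorem kk_mem {E e k : ℕ} {P : ℤ[X]} (h : e + k = E) (hP : P ∈ Uni e) :
    (P * (sg k).1, P * (sg k).2) ∈ KK E :=
  AddSubmonoid.subset_closure ⟨e, k, P, h, hP, rfl⟩

end Cone1Aux

open Cone1Aux in
theorem tCone1 : S_Cheb → S_Cone1 := by
  rintro ⟨-, h2, -⟩
  have hS : ∀ k, SS k ∈ Uni k := fun k => AddSubmonoid.subset_closure ⟨k, 0, by omega, rfl⟩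
  refine ⟨sg_fst, pm_sg, ?_, ?_, ?_, ?_⟩
  · intro e P hP
    have h := kk_mem (E := e) (k := 0) (by omega) hP
    rw [sg] at h
    simpa using h
  · intro e E P x hP hx
    have h1 : KK E ≤ (KK (e + E)).comap
        ((AddMonoidHom.mulLeft P).prodMap (AddMonoidHom.mulLeft P)) := by
      refine kk_le _ fun e' k Q hk hQ => ?_
      have h3 := kk_mem (E := e + E) (e := e + e') (k := k) (by omega) (h2 e e' P Q hP hQ)
      rw [mul_assoc, mul_assoc] at h3
      exact h3
    exact h1 hx
  · intro E E' x y hx hy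
    refine AddSubmonoid.closure_induction (motive := fun x _ => pm x y ∈ KK (E + E'))
      ?_ ?_ ?_ hx
    · rintro x ⟨e, k, P, hk, hP, rfl⟩
      refine AddSubmonoid.closure_induction
        (motive := fun y _ => pm (P * (sg k).1, P * (sg k).2) y ∈ KK (E + E')) ?_ ?_ ?_ hy
      · rintro y ⟨e', k', P', hk', hP', rfl⟩
        rw [pm_mul, pm_sg]
        exact kk_mem (by omega) (h2 _ _ _ _ hP hP')
      · rw [pm_zero_right]
        exact zero_mem _
      · intro y y' _ _ h h'
        rw [pm_add_right]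
        exact add_mem h h'
    · rw [pm_zero_left]
      exact zero_mem _
    · intro x x' _ _ h h'
      rw [pm_add_left]
      exact add_mem h h'
  · intro E x hx
    have h1 : KK (E + 1) ≤ (Uni E).comap (AddMonoidHom.fst ℤ[X] ℤ[X]) := by
      refine kk_le _ fun e k P hk hP => ?_
      cases k with
      | zero =>
        change P * (sg 0).1 ∈ Uni E
        rw [sg, mul_zero]
        exact zero_mem _
      | succ k =>
        change P * (sg (k + 1)).1 ∈ Uni E
        rw [sg_fst]
        have h3 := h2 e k P _ hP (hS k)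
        rw [show e + k = E by omega] at h3
        exact h3
    exact h1 hx

end Pool.Agent.HMA
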