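import Pool.Agent.HMA.Spec

/-! # `FullK`: composition and first component -/

set_option autoImplicit false

namespace Pool.Agent.HMA

open Polynomial

namespace Cone2Aux

theorem pm_add_left (x x' y : ℤ[X] × ℤ[X]) : pm (x + x') y = pm x y + pm x' y := by
  refine Prod.ext ?_ ?_
  · simp only [pm, Prod.fst_add, Prod.snd_add]
    ring
  · simp only [pm, Prod.fst_add, Prod.snd_add]
    ring

theorem pm_add_right (x y y' : ℤ[X] × ℤ[X]) : pm x (y + y') = pm x y + pm x y' := by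
  refine Prod.ext ?_ ?_
  · simp only [pm, Prod.fst_add, Prod.snd_add]
    ring
  · simp only [pm, Prod.fst_add, Prod.snd_add]
    ring

theorem pm_mul (P Q : ℤ[X]) (x y : ℤ[X] × ℤ[X]) :
    pm (P * x.1, P * x.2) (Q * y.1, Q * y.2) = (P * Q * (pm x y).1, P * Q * (pm x y).2) := by
  refine Prod.ext ?_ ?_
  · simp only [pm]
    ring
  · simp only [pm]
    ring

end Cone2Aux

open Cone2Aux in
theorem tCone2 : S_Cheb → S_FullM → S_Cone1 → S_Cone2 := by
  rintro - ⟨f1, f2, f3, f4⟩ ⟨c1, c2, -, c4, c5, c6⟩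
  have hK : ∀ p' k p q P, p' + k = p → Full p' q P →
      (P * (sg (k + 1)).1, P * (sg (k + 1)).2) ∈ KK (p + q + 1) := by
    intro p' k p q P hk hP
    exact AddSubmonoid.subset_closure ⟨p' + q, k + 1, P, by omega, f2 _ _ _ hP, rfl⟩
  refine ⟨⟨0, 0, 1, 0, rfl, f1, zero_mem _, ?_⟩, ?_, ?_, ?_, ?_⟩
  · rw [zero_add, sg]
    refine Prod.ext ?_ ?_
    · simp
    · simp
  · rintro p q x ⟨p', k, P, R, hk, hP, hR, rfl⟩
    have h1 : Full k 0 (SS k) := ⟨0, zero_mem _, by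
      rw [show SS 0 = 1 from by rw [SS]]
      ring⟩
    have h2 := f4 _ _ _ _ _ _ hP h1
    rw [hk, add_zero] at h2
    have h3 := f3 _ _ _ _ h2 (c6 _ _ hR)
    change Full p q (P * (sg (k + 1)).1 + R.1)
    rw [c1]
    exact h3
  · rintro p q p' q' x y ⟨p1, k, P, R, hk, hP, hR, rfl⟩ ⟨p2, l, P', R', hl, hP', hR', rfl⟩
    refine ⟨p1 + p2, k + l + 1, P * P',
      pm (P * (sg (k + 1)).1, P * (sg (k + 1)).2) R' +
        pm R ((P' * (sg (l + 1)).1, P' * (sg (l + 1)).2) + R'), by omega, f4 _ _ _ _ _ _ hP hP',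
      ?_, ?_⟩
    · have g1 := c5 _ _ _ _ (hK _ _ _ _ _ hk hP) hR'
      have g2 := c5 _ _ _ _ hR (add_mem (hK _ _ _ _ _ hl hP') hR')
      have e : p + q + 1 + (p' + q' + 1) = p + p' + 1 + (q + q') + 1 := by omega
      rw [e] at g1 g2
      exact add_mem g1 g2
    · rw [pm_add_left, pm_add_right (P * (sg (k + 1)).1, P * (sg (k + 1)).2), pm_mul, c2,
        show k + 1 + (l + 1) = k + l + 1 + 1 by omega, add_assoc]
  · rintro p q p' q' F x hF ⟨p1, k, P, R, hk, hP, hR, rfl⟩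
    refine ⟨p + p1, k, F * P, (F * R.1, F * R.2), by omega, f4 _ _ _ _ _ _ hF hP, ?_, ?_⟩
    · have g1 := c4 _ _ _ _ (f2 _ _ _ hF) hR
      rw [show p + q + (p' + q' + 1) = p + p' + (q + q') + 1 by omega] at g1
      exact g1
    · refine Prod.ext ?_ ?_
      · simp only [Prod.fst_add]
        ring
      · simp only [Prod.snd_add]
        ring
  · rintro p q x y ⟨p', k, P, R, hk, hP, hR, rfl⟩ hy
    exact ⟨p', k, P, R + y, hk, hP, add_mem hR hy, by rw [add_assoc]⟩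

end Pool.Agent.HMA
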