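import Mathlib

/-!
# HMA, Defs: alternating algebraic links

The Hirasawa-Murasugi inequality (MP_29c64e_gt) for alternating algebraic (arborescent) links.

A tangle is an expression tree made from single crossings of slope `+1` (the over strand joins the
ends NW and SE, the under strand joins NE and SW) by horizontal and vertical sums. Closing a tangle
gives an alternating diagram. In an alternating diagram every arc (from undercrossing to
undercrossing) passes over exactly one crossing, so the arcs are indexed by the crossings.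
-/

namespace Pool.Agent.HMA

open Polynomial Matrix

/-! ## Part 1: tangles -/

/-- Alternating algebraic tangles with an orientation of every strand at every crossing.
`cr o u` is one crossing: the over strand runs from NW to SE if `o = true`, from SE to NW if
`o = false`; the under strand runs from SW to NE if `u = true`, from NE to SW if `u = false`.
`hor S T` is `S` to the left of `T`, `ver S T` is `S` above `T`. -/
inductive Tangle where
  | cr (o u : Bool) : Tangle
  | hor (S T : Tangle) : Tangle
  | ver (S T : Tangle) : Tangle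

namespace Tangle

/-- The crossings. -/
def Cr : Tangle → Type
  | cr _ _ => Unit
  | hor S T => S.Cr ⊕ T.Cr
  | ver S T => S.Cr ⊕ T.Cr

instance instFintypeCr : (T : Tangle) → Fintype T.Cr
  | cr _ _ => inferInstanceAs (Fintype Unit)
  | hor S T =>
      letI := instFintypeCr S
      letI := instFintypeCr T
      inferInstanceAs (Fintype (S.Cr ⊕ T.Cr))
  | ver S T =>
      letI := instFintypeCr S
      letI := instFintypeCr T
      inferInstanceAs (Fintype (S.Cr ⊕ T.Cr))

instance instDecidableEqCr : (T : Tangle) → DecidableEq T.Cr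
  | cr _ _ => inferInstanceAs (DecidableEq Unit)
  | hor S T =>
      letI := instDecidableEqCr S
      letI := instDecidableEqCr T
      inferInstanceAs (DecidableEq (S.Cr ⊕ T.Cr))
  | ver S T =>
      letI := instDecidableEqCr S
      letI := instDecidableEqCr T
      inferInstanceAs (DecidableEq (S.Cr ⊕ T.Cr))

/-- The crossing at the end NW (an end of its over strand). -/
def nw : (T : Tangle) → T.Cr
  | cr _ _ => ()
  | hor S _ => Sum.inl S.nw
  | ver S _ => Sum.inl S.nw

/-- The crossing at the end NE (an end of its under strand). -/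
def ne : (T : Tangle) → T.Cr
  | cr _ _ => ()
  | hor _ T => Sum.inr T.ne
  | ver S _ => Sum.inl S.ne

/-- The crossing at the end SW (an end of its under strand). -/
def sw : (T : Tangle) → T.Cr
  | cr _ _ => ()
  | hor S _ => Sum.inl S.sw
  | ver _ T => Sum.inr T.sw

/-- The crossing at the end SE (an end of its over strand). -/
def se : (T : Tangle) → T.Cr
  | cr _ _ => ()
  | hor _ T => Sum.inr T.se
  | ver _ T => Sum.inr T.se

/-- Orientation of the over strand of a crossing, `true` is from NW to SE. -/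
def ovr : (T : Tangle) → T.Cr → Bool
  | cr o _ => fun _ => o
  | hor S T => Sum.elim S.ovr T.ovr
  | ver S T => Sum.elim S.ovr T.ovr

/-- Orientation of the under strand of a crossing, `true` is from SW to NE. -/
def und : (T : Tangle) → T.Cr → Bool
  | cr _ u => fun _ => u
  | hor S T => Sum.elim S.und T.und
  | ver S T => Sum.elim S.und T.und

/-- The orientations of the strands agree wherever two ends are glued. In `hor S T` the end NE of `S`
is glued to the end NW of `T` and the end SE of `S` to the end SW of `T`; in `ver S T` the end SW of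
`S` is glued to the end NW of `T` and the end SE of `S` to the end NE of `T`. -/
def Oriented : Tangle → Prop
  | cr _ _ => True
  | hor S T => S.Oriented ∧ T.Oriented ∧ S.und S.ne = T.ovr T.nw ∧ S.ovr S.se = T.und T.sw
  | ver S T => S.Oriented ∧ T.Oriented ∧ S.und S.sw = !T.ovr T.nw ∧ S.ovr S.se = !T.und T.ne

end Tangle

/-! ## Part 2: the Fox matrix -/

section Fox

variable {R : Type*} [CommRing R]

/-- Entry of the row of a crossing in the column of the arc at its side NE. The over strand has NE on
its left if it runs from NW to SE (`o = true`). The left arc has coefficient `t`, the right arc `-1`. -/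
def wNE (t : R) (o : Bool) : R := if o then t else -1

/-- Entry of the row of a crossing in the column of the arc at its side SW. -/
def wSW (t : R) (o : Bool) : R := if o then -1 else t

/-- The Fox matrix of a tangle: for every crossing the row of the relation
`(1 - t) x + t l - r = 0`, `x` the arc over the crossing, `l`, `r` the arcs which end there to the left
and to the right of the over strand. The two arcs which leave the tangle at the ends NE and SW of
under strands are left out. -/
def fox (t : R) : (T : Tangle) → Matrix T.Cr T.Cr R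
  | .cr _ _ => fun _ _ => 1 - t
  | .hor S T => fromBlocks (fox t S) (single S.ne T.nw (wNE t (S.ovr S.ne)))
      (single T.sw S.se (wSW t (T.ovr T.sw))) (fox t T)
  | .ver S T => fromBlocks (fox t S) (single S.sw T.nw (wSW t (S.ovr S.sw)))
      (single T.ne S.se (wNE t (T.ovr T.ne))) (fox t T)

/-- The two closures: `true` is the numerator (NW glued to NE, SW to SE), `false` is the
denominator (NW glued to SW, NE to SE). -/
def foxC (t : R) (T : Tangle) (c : Bool) : Matrix T.Cr T.Cr R :=
  if c then fox t T + single T.ne T.nw (wNE t (T.ovr T.ne)) + single T.sw T.se (wSW t (T.ovr T.sw))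
  else fox t T + single T.sw T.nw (wSW t (T.ovr T.sw)) + single T.ne T.se (wNE t (T.ovr T.ne))

end Fox

/-- The orientations agree in the closure. -/
def Closes (T : Tangle) (c : Bool) : Prop :=
  if c then T.ovr T.nw = T.und T.ne ∧ T.und T.sw = T.ovr T.se
  else T.ovr T.nw = !T.und T.sw ∧ T.ovr T.se = !T.und T.ne

/-! ## Part 3: the signature -/

/-- Number of faces of the diagram inside the tangle which have crossings above and below them (the
checkerboard colour of the regions N and S). -/
def faces : Tangle → ℕ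
  | .cr _ _ => 0
  | .hor S T => faces S + faces T
  | .ver S T => faces S + faces T + 1

/-- Number of positive crossings: `cr o u` is positive if and only if `o = u`. -/
def positive : Tangle → ℕ
  | .cr o u => if o = u then 1 else 0
  | .hor S T => positive S + positive T
  | .ver S T => positive S + positive T

/-- Traczyk's formula for the signature of an alternating diagram: the number of faces of the colour
of N, S (there are `faces T + 2` of them in the numerator and `faces T + 1` in the denominator)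
minus the number of positive crossings minus one. -/
def sig (T : Tangle) (c : Bool) : ℤ :=
  (faces T : ℤ) + (if c then 1 else 0) - positive T

/-! ## Part 4: the ring `ℤ[u]`, `u = ξ + ξ⁻¹` -/

/-- `SS k = (ξ^(k+1) - ξ^(-k-1)) / (ξ - ξ⁻¹)` as polynomial in `u = ξ + ξ⁻¹`. -/
noncomputable def SS : ℕ → ℤ[X]
  | 0 => 1
  | 1 => X
  | k + 2 => X * SS (k + 1) - SS k

/-- Nonnegative combinations of the `SS k`, `k ≤ N`, `k = N` mod 2. -/
noncomputable def Uni (N : ℕ) : AddSubmonoid ℤ[X] :=
  AddSubmonoid.closure {f | ∃ k i, k + 2 * i = N ∧ f = SS k}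

/-- `F = S_p S_q` + an element of `Uni (p + q)`. -/
def Full (p q : ℕ) (F : ℤ[X]) : Prop := ∃ G ∈ Uni (p + q), F = SS p * SS q + G

/-- The tangle `σ^k` (`k` parallel crossings): `(S_{k-1}, - S_{k-2})`. -/
noncomputable def sg : ℕ → ℤ[X] × ℤ[X]
  | 0 => (0, 1)
  | 1 => (1, 0)
  | k + 2 => (X * (sg (k + 1)).1 - (sg k).1, X * (sg (k + 1)).2 - (sg k).2)

/-- Product (vertical composition) of two parallel tangles, `A ξ + B` is multiplicative. -/
noncomputable def pm (x y : ℤ[X] × ℤ[X]) : ℤ[X] × ℤ[X] :=
  (X * (x.1 * y.1) + x.1 * y.2 + y.1 * x.2, x.2 * y.2 - x.1 * y.1)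

/-- The cone of the sums of `P σ^k`, `P ∈ Uni e`, `e + k = E`. -/
noncomputable def KK (E : ℕ) : AddSubmonoid (ℤ[X] × ℤ[X]) :=
  AddSubmonoid.closure {x | ∃ e k P, e + k = E ∧ P ∈ Uni e ∧ x = (P * (sg k).1, P * (sg k).2)}

/-- `P σ^(k+1)` + an element of the cone, `P` full. -/
def FullK (p q : ℕ) (x : ℤ[X] × ℤ[X]) : Prop :=
  ∃ p' k P R, p' + k = p ∧ Full p' q P ∧ R ∈ KK (p + q + 1) ∧
    x = (P * (sg (k + 1)).1, P * (sg (k + 1)).2) + R

/-! ## Part 5: the linear algebra -/

/-- `T` at `t = - ξ²`: the determinant is `m > 0`, and the solution `h` of `fox *ᵥ h = w e_ne`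
(`w > 0` the weight of the exit NE) has the values `a / m`, `b / m` at the crossings `nw`, `se`. -/
def Rel (T : Tangle) (ξ m a b : ℝ) : Prop :=
  (fox (-(ξ ^ 2)) T).det = m ∧ 0 < m ∧ ∃ h : T.Cr → ℝ,
    (fox (-(ξ ^ 2)) T).mulVec h = Pi.single T.ne (-(wNE (-(ξ ^ 2)) (T.ovr T.ne))) ∧
    m * h T.nw = a ∧ m * h T.se = b

/-- Value of a polynomial at `u = ξ + ξ⁻¹`. -/
noncomputable def ev (ξ : ℝ) (f : ℤ[X]) : ℝ := aeval (ξ + ξ⁻¹) f

/-- `ξ` or `ξ⁻¹`. -/
noncomputable def kap (d : Bool) (ξ : ℝ) : ℝ := if d then ξ else ξ⁻¹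

/-- The pattern `b` (both strands vertical) and its data. `d = true`: downwards. -/
def PatB (T : Tangle) : Prop :=
  ∃ (d : Bool) (x : ℤ[X] × ℤ[X]) (p q : ℕ) (K : ℤ),
    T.ovr T.nw = d ∧ T.und T.ne = !d ∧ T.und T.sw = !d ∧ T.ovr T.se = d ∧
    FullK p q x ∧ (p : ℤ) - q = faces T - positive T ∧
    ∀ ξ : ℝ, 0 < ξ →
      Rel T ξ (ξ ^ K * ((ξ + ξ⁻¹) * ev ξ x.1 + ev ξ x.2))
        (ξ ^ K * (kap d ξ * ev ξ x.1))
        (ξ ^ K * (kap d ξ * ev ξ x.1 + ev ξ x.2))

/-- The pattern `a` (both strands horizontal) and its data. `d = true`: to the right. -/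
def PatA (T : Tangle) : Prop :=
  ∃ (d : Bool) (x : ℤ[X] × ℤ[X]) (p q : ℕ) (K : ℤ),
    T.ovr T.nw = d ∧ T.und T.ne = d ∧ T.und T.sw = d ∧ T.ovr T.se = d ∧
    FullK q p x ∧ (p : ℤ) - q = faces T - positive T + 1 ∧
    ∀ ξ : ℝ, 0 < ξ →
      Rel T ξ (ξ ^ K * ((ξ + ξ⁻¹) * ev ξ x.1 + ev ξ x.2))
        (ξ ^ K * (kap d ξ * ev ξ x.1 + ev ξ x.2))
        (ξ ^ K * (kap d ξ * ev ξ x.1))

/-- The pattern `c` (in and out alternate) and its data `n`, `d`. -/
def PatC (T : Tangle) : Prop :=
  ∃ (o : Bool) (n d : ℤ[X]) (p q p' q' : ℕ) (K : ℤ),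
    T.ovr T.nw = o ∧ T.und T.ne = o ∧ T.und T.sw = !o ∧ T.ovr T.se = !o ∧
    Full p q n ∧ Full p' q' d ∧ (p = p' + 1 ∧ q = q' ∨ p' = p ∧ q' = q + 1) ∧
    (p' : ℤ) - q' = faces T - positive T ∧
    ∀ ξ : ℝ, 0 < ξ →
      Rel T ξ (ξ ^ K * (ev ξ n + kap o ξ * ev ξ d)) (ξ ^ K * (kap o ξ * ev ξ d)) (ξ ^ K * ev ξ n)

/-! ## Part 6: the statement -/

/-- The coefficients of `Δ` (up to sign and a power of `t`) have alternating signs, the absolute
values `a j`, `0 ≤ j ≤ N`, are symmetric, increase strictly up to the index `(N - |s|) / 2` and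
weakly up to the middle; the length `N - 2 i` of a flat middle part is at most `|s|`. -/
def Pattern (Δ : ℤ[X]) (s : ℤ) : Prop :=
  ∃ (e N : ℕ) (a : ℕ → ℕ) (z : ℤˣ),
    Δ = ∑ j ∈ Finset.range (N + 1), C ((z : ℤ) * (-1) ^ j * (a j : ℤ)) * X ^ (e + j) ∧
    |s| ≤ N ∧ (N : ℤ) ≡ s [ZMOD 2] ∧ 0 < a 0 ∧ (∀ i j, i + j = N → a i = a j) ∧
    (∀ j : ℕ, 2 * ((j : ℤ) + 1) + |s| ≤ N → a j < a (j + 1)) ∧
    (∀ j, 2 * (j + 1) ≤ N → a j ≤ a (j + 1)) ∧
    ∀ i, 2 * i ≤ N → (∀ j, i ≤ j → j + i ≤ N → a j = a i) → (N : ℤ) - 2 * i ≤ |s|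

end Pool.Agent.HMA
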