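import Pool.Agent.HMA.Spec

/-! A block determinant with two single entries. -/

set_option autoImplicit false

namespace Pool.Agent.HMA

open Matrix

namespace DetAux

theorem det_sub_single {n : Type} [Fintype n] [DecidableEq n] (D : Matrix n n ℝ) (k j : n)
    (c : ℝ) : (D - single k j c).det = D.det - c * D.adjugate j k := by
  have h1 : D - single k j c = D.updateRow k (D k + (-c) • Pi.single j 1) := by
    ext a b
    rw [Matrix.sub_apply, Matrix.single_apply]
    by_cases ha : a = k
    · subst ha
      rw [updateRow_self, Pi.add_apply, Pi.smul_apply, smul_eq_mul, Pi.single_apply]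
      by_cases hb : b = j
      · subst hb
        rw [if_pos ⟨rfl, rfl⟩, if_pos rfl]
        ring
      · rw [if_neg fun h => hb h.2.symm, if_neg hb]
        ring
    · rw [updateRow_ne ha, if_neg fun h => ha h.1.symm, sub_zero]
  rw [h1, det_updateRow_add, det_updateRow_smul, updateRow_eq_self, adjugate_apply]
  ring

end DetAux

theorem tDet : S_Det := by
  intro m n _ _ _ _ A D i j k l w w' hA _
  have hu : IsUnit A.det := isUnit_iff_ne_zero.2 hA
  have : Invertible A := Matrix.invertibleOfIsUnitDet A hu
  rw [Matrix.det_fromBlocks₁₁, Matrix.invOf_eq_nonsing_inv, Matrix.single_mul_mul_single,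
    DetAux.det_sub_single, mul_sub]
  have h2 : A.det * A⁻¹ l i = A.adjugate l i := by
    rw [Matrix.inv_def, Matrix.smul_apply, smul_eq_mul, Ring.inverse_eq_inv', ← mul_assoc,
      mul_inv_cancel₀ hA, one_mul]
  rw [← h2]
  ring

end Pool.Agent.HMA
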