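import Pool.Agent.HMA.Spec

/-! HMA, module `Fin`: the main theorem from the modules. -/

namespace Pool.Agent.HMA

open Polynomial Matrix

namespace FinAux

theorem map_wNE {R S : Type*} [CommRing R] [CommRing S] (f : R →+* S) (t : R) (o : Bool) :
    f (wNE t o) = wNE (f t) o := by
  unfold wNE
  split <;> simp

theorem map_wSW {R S : Type*} [CommRing R] [CommRing S] (f : R →+* S) (t : R) (o : Bool) :
    f (wSW t o) = wSW (f t) o := by
  unfold wSW
  split <;> simp

theorem map_single {R S : Type*} [CommRing R] [CommRing S] (f : R →+* S) {m n : Type*}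
    [DecidableEq m] [DecidableEq n] (i : m) (j : n) (a : R) :
    (single i j a).map f = single i j (f a) := by
  ext k l
  simp only [Matrix.map_apply, Matrix.single_apply]
  split <;> simp

theorem map_fox {R S : Type*} [CommRing R] [CommRing S] (f : R →+* S) (t : R) (T : Tangle) :
    (fox t T).map f = fox (f t) T := by
  induction T with
  | cr o u =>
    ext i j
    rw [Matrix.map_apply]
    simp only [fox, map_sub, map_one]
  | hor S T ihS ihT =>
    refine (fromBlocks_map (fox t S) (single S.ne T.nw (wNE t (S.ovr S.ne)))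
      (single T.sw S.se (wSW t (T.ovr T.sw))) (fox t T) f).trans ?_
    rw [ihS, ihT, map_single, map_single, map_wNE, map_wSW]
    rfl
  | ver S T ihS ihT =>
    refine (fromBlocks_map (fox t S) (single S.sw T.nw (wSW t (S.ovr S.sw)))
      (single T.ne S.se (wNE t (T.ovr T.ne))) (fox t T) f).trans ?_
    rw [ihS, ihT, map_single, map_single, map_wNE, map_wSW]
    rfl

theorem map_add' {R S : Type*} [CommRing R] [CommRing S] (f : R →+* S) {m n : Type*}
    (A B : Matrix m n R) : (A + B).map f = A.map f + B.map f := by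
  ext i j
  simp

theorem map_foxC {R S : Type*} [CommRing R] [CommRing S] (f : R →+* S) (t : R) (T : Tangle)
    (c : Bool) : (foxC t T c).map f = foxC (f t) T c := by
  unfold foxC
  split
  · rw [map_add', map_add', map_fox, map_single, map_single, map_wNE, map_wSW]
  · rw [map_add', map_add', map_fox, map_single, map_single, map_wNE, map_wSW]

theorem map_adj (T : Tangle) (c : Bool) (i j : T.Cr) (y : ℝ) :
    aeval y ((foxC (X : ℤ[X]) T c).adjugate i j) = (foxC y T c).adjugate i j := by
  have h := RingHom.map_adjugate ((aeval y : ℤ[X] →ₐ[ℤ] ℝ) : ℤ[X] →+* ℝ) (foxC (X : ℤ[X]) T c)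
  have h2 := congrFun (congrFun h i) j
  rw [RingHom.mapMatrix_apply, RingHom.mapMatrix_apply, map_foxC] at h2
  simpa using h2

theorem full_symm {p q : ℕ} {F : ℤ[X]} (h : Full p q F) : Full q p F := by
  obtain ⟨G, hG, rfl⟩ := h
  refine ⟨G, ?_, by ring⟩
  rwa [add_comm]

/-- From the value of one minor to the pattern. -/
theorem key (hRead : S_Read) (hAdj : S_Adj) (T : Tangle) (c : Bool) (hO : T.Oriented)
    (hc : Closes T c) (i j i' : T.Cr) (p q : ℕ) (F : ℤ[X]) (K : ℤ) (hF : Full p q F)
    (h : ∀ ξ : ℝ, 0 < ξ → (foxC (-(ξ ^ 2)) T c).adjugate i' T.ne *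
      -(wNE (-(ξ ^ 2)) (T.ovr T.ne)) = ξ ^ K * ev ξ F) :
    Pattern ((foxC (X : ℤ[X]) T c).adjugate i j) ((p : ℤ) - q) := by
  obtain ⟨z, hz⟩ := hAdj T c hO hc
  refine hRead p q F _ (2 * z j + (K - (if T.ovr T.ne then 2 else 0))) hF fun ξ hξ => ?_
  have hne : ξ ≠ 0 := hξ.ne'
  rw [map_adj, hz (ξ ^ 2) (by positivity) i j i']
  have h1 := h ξ hξ
  have h2 : (foxC (-(ξ ^ 2)) T c).adjugate i' T.ne =
      ξ ^ (K - (if T.ovr T.ne then 2 else 0)) * ev ξ F := by
    unfold wNE at h1
    split at h1
    · rename_i ho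
      rw [if_pos ho, zpow_sub₀ hne]
      rw [neg_neg] at h1
      have : (ξ : ℝ) ^ (2 : ℤ) = ξ ^ 2 := by norm_cast
      rw [this]
      field_simp
      linarith
    · rename_i ho
      rw [if_neg ho, sub_zero]
      rw [neg_neg, mul_one] at h1
      exact h1
  rw [h2, zpow_add₀ hne, _root_.zpow_mul]
  have : (ξ : ℝ) ^ (2 : ℤ) = ξ ^ 2 := by norm_cast
  rw [this]
  ring

theorem kap_zpow (d : Bool) (ξ : ℝ) : kap d ξ = ξ ^ (if d then (1 : ℤ) else -1) := by
  unfold kap
  split <;> simp

end FinAux

open FinAux in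
theorem tFin : S_Ind → S_Adj → S_Clo → S_Read → S_Cone2 → S_Fin := by
  intro hInd hAdj hClo hRead hCone T c hO hc i j
  rcases hInd T hO with h | h | h
  · obtain ⟨d, x, p, q, K, e1, e2, e3, e4, hx, hs, hr⟩ := h
    cases c with
    | true =>
      have hF := full_symm (hCone.2.1 q p x hx)
      have : sig T true = (p : ℤ) - q := by
        unfold sig
        rw [if_pos rfl]
        linarith
      rw [this]
      refine key hRead hAdj T true hO hc i j T.se p q x.1 (K + (if d then 1 else -1)) hF
        fun ξ hξ => ?_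
      rw [(hClo T ξ _ _ _ (hr ξ hξ)).1, zpow_add₀ hξ.ne', kap_zpow]
      ring
    | false =>
      exfalso
      unfold Closes at hc
      rw [if_neg Bool.false_ne_true, e1, e3] at hc
      revert hc
      cases d <;> simp
  · obtain ⟨d, x, p, q, K, e1, e2, e3, e4, hx, hs, hr⟩ := h
    cases c with
    | true =>
      exfalso
      unfold Closes at hc
      rw [if_pos rfl, e1, e2] at hc
      revert hc
      cases d <;> simp
    | false =>
      have hF := hCone.2.1 p q x hx
      have : sig T false = (p : ℤ) - q := by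
        unfold sig
        rw [if_neg Bool.false_ne_true]
        linarith
      rw [this]
      refine key hRead hAdj T false hO hc i j T.nw p q x.1 (K + (if d then 1 else -1)) hF
        fun ξ hξ => ?_
      rw [(hClo T ξ _ _ _ (hr ξ hξ)).2, zpow_add₀ hξ.ne', kap_zpow]
      ring
  · obtain ⟨o, n, d, p, q, p', q', K, e1, e2, e3, e4, hn, hd, hk, hs, hr⟩ := h
    cases c with
    | true =>
      have : sig T true = (p : ℤ) - q := by
        unfold sig
        rw [if_pos rfl]
        rcases hk with ⟨h1, h2⟩ | ⟨h1, h2⟩ <;> subst h1 <;> subst h2 <;> push_cast at * <;> linarith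
      rw [this]
      refine key hRead hAdj T true hO hc i j T.se p q n K hn fun ξ hξ => ?_
      rw [(hClo T ξ _ _ _ (hr ξ hξ)).1]
    | false =>
      have : sig T false = (p' : ℤ) - q' := by
        unfold sig
        rw [if_neg Bool.false_ne_true]
        linarith
      rw [this]
      refine key hRead hAdj T false hO hc i j T.nw p' q' d (K + (if o then 1 else -1)) hd
        fun ξ hξ => ?_
      rw [(hClo T ξ _ _ _ (hr ξ hξ)).2, zpow_add₀ hξ.ne', kap_zpow]
      ring

end Pool.Agent.HMA
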