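import Pool.Agent.HMA.Spec

/-! # Full polynomials are closed under products -/

set_option autoImplicit false

namespace Pool.Agent.HMA

open Polynomial

theorem tFullM : S_Cheb → S_FullM := by
  rintro ⟨h1, h2, -⟩
  have hS : ∀ k, SS k ∈ Uni k := fun k => AddSubmonoid.subset_closure ⟨k, 0, by omega, rfl⟩
  have hSS : ∀ a b, SS a * SS b ∈ Uni (a + b) := fun a b => h2 a b _ _ (hS a) (hS b)
  have hF : ∀ p q F, Full p q F → F ∈ Uni (p + q) := by
    rintro p q F ⟨G, hG, rfl⟩
    exact add_mem (hSS p q) hG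
  refine ⟨⟨0, zero_mem _, ?_⟩, hF, ?_, ?_⟩
  · rw [SS]
    ring
  · rintro p q F G ⟨H, hH, rfl⟩ hG
    exact ⟨H + G, add_mem hH hG, by ring⟩
  · rintro p q p' q' F G ⟨U, hU, rfl⟩ ⟨U', hU', rfl⟩
    obtain ⟨A, hA, hA'⟩ := h1 p p'
    obtain ⟨B, hB, hB'⟩ := h1 q q'
    refine ⟨SS (p + p') * B + A * SS (q + q') + A * B + (SS p * SS q) * U' +
      U * (SS p' * SS q') + U * U', ?_, ?_⟩
    · have e : p + q + (p' + q') = p + p' + (q + q') := by omega
      have g1 := h2 _ _ _ _ (hSS p q) hU'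
      have g2 := h2 _ _ _ _ hU (hSS p' q')
      have g3 := h2 _ _ _ _ hU hU'
      rw [e] at g1 g2 g3
      exact add_mem (add_mem (add_mem (add_mem (add_mem (h2 _ _ _ _ (hS _) hB)
        (h2 _ _ _ _ hA (hS _))) (h2 _ _ _ _ hA hB)) g1) g2) g3
    · have h3 : SS p * SS q * (SS p' * SS q') = (SS p * SS p') * (SS q * SS q') := by ring
      have h4 : (SS p * SS q + U) * (SS p' * SS q' + U') =
          (SS p * SS p') * (SS q * SS q') + (SS p * SS q) * U' + U * (SS p' * SS q') + U * U' := by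
        ring
      rw [h4, hA', hB']
      ring

end Pool.Agent.HMA
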