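import Pool.Agent.HMA.Defs

/-!
# HMA, Goe: the signature by the theorem of Gordon and Litherland

The regions of the diagram are coloured like a chessboard; the regions N and S of a tangle have the
same colour. At every crossing the region above it and the region below it have this colour. The
Goeritz matrix of the other coloured surface is the matrix `Bᵀ B`, `B` the incidence matrix of the
graph whose vertices are the regions of the colour of N, S and whose edges are the crossings.
-/

namespace Pool.Agent.HMA

open Matrix

/-- The regions inside the tangle of the colour of N and S. -/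
def Fc : Tangle → Type
  | .cr _ _ => Empty
  | .hor S T => Fc S ⊕ Fc T
  | .ver S T => Option (Fc S ⊕ Fc T)

instance instFintypeFc : (T : Tangle) → Fintype (Fc T)
  | .cr _ _ => inferInstanceAs (Fintype Empty)
  | .hor S T =>
      letI := instFintypeFc S
      letI := instFintypeFc T
      inferInstanceAs (Fintype (Fc S ⊕ Fc T))
  | .ver S T =>
      letI := instFintypeFc S
      letI := instFintypeFc T
      inferInstanceAs (Fintype (Option (Fc S ⊕ Fc T)))

instance instDecidableEqFc : (T : Tangle) → DecidableEq (Fc T)
  | .cr _ _ => inferInstanceAs (DecidableEq Empty)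
  | .hor S T =>
      letI := instDecidableEqFc S
      letI := instDecidableEqFc T
      inferInstanceAs (DecidableEq (Fc S ⊕ Fc T))
  | .ver S T =>
      letI := instDecidableEqFc S
      letI := instDecidableEqFc T
      inferInstanceAs (DecidableEq (Option (Fc S ⊕ Fc T)))

/-- All regions of this colour: `inr true` is N, `inr false` is S. -/
abbrev Reg (T : Tangle) : Type := Fc T ⊕ Bool

/-- The regions of the left (upper) and of the right (lower) tangle as regions of the sum. In `ver S T`
the region S of `S` is the region N of `T`, it is `none`. -/
def horL (S T : Tangle) : Reg S → Reg (.hor S T)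
  | Sum.inl f => Sum.inl (Sum.inl f)
  | Sum.inr b => Sum.inr b

def horR (S T : Tangle) : Reg T → Reg (.hor S T)
  | Sum.inl f => Sum.inl (Sum.inr f)
  | Sum.inr b => Sum.inr b

def verU (S T : Tangle) : Reg S → Reg (.ver S T)
  | Sum.inl f => Sum.inl (some (Sum.inl f))
  | Sum.inr true => Sum.inr true
  | Sum.inr false => Sum.inl none

def verD (S T : Tangle) : Reg T → Reg (.ver S T)
  | Sum.inl f => Sum.inl (some (Sum.inr f))
  | Sum.inr true => Sum.inl none
  | Sum.inr false => Sum.inr false

/-- The region above a crossing. -/
def above : (T : Tangle) → T.Cr → Reg T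
  | .cr _ _ => fun _ => Sum.inr true
  | .hor S T => Sum.elim (fun c => horL S T (above S c)) (fun c => horR S T (above T c))
  | .ver S T => Sum.elim (fun c => verU S T (above S c)) (fun c => verD S T (above T c))

/-- The region below a crossing. -/
def below : (T : Tangle) → T.Cr → Reg T
  | .cr _ _ => fun _ => Sum.inr false
  | .hor S T => Sum.elim (fun c => horL S T (below S c)) (fun c => horR S T (below T c))
  | .ver S T => Sum.elim (fun c => verU S T (below S c)) (fun c => verD S T (below T c))

/-- In the denominator the regions N and S are the same region. -/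
def glue (T : Tangle) : Reg T → Fc T ⊕ Unit
  | Sum.inl f => Sum.inl f
  | Sum.inr _ => Sum.inr ()

section Lap

variable {C V : Type} [Fintype C] [Fintype V] [DecidableEq V]

/-- The incidence matrix of the graph with the edges `f c - g c`. -/
def inc (f g : C → V) : Matrix C V ℝ := fun c v =>
  (if f c = v then 1 else 0) - (if g c = v then 1 else 0)

/-- The Goeritz matrix (the Laplace matrix of the graph). -/
def goeritz (f g : C → V) : Matrix V V ℝ := (inc f g)ᵀ * inc f g

omit [Fintype V] in
theorem goeritz_herm (f g : C → V) : (goeritz f g).IsHermitian := by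
  have h : goeritz f g = (inc f g)ᴴ * inc f g := by
    rw [goeritz, Matrix.conjTranspose_eq_transpose_of_trivial]
  rw [h]
  exact Matrix.isHermitian_conjTranspose_mul_self _

/-- The signature of a symmetric real matrix. -/
noncomputable def sgn (M : Matrix V V ℝ) (h : M.IsHermitian) : ℤ :=
  ((Finset.univ.filter fun i => 0 < h.eigenvalues i).card : ℤ) -
    (Finset.univ.filter fun i => h.eigenvalues i < 0).card

omit [Fintype C] in
theorem inc_mulVec (f g : C → V) (x : V → ℝ) (c : C) :
    (inc f g).mulVec x c = x (f c) - x (g c) := by
  simp only [Matrix.mulVec, dotProduct, inc, sub_mul, Finset.sum_sub_distrib, ite_mul, one_mul,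
    zero_mul, Finset.sum_ite_eq, Finset.mem_univ, if_true]

theorem sgn_goeritz (f g : C → V) (v₀ : V)
    (hconn : ∀ x : V → ℝ, (∀ c, x (f c) = x (g c)) → ∀ v, x v = x v₀) :
    sgn (goeritz f g) (goeritz_herm f g) = (Fintype.card V : ℤ) - 1 := by
  have h : goeritz f g = (inc f g)ᴴ * inc f g := by
    rw [goeritz, Matrix.conjTranspose_eq_transpose_of_trivial]
  have hpsd : (goeritz f g).PosSemidef := by
    rw [h]
    exact Matrix.posSemidef_conjTranspose_mul_self _
  have hnn := hpsd.eigenvalues_nonneg
  have hrank : (goeritz f g).rank = Fintype.card V - 1 := by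
    rw [h, Matrix.rank_conjTranspose_mul_self]
    have h1 := LinearMap.finrank_range_add_finrank_ker (inc f g).mulVecLin
    have h2 : Module.finrank ℝ (LinearMap.ker (inc f g).mulVecLin) = 1 := by
      have hk : (fun _ => (1 : ℝ)) ∈ LinearMap.ker (inc f g).mulVecLin := by
        rw [LinearMap.mem_ker]
        ext c
        rw [Matrix.mulVecLin_apply, inc_mulVec]
        simp
      rw [finrank_eq_one_iff_of_nonzero' (⟨fun _ => (1 : ℝ), hk⟩ :
        LinearMap.ker (inc f g).mulVecLin)]
      · rintro ⟨x, hx⟩
        refine ⟨x v₀, ?_⟩
        rw [LinearMap.mem_ker] at hx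
        have hx' : ∀ c, x (f c) = x (g c) := by
          intro c
          have := congrFun hx c
          rw [Matrix.mulVecLin_apply, inc_mulVec] at this
          simpa [sub_eq_zero] using this
        apply Subtype.ext
        funext v
        simp [hconn x hx' v]
      · intro h0
        have := congrFun (congrArg Subtype.val h0) v₀
        simp at this
    rw [h2] at h1
    unfold Matrix.rank
    rw [Module.finrank_fintype_fun_eq_card] at h1
    omega
  have hcard := (goeritz_herm f g).rank_eq_card_non_zero_eigs
  have hpos : 0 < Fintype.card V := Fintype.card_pos_iff.mpr ⟨v₀⟩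
  have hneg : (Finset.univ.filter fun i => (goeritz_herm f g).eigenvalues i < 0) = ∅ := by
    apply Finset.filter_eq_empty_iff.mpr
    intro i _
    exact not_lt.mpr (hnn i)
  have hpp : (Finset.univ.filter fun i => 0 < (goeritz_herm f g).eigenvalues i).card =
      Fintype.card V - 1 := by
    rw [← hrank, hcard, Fintype.card_subtype]
    congr 1
    ext i
    simp only [Finset.mem_filter, Finset.mem_univ, true_and]
    constructor
    · exact fun h => h.ne'
    · exact fun h => lt_of_le_of_ne (hnn i) (Ne.symm h)
  unfold sgn
  rw [hneg, hpp]
  simp
  omega

end Lap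

/-- The signature of the Goeritz matrix of the closed diagram. -/
noncomputable def sgnC (T : Tangle) (c : Bool) : ℤ :=
  if c then sgn (goeritz (above T) (below T)) (goeritz_herm _ _)
  else sgn (goeritz (fun i => glue T (above T i)) (fun i => glue T (below T i))) (goeritz_herm _ _)

/-- The signature of the link by the theorem of Gordon and Litherland: the signature of the Goeritz
matrix minus the number of positive crossings (the crossings at which the surface is not oriented by the
orientation of the link). -/
noncomputable def sigGL (T : Tangle) (c : Bool) : ℤ := sgnC T c - positive T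

namespace GoeAux

theorem card_Fc (T : Tangle) : Fintype.card (Fc T) = faces T := by
  induction T with
  | cr o u => rfl
  | hor S T ihS ihT =>
    have : Fintype.card (Fc (.hor S T)) = Fintype.card (Fc S ⊕ Fc T) := rfl
    rw [this, Fintype.card_sum, ihS, ihT]
    rfl
  | ver S T ihS ihT =>
    have : Fintype.card (Fc (.ver S T)) = Fintype.card (Option (Fc S ⊕ Fc T)) := rfl
    rw [this, Fintype.card_option, Fintype.card_sum, ihS, ihT]
    rfl

theorem conn (T : Tangle) : ∀ x : Reg T → ℝ, (∀ c, x (above T c) = x (below T c)) →
    ∀ v, x v = x (Sum.inr true) := by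
  induction T with
  | cr o u =>
    intro x hx v
    have h := hx ()
    rcases v with v | b
    · exact v.elim
    · cases b
      · exact h.symm
      · rfl
  | hor S T ihS ihT =>
    intro x hx v
    have hS := ihS (fun r => x (horL S T r)) (fun c => hx (Sum.inl c))
    have hT := ihT (fun r => x (horR S T r)) (fun c => hx (Sum.inr c))
    rcases v with v | b
    · rcases v with v | v
      · exact hS (Sum.inl v)
      · exact hT (Sum.inl v)
    · exact hS (Sum.inr b)
  | ver S T ihS ihT =>
    intro x hx v
    have hS := ihS (fun r => x (verU S T r)) (fun c => hx (Sum.inl c))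
    have hT := ihT (fun r => x (verD S T r)) (fun c => hx (Sum.inr c))
    have hm : x (Sum.inl none) = x (Sum.inr true) := hS (Sum.inr false)
    rcases v with v | b
    · rcases v with _ | v
      · exact hm
      · rcases v with v | v
        · exact hS (Sum.inl v)
        · exact (hT (Sum.inl v)).trans hm
    · cases b
      · exact (hT (Sum.inr false)).trans hm
      · rfl

end GoeAux

/-- The signature by Gordon and Litherland is Traczyk's formula. -/
theorem sigGL_eq (T : Tangle) (c : Bool) : sigGL T c = sig T c := by
  cases c with
  | true =>
    have h := sgn_goeritz (above T) (below T) (Sum.inr true) (GoeAux.conn T)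
    rw [sigGL, sgnC, if_pos rfl, h, sig, if_pos rfl]
    have : Fintype.card (Reg T) = faces T + 2 := by
      rw [Fintype.card_sum, GoeAux.card_Fc]
      rfl
    rw [this]
    push_cast
    ring
  | false =>
    have h := sgn_goeritz (fun i => glue T (above T i)) (fun i => glue T (below T i)) (Sum.inr ())
      (by
        intro x hx v
        have h1 := GoeAux.conn T (fun r => x (glue T r)) hx
        rcases v with v | v
        · exact h1 (Sum.inl v)
        · cases v
          rfl)
    rw [sigGL, sgnC, if_neg Bool.false_ne_true, h, sig, if_neg Bool.false_ne_true]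
    have : Fintype.card (Fc T ⊕ Unit) = faces T + 1 := by
      rw [Fintype.card_sum, GoeAux.card_Fc]
      rfl
    rw [this]
    push_cast
    ring

end Pool.Agent.HMA
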