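import Pool.Agent.HMA.Spec

/-!
# HMA, Hor: the horizontal sum of two tangles, solution and determinant
-/

namespace Pool.Agent.HMA

open Polynomial Matrix

namespace HorAux

variable {m n : Type} [Fintype m] [DecidableEq m] [Fintype n] [DecidableEq n]

omit [Fintype m] in
/-- A single entry times a vector. -/
theorem single_mulVec' (i : m) (j : n) (w : ℝ) (v : n → ℝ) :
    (single i j w : Matrix m n ℝ).mulVec v = Pi.single i (w * v j) := by
  rw [Matrix.single_mulVec]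
  rfl

/-- Entry of the adjugate from a solution. -/
theorem adj_of_sol (A : Matrix m m ℝ) (v : m → ℝ) (i l : m) (w : ℝ)
    (h : A.mulVec v = Pi.single i w) : A.adjugate l i * w = A.det * v l := by
  have h1 : A.adjugate.mulVec (A.mulVec v) = A.det • v := by
    rw [Matrix.mulVec_mulVec, Matrix.adjugate_mul, Matrix.smul_mulVec, Matrix.one_mulVec]
  rw [h, Matrix.mulVec_single] at h1
  have h2 := congrFun h1 l
  simpa [Matrix.col, mul_comm] using h2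

/-- The linear algebra of the horizontal sum. -/
theorem hor_aux (h2 : S_Det) (A : Matrix m m ℝ) (D : Matrix n n ℝ) (ne nwS seS : m)
    (nw sw neT seT : n) (w w' z m₁ a₁ b₁ m₂ a₂ b₂ : ℝ) (v₁ : m → ℝ) (v₂ : n → ℝ)
    (hA : A.det = m₁) (hm₁ : 0 < m₁) (hv₁ : A.mulVec v₁ = Pi.single ne (-w))
    (ha₁ : m₁ * v₁ nwS = a₁) (hb₁ : m₁ * v₁ seS = b₁)
    (hD : D.det = m₂) (hm₂ : 0 < m₂) (hv₂ : D.mulVec v₂ = Pi.single neT (-z))
    (ha₂ : m₂ * v₂ nw = a₂) (hb₂ : m₂ * v₂ seT = b₂)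
    (h1D : D.mulVec (fun _ => 1) = Pi.single neT (-z) + Pi.single sw (-w'))
    (hpos : 0 < m₁ * m₂ - b₁ * (m₂ - a₂)) :
    (fromBlocks A (single ne nw w) (single sw seS w') D).det = m₁ * m₂ - b₁ * (m₂ - a₂) ∧
    0 < m₁ * m₂ - b₁ * (m₂ - a₂) ∧ ∃ h : m ⊕ n → ℝ,
      (fromBlocks A (single ne nw w) (single sw seS w') D).mulVec h =
        Pi.single (Sum.inr neT) (-z) ∧
      (m₁ * m₂ - b₁ * (m₂ - a₂)) * h (Sum.inl nwS) = a₁ * a₂ ∧
      (m₁ * m₂ - b₁ * (m₂ - a₂)) * h (Sum.inr seT) = m₁ * b₂ + b₁ * a₂ - b₁ * b₂ := by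
  set M := m₁ * m₂ - b₁ * (m₂ - a₂) with hM
  have hv₃ : D.mulVec (fun x => 1 - v₂ x) = Pi.single sw (-w') := by
    have e : (fun x => 1 - v₂ x) = (fun _ => 1) - v₂ := rfl
    rw [e, Matrix.mulVec_sub, h1D, hv₂]
    abel
  refine ⟨?_, hpos, Sum.elim (fun x => m₁ * a₂ / M * v₁ x)
    (fun x => v₂ x + b₁ * a₂ / M * (1 - v₂ x)), ?_, ?_, ?_⟩
  · have e1 := adj_of_sol A v₁ ne seS (-w) hv₁
    have e2 := adj_of_sol D _ sw nw (-w') hv₃
    rw [hA, hb₁] at e1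
    rw [hD] at e2
    have e3 : m₂ * (1 - v₂ nw) = m₂ - a₂ := by rw [← ha₂]; ring
    rw [e3] at e2
    rw [h2 m n A D ne nw sw seS w w' (by rw [hA]; exact hm₁.ne') (by rw [hD]; exact hm₂.ne'),
      hA, hD, hM, ← e1, ← e2]
    ring
  · have e1 : A.mulVec (fun x => m₁ * a₂ / M * v₁ x) = Pi.single ne (-(m₁ * a₂ / M * w)) := by
      have e : (fun x => m₁ * a₂ / M * v₁ x) = (m₁ * a₂ / M) • v₁ := rfl
      rw [e, Matrix.mulVec_smul, hv₁, ← Pi.single_smul, smul_eq_mul]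
      congr 1
      ring
    have e2 : D.mulVec (fun x => v₂ x + b₁ * a₂ / M * (1 - v₂ x)) =
        Pi.single neT (-z) + Pi.single sw (-(b₁ * a₂ / M * w')) := by
      have e : (fun x => v₂ x + b₁ * a₂ / M * (1 - v₂ x)) =
        v₂ + (b₁ * a₂ / M) • (fun x => 1 - v₂ x) := rfl
      rw [e, Matrix.mulVec_add, Matrix.mulVec_smul, hv₃, hv₂, ← Pi.single_smul, smul_eq_mul]
      congr 2
      ring
    have e3 : v₂ nw + b₁ * a₂ / M * (1 - v₂ nw) = m₁ * a₂ / M := by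
      have e4 : v₂ nw = a₂ / m₂ := by rw [← ha₂]; field_simp
      rw [e4]
      field_simp
      rw [hM]
      ring
    have e5 : m₁ * a₂ / M * v₁ seS = b₁ * a₂ / M := by
      rw [← hb₁]
      ring
    rw [Matrix.fromBlocks_mulVec]
    have i1 : (Sum.elim (fun x => m₁ * a₂ / M * v₁ x)
      (fun x => v₂ x + b₁ * a₂ / M * (1 - v₂ x)) : m ⊕ n → ℝ) ∘ Sum.inl =
        fun x => m₁ * a₂ / M * v₁ x := rfl
    have i2 : (Sum.elim (fun x => m₁ * a₂ / M * v₁ x)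
      (fun x => v₂ x + b₁ * a₂ / M * (1 - v₂ x)) : m ⊕ n → ℝ) ∘ Sum.inr =
        fun x => v₂ x + b₁ * a₂ / M * (1 - v₂ x) := rfl
    rw [i1, i2, e1, e2, single_mulVec', single_mulVec', e3, e5]
    funext x
    rcases x with x | x
    · have e7 : (Pi.single (Sum.inr neT) (-z) : m ⊕ n → ℝ) (Sum.inl x) = 0 :=
        Pi.single_eq_of_ne (by simp) _
      rw [Sum.elim_inl, Pi.add_apply, e7]
      by_cases hx : x = ne
      · subst hx
        rw [Pi.single_eq_same, Pi.single_eq_same]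
        ring
      · rw [Pi.single_eq_of_ne hx, Pi.single_eq_of_ne hx, add_zero]
    · rw [Sum.elim_inr, Pi.add_apply, Pi.add_apply]
      have e6 : (Pi.single (Sum.inr neT) (-z) : m ⊕ n → ℝ) (Sum.inr x) =
          (Pi.single neT (-z) : n → ℝ) x := by
        by_cases hx : x = neT
        · subst hx
          rw [Pi.single_eq_same, Pi.single_eq_same]
        · rw [Pi.single_eq_of_ne hx, Pi.single_eq_of_ne (by simpa using hx)]
      rw [e6]
      by_cases hx : x = sw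
      · subst hx
        rw [Pi.single_eq_same, Pi.single_eq_same]
        ring
      · rw [Pi.single_eq_of_ne (i := sw) hx, Pi.single_eq_of_ne (i := sw) hx]
        ring
  · rw [Sum.elim_inl]
    field_simp
    rw [← ha₁]
    ring
  · rw [Sum.elim_inr, mul_add]
    have e1 : M * (b₁ * a₂ / M * (1 - v₂ seT)) = b₁ * a₂ * (1 - v₂ seT) := by
      field_simp
    rw [e1, hM, ← hb₂]
    ring

end HorAux

/-- The horizontal sum. -/
theorem tHor : S_Row1 → S_Det → S_Hor := by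
  rintro h1 h2 S T ξ m₁ a₁ b₁ m₂ a₂ b₂ ⟨hA, hm₁, v₁, hv₁, ha₁, hb₁⟩
    ⟨hD, hm₂, v₂, hv₂, ha₂, hb₂⟩ hpos
  exact HorAux.hor_aux h2 (fox (-(ξ ^ 2)) S) (fox (-(ξ ^ 2)) T) S.ne S.nw S.se T.nw T.sw T.ne T.se
    (wNE (-(ξ ^ 2)) (S.ovr S.ne)) (wSW (-(ξ ^ 2)) (T.ovr T.sw)) (wNE (-(ξ ^ 2)) (T.ovr T.ne))
    m₁ a₁ b₁ m₂ a₂ b₂ v₁ v₂ hA hm₁ hv₁ ha₁ hb₁ hD hm₂ hv₂ ha₂ hb₂ (h1 ℝ (-(ξ ^ 2)) T) hpos

end Pool.Agent.HMA
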