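import Pool.Agent.HMA.Spec

/-! HMA, module `Ind`. -/

namespace Pool.Agent.HMA

open Polynomial Matrix

theorem tInd : S_IndP → S_IndC → S_IndCC → S_IndCP → S_Ind := by
  intro hP hC hCC hCP T
  induction T with
  | cr o u =>
    intro _
    rcases hP.1 o u with h | h
    · exact Or.inl h
    · exact Or.inr (Or.inl h)
  | hor S T ihS ihT =>
    intro hO
    have hO' := hO
    obtain ⟨hS, hT, h1, h2⟩ := hO'
    rcases ihS hS with hs | hs | hs <;> rcases ihT hT with ht | ht | ht
    · exact Or.inl (hP.2.1 S T hO hs ht)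
    · exfalso
      obtain ⟨d, _, _, _, _, e1, e2, e3, e4, _⟩ := hs
      obtain ⟨d', _, _, _, _, f1, f2, f3, f4, _⟩ := ht
      rw [e2, f1] at h1
      rw [e4, f3] at h2
      revert h1 h2
      cases d <;> cases d' <;> decide
    · exfalso
      obtain ⟨d, _, _, _, _, e1, e2, e3, e4, _⟩ := hs
      obtain ⟨d', _, _, _, _, _, _, _, f1, f2, f3, f4, _⟩ := ht
      rw [e2, f1] at h1
      rw [e4, f3] at h2
      revert h1 h2
      cases d <;> cases d' <;> decide
    · exfalso
      obtain ⟨d, _, _, _, _, e1, e2, e3, e4, _⟩ := hs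
      obtain ⟨d', _, _, _, _, f1, f2, f3, f4, _⟩ := ht
      rw [e2, f1] at h1
      rw [e4, f3] at h2
      revert h1 h2
      cases d <;> cases d' <;> decide
    · exact Or.inr (Or.inr (hC.1 S T hO hs ht))
    · exact Or.inr (Or.inl (hCP.2.1 S T hO hs ht))
    · exfalso
      obtain ⟨d, _, _, _, _, _, _, _, e1, e2, e3, e4, _⟩ := hs
      obtain ⟨d', _, _, _, _, f1, f2, f3, f4, _⟩ := ht
      rw [e2, f1] at h1
      rw [e4, f3] at h2
      revert h1 h2
      cases d <;> cases d' <;> decide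
    · exact Or.inr (Or.inl (hCP.1 S T hO hs ht))
    · exact Or.inr (Or.inr (hCC.1 S T hO hs ht))
  | ver S T ihS ihT =>
    intro hO
    have hO' := hO
    obtain ⟨hS, hT, h1, h2⟩ := hO'
    rcases ihS hS with hs | hs | hs <;> rcases ihT hT with ht | ht | ht
    · exact Or.inr (Or.inr (hC.2 S T hO hs ht))
    · exfalso
      obtain ⟨d, _, _, _, _, e1, e2, e3, e4, _⟩ := hs
      obtain ⟨d', _, _, _, _, f1, f2, f3, f4, _⟩ := ht
      rw [e3, f1] at h1
      rw [e4, f2] at h2
      revert h1 h2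
      cases d <;> cases d' <;> decide
    · exact Or.inl (hCP.2.2.2 S T hO hs ht)
    · exfalso
      obtain ⟨d, _, _, _, _, e1, e2, e3, e4, _⟩ := hs
      obtain ⟨d', _, _, _, _, f1, f2, f3, f4, _⟩ := ht
      rw [e3, f1] at h1
      rw [e4, f2] at h2
      revert h1 h2
      cases d <;> cases d' <;> decide
    · exact Or.inr (Or.inl (hP.2.2 S T hO hs ht))
    · exfalso
      obtain ⟨d, _, _, _, _, e1, e2, e3, e4, _⟩ := hs
      obtain ⟨d', _, _, _, _, _, _, _, f1, f2, f3, f4, _⟩ := ht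
      rw [e3, f1] at h1
      rw [e4, f2] at h2
      revert h1 h2
      cases d <;> cases d' <;> decide
    · exact Or.inl (hCP.2.2.1 S T hO hs ht)
    · exfalso
      obtain ⟨d, _, _, _, _, _, _, _, e1, e2, e3, e4, _⟩ := hs
      obtain ⟨d', _, _, _, _, f1, f2, f3, f4, _⟩ := ht
      rw [e3, f1] at h1
      rw [e4, f2] at h2
      revert h1 h2
      cases d <;> cases d' <;> decide
    · exact Or.inr (Or.inr (hCC.2 S T hO hs ht))

end Pool.Agent.HMA
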