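import Pool.Agent.HMA.Spec

/-! # HMA, IndC: two parallel tangles which give the pattern c -/

set_option autoImplicit false

namespace Pool.Agent.HMA

open Polynomial Matrix

namespace IndCAux

theorem ev_add (ξ : ℝ) (F G : ℤ[X]) : ev ξ (F + G) = ev ξ F + ev ξ G := map_add (aeval _) F G

theorem ev_mul (ξ : ℝ) (F G : ℤ[X]) : ev ξ (F * G) = ev ξ F * ev ξ G := map_mul (aeval _) F G

theorem ev_X (ξ : ℝ) : ev ξ X = ξ + ξ⁻¹ := aeval_X _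

theorem kap_not (d : Bool) (ξ : ℝ) : kap (!d) ξ = ξ + ξ⁻¹ - kap d ξ := by
  unfold kap
  cases d <;> simp

theorem kap_mul (d : Bool) {ξ : ℝ} (hξ : 0 < ξ) : kap d ξ * (ξ + ξ⁻¹ - kap d ξ) = 1 := by
  unfold kap
  cases d
  · simp
    field_simp
  · simp
    field_simp

theorem kap_pos (d : Bool) {ξ : ℝ} (hξ : 0 < ξ) : 0 < kap d ξ := by
  unfold kap
  cases d
  · simpa using hξ
  · simpa using hξ

theorem kap_zpow (d : Bool) (ξ : ℝ) : kap d ξ = ξ ^ (if d then (1 : ℤ) else -1) := by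
  unfold kap
  cases d <;> simp

theorem full_symm {p q : ℕ} {F : ℤ[X]} (h : Full p q F) : Full q p F := by
  obtain ⟨G, hG, rfl⟩ := h
  exact ⟨G, by rw [add_comm]; exact hG, by rw [mul_comm]⟩

end IndCAux

open IndCAux

theorem tIndC : S_Hor → S_Ver → S_FullM → S_Cone2 → S_Pos → S_IndC := by
  intro hH hV hM hC hP
  refine ⟨?_, ?_⟩
  · rintro S T hO ⟨d₁, x₁, p₁, q₁, K₁, s1, s2, s3, s4, f1, e1, r1⟩
      ⟨d₂, x₂, p₂, q₂, K₂, t1, t2, t3, t4, f2, e2, r2⟩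
    have hd : d₂ = !d₁ := by
      have h := hO.2.2.1
      rw [s2, t1] at h
      exact h.symm
    subst hd
    have hf := hC.2.1 _ _ _ (hC.2.2.1 _ _ _ _ _ _ f1 f2)
    have hg := hM.2.2.2 _ _ _ _ _ _ (hC.2.1 _ _ _ f1) (hC.2.1 _ _ _ f2)
    refine ⟨d₁, (pm x₁ x₂).1, x₁.1 * x₂.1, p₁ + p₂ + 1, q₁ + q₂, p₁ + p₂, q₁ + q₂,
      K₁ + K₂ + (if (!d₁) then (1 : ℤ) else -1), s1, ?_, s3, t4, hf, hg, Or.inl ⟨rfl, rfl⟩, ?_, ?_⟩
    · refine t2.trans ?_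
      simp
    · have h3 : faces (Tangle.hor S T) = faces S + faces T := rfl
      have h4 : positive (Tangle.hor S T) = positive S + positive T := rfl
      rw [h3, h4]
      push_cast
      linarith
    · intro ξ hξ
      have hk := kap_mul d₁ hξ
      have hξ' : ξ ≠ 0 := hξ.ne'
      have hm1 := hP.2 _ _ _ hf ξ hξ
      have hm2 := hP.2 _ _ _ hg ξ hξ
      have hc : (0 : ℝ) < ξ ^ K₁ * ξ ^ K₂ := mul_pos (zpow_pos hξ _) (zpow_pos hξ _)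
      have hR := hH S T ξ _ _ _ _ _ _ (r1 ξ hξ) (r2 ξ hξ)
      have hc2 : ξ ^ (K₁ + K₂ + (if (!d₁) then (1 : ℤ) else -1)) =
          ξ ^ K₁ * ξ ^ K₂ * (ξ + ξ⁻¹ - kap d₁ ξ) := by
        rw [zpow_add₀ hξ', zpow_add₀ hξ', ← kap_zpow, kap_not]
      have h1 : ev ξ (pm x₁ x₂).1 = (ξ + ξ⁻¹) * (ev ξ x₁.1 * ev ξ x₂.1) + ev ξ x₁.1 * ev ξ x₂.2 +
          ev ξ x₂.1 * ev ξ x₁.2 := by
        simp only [pm, ev_add, ev_mul, ev_X]
      have h2 := ev_mul ξ x₁.1 x₂.1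
      have hk1 := kap_pos d₁ hξ
      have hk2 := kap_pos (!d₁) hξ
      rw [kap_not] at hR hk2
      rw [h1] at hm1
      rw [h2] at hm2
      rw [h1, h2, hc2]
      generalize ξ ^ K₁ = c₁ at *
      generalize ξ ^ K₂ = c₂ at *
      generalize ev ξ x₁.1 = A₁ at *
      generalize ev ξ x₁.2 = B₁ at *
      generalize ev ξ x₂.1 = A₂ at *
      generalize ev ξ x₂.2 = B₂ at *
      generalize ξ + ξ⁻¹ = u at *
      generalize kap d₁ ξ = κ at *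
      have g1 : c₁ * (u * A₁ + B₁) * (c₂ * (u * A₂ + B₂)) -
          c₁ * (κ * A₁ + B₁) * (c₂ * (u * A₂ + B₂) - c₂ * ((u - κ) * A₂)) =
          c₁ * c₂ * (u - κ) * (u * (A₁ * A₂) + A₁ * B₂ + A₂ * B₁ + κ * (A₁ * A₂)) := by
        ring
      have g2 : c₁ * (κ * A₁) * (c₂ * ((u - κ) * A₂)) =
          c₁ * c₂ * (u - κ) * (κ * (A₁ * A₂)) := by
        ring
      have g3 : c₁ * (u * A₁ + B₁) * (c₂ * ((u - κ) * A₂ + B₂)) +
          c₁ * (κ * A₁ + B₁) * (c₂ * ((u - κ) * A₂)) -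
          c₁ * (κ * A₁ + B₁) * (c₂ * ((u - κ) * A₂ + B₂)) =
          c₁ * c₂ * (u - κ) * (u * (A₁ * A₂) + A₁ * B₂ + A₂ * B₁) := by
        ring
      rw [g1, g2, g3] at hR
      exact hR (mul_pos (mul_pos hc hk2) (add_pos hm1 (mul_pos hk1 hm2)))
  · rintro S T hO ⟨d₁, x₁, p₁, q₁, K₁, s1, s2, s3, s4, f1, e1, r1⟩
      ⟨d₂, x₂, p₂, q₂, K₂, t1, t2, t3, t4, f2, e2, r2⟩
    have hd : d₂ = !d₁ := by
      have h := hO.2.2.1
      rw [s3, t1] at h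
      rw [h, Bool.not_not]
    subst hd
    have hf := full_symm (hC.2.1 _ _ _ (hC.2.2.1 _ _ _ _ _ _ f1 f2))
    have hg := full_symm (hM.2.2.2 _ _ _ _ _ _ (hC.2.1 _ _ _ f1) (hC.2.1 _ _ _ f2))
    refine ⟨d₁, x₁.1 * x₂.1, (pm x₁ x₂).1, p₁ + p₂, q₁ + q₂, p₁ + p₂, q₁ + q₂ + 1,
      K₁ + K₂, s1, s2, t3, t4, hg, hf, Or.inr ⟨rfl, rfl⟩, ?_, ?_⟩
    · have h3 : faces (Tangle.ver S T) = faces S + faces T + 1 := rfl
      have h4 : positive (Tangle.ver S T) = positive S + positive T := rfl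
      rw [h3, h4]
      push_cast
      linarith
    · intro ξ hξ
      have hk := kap_mul d₁ hξ
      have hξ' : ξ ≠ 0 := hξ.ne'
      have hm1 := hP.2 _ _ _ hf ξ hξ
      have hm2 := hP.2 _ _ _ hg ξ hξ
      have hc : (0 : ℝ) < ξ ^ K₁ * ξ ^ K₂ := mul_pos (zpow_pos hξ _) (zpow_pos hξ _)
      have hR := hV S T ξ _ _ _ _ _ _ (r1 ξ hξ) (r2 ξ hξ)
      have hc2 : ξ ^ (K₁ + K₂) = ξ ^ K₁ * ξ ^ K₂ := zpow_add₀ hξ' _ _
      have h1 : ev ξ (pm x₁ x₂).1 = (ξ + ξ⁻¹) * (ev ξ x₁.1 * ev ξ x₂.1) + ev ξ x₁.1 * ev ξ x₂.2 +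
          ev ξ x₂.1 * ev ξ x₁.2 := by
        simp only [pm, ev_add, ev_mul, ev_X]
      have h2 := ev_mul ξ x₁.1 x₂.1
      have hk1 := kap_pos d₁ hξ
      rw [kap_not] at hR
      rw [h1] at hm1
      rw [h2] at hm2
      rw [h1, h2, hc2]
      generalize ξ ^ K₁ = c₁ at *
      generalize ξ ^ K₂ = c₂ at *
      generalize ev ξ x₁.1 = A₁ at *
      generalize ev ξ x₁.2 = B₁ at *
      generalize ev ξ x₂.1 = A₂ at *
      generalize ev ξ x₂.2 = B₂ at *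
      generalize ξ + ξ⁻¹ = u at *
      generalize kap d₁ ξ = κ at *
      have g1 : c₁ * (u * A₁ + B₁) * (c₂ * (u * A₂ + B₂)) -
          (c₁ * (u * A₁ + B₁) - c₁ * (κ * A₁)) * (c₂ * ((u - κ) * A₂ + B₂)) =
          c₁ * c₂ * (A₁ * A₂ + κ * (u * (A₁ * A₂) + A₁ * B₂ + A₂ * B₁)) := by
        linear_combination (c₁ * c₂ * A₁ * A₂) * hk
      have g2 : c₁ * (κ * A₁ + B₁) * (c₂ * (u * A₂ + B₂)) -
          c₁ * (κ * A₁ + B₁) * (c₂ * ((u - κ) * A₂ + B₂)) +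
          c₁ * (κ * A₁) * (c₂ * ((u - κ) * A₂ + B₂)) =
          c₁ * c₂ * (κ * (u * (A₁ * A₂) + A₁ * B₂ + A₂ * B₁)) := by
        ring
      have g3 : c₁ * (κ * A₁) * (c₂ * ((u - κ) * A₂)) =
          c₁ * c₂ * (A₁ * A₂) := by
        linear_combination (c₁ * c₂ * A₁ * A₂) * hk
      rw [g1, g2, g3] at hR
      exact hR (mul_pos hc (add_pos hm2 (mul_pos hk1 hm1)))

end Pool.Agent.HMA
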