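import Pool.Agent.HMA.Spec

/-! # HMA, IndCC: two tangles of the pattern c -/

set_option autoImplicit false

namespace Pool.Agent.HMA

open Polynomial Matrix

namespace IndCCAux

theorem ev_add (ξ : ℝ) (F G : ℤ[X]) : ev ξ (F + G) = ev ξ F + ev ξ G := map_add (aeval _) F G

theorem ev_mul (ξ : ℝ) (F G : ℤ[X]) : ev ξ (F * G) = ev ξ F * ev ξ G := map_mul (aeval _) F G

theorem kap_pos (d : Bool) {ξ : ℝ} (hξ : 0 < ξ) : 0 < kap d ξ := by
  unfold kap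
  cases d
  · simpa using hξ
  · simpa using hξ

theorem kap_zpow (d : Bool) (ξ : ℝ) : kap d ξ = ξ ^ (if d then (1 : ℤ) else -1) := by
  unfold kap
  cases d <;> simp

/-- The sum of two full polynomials, the second of the same or of a smaller degree. -/
theorem full_add (hE : S_Cheb) (hM : S_FullM) {p q p' q' : ℕ} {F G : ℤ[X]} (hF : Full p q F)
    (hG : Full p' q' G) (i : ℕ) (h : p' + q' + 2 * i = p + q) : Full p q (F + G) := by
  refine hM.2.2.1 _ _ _ _ hF ?_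
  rw [← h]
  exact hE.2.2 _ i _ (hM.2.1 _ _ _ hG)

/-- The larger of two products. -/
theorem full_pq {p q : ℕ} {F : ℤ[X]} (p' q' : ℕ) (hF : Full p q F) (h1 : p = p') (h2 : q = q') :
    Full p' q' F := by
  rw [← h1, ← h2]
  exact hF

end IndCCAux

open IndCCAux

theorem tIndCC : S_Hor → S_Ver → S_Cheb → S_FullM → S_Pos → S_IndCC := by
  intro hH hV hE hM hP
  refine ⟨?_, ?_⟩
  · rintro S T hO ⟨o₁, n₁, d₁, p₁, q₁, p₁', q₁', K₁, s1, s2, s3, s4, f1, g1, c1, e1, r1⟩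
      ⟨o₂, n₂, d₂, p₂, q₂, p₂', q₂', K₂, t1, t2, t3, t4, f2, g2, c2, e2, r2⟩
    have hd : o₂ = o₁ := by
      have h := hO.2.2.1
      rw [s2, t1] at h
      exact h.symm
    subst hd
    have hdd := hM.2.2.2 _ _ _ _ _ _ g1 g2
    have h12 := hM.2.2.2 _ _ _ _ _ _ f1 g2
    have h21 := hM.2.2.2 _ _ _ _ _ _ f2 g1
    obtain ⟨p, q, hn, hpq⟩ : ∃ p q, Full p q (n₁ * d₂ + n₂ * d₁) ∧
        (p = p₁' + p₂' + 1 ∧ q = q₁' + q₂' ∨ p₁' + p₂' = p ∧ q₁' + q₂' = q + 1) := by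
      rcases c1 with ⟨a1, b1⟩ | ⟨a1, b1⟩
      · rcases c2 with ⟨a2, b2⟩ | ⟨a2, b2⟩
        · exact ⟨p₁' + p₂' + 1, q₁' + q₂',
            full_add hE hM (full_pq _ _ h12 (by omega) (by omega)) h21 0 (by omega),
            Or.inl ⟨rfl, rfl⟩⟩
        · exact ⟨p₁' + p₂' + 1, q₁' + q₂',
            full_add hE hM (full_pq _ _ h12 (by omega) (by omega)) h21 1 (by omega),
            Or.inl ⟨rfl, rfl⟩⟩
      · rcases c2 with ⟨a2, b2⟩ | ⟨a2, b2⟩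
        · refine ⟨p₁' + p₂' + 1, q₁' + q₂', ?_, Or.inl ⟨rfl, rfl⟩⟩
          rw [add_comm (n₁ * d₂)]
          exact full_add hE hM (full_pq _ _ h21 (by omega) (by omega)) h12 1 (by omega)
        · exact ⟨p₁' + p₂', q₁ + q₂',
            full_add hE hM (full_pq _ _ h12 (by omega) (by omega)) h21 0 (by omega),
            Or.inr ⟨rfl, by omega⟩⟩
    refine ⟨o₂, n₁ * d₂ + n₂ * d₁, d₁ * d₂, p, q, p₁' + p₂', q₁' + q₂',
      K₁ + K₂ + (if o₂ then (1 : ℤ) else -1), s1, t2, s3, t4, hn, hdd, hpq, ?_, ?_⟩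
    · have h3 : faces (Tangle.hor S T) = faces S + faces T := rfl
      have h4 : positive (Tangle.hor S T) = positive S + positive T := rfl
      rw [h3, h4]
      push_cast
      linarith
    · intro ξ hξ
      have hξ' : ξ ≠ 0 := hξ.ne'
      have hm1 := hP.2 _ _ _ hn ξ hξ
      have hm2 := hP.2 _ _ _ hdd ξ hξ
      have hc : (0 : ℝ) < ξ ^ K₁ * ξ ^ K₂ := mul_pos (zpow_pos hξ _) (zpow_pos hξ _)
      have hR := hH S T ξ _ _ _ _ _ _ (r1 ξ hξ) (r2 ξ hξ)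
      have hc2 : ξ ^ (K₁ + K₂ + (if o₂ then (1 : ℤ) else -1)) =
          ξ ^ K₁ * ξ ^ K₂ * kap o₂ ξ := by
        rw [zpow_add₀ hξ', zpow_add₀ hξ', ← kap_zpow]
      have hk1 := kap_pos o₂ hξ
      rw [ev_add, ev_mul, ev_mul] at hm1
      rw [ev_mul] at hm2
      rw [ev_add, ev_mul, ev_mul, ev_mul, hc2]
      generalize ξ ^ K₁ = c₁ at *
      generalize ξ ^ K₂ = c₂ at *
      generalize ev ξ n₁ = A₁ at *
      generalize ev ξ d₁ = B₁ at *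
      generalize ev ξ n₂ = A₂ at *
      generalize ev ξ d₂ = B₂ at *
      generalize kap o₂ ξ = κ at *
      have k1 : c₁ * (A₁ + κ * B₁) * (c₂ * (A₂ + κ * B₂)) -
          c₁ * A₁ * (c₂ * (A₂ + κ * B₂) - c₂ * (κ * B₂)) =
          c₁ * c₂ * κ * (A₁ * B₂ + A₂ * B₁ + κ * (B₁ * B₂)) := by
        ring
      have k2 : c₁ * (κ * B₁) * (c₂ * (κ * B₂)) = c₁ * c₂ * κ * (κ * (B₁ * B₂)) := by
        ring
      have k3 : c₁ * (A₁ + κ * B₁) * (c₂ * A₂) + c₁ * A₁ * (c₂ * (κ * B₂)) - c₁ * A₁ * (c₂ * A₂) =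
          c₁ * c₂ * κ * (A₁ * B₂ + A₂ * B₁) := by
        ring
      rw [k1, k2, k3] at hR
      exact hR (mul_pos (mul_pos hc hk1) (add_pos hm1 (mul_pos hk1 hm2)))
  · rintro S T hO ⟨o₁, n₁, d₁, p₁, q₁, p₁', q₁', K₁, s1, s2, s3, s4, f1, g1, c1, e1, r1⟩
      ⟨o₂, n₂, d₂, p₂, q₂, p₂', q₂', K₂, t1, t2, t3, t4, f2, g2, c2, e2, r2⟩
    have hd : o₂ = o₁ := by
      have h := hO.2.2.1
      rw [s3, t1] at h
      cases o₁ <;> cases o₂ <;> simp_all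
    subst hd
    have hnn := hM.2.2.2 _ _ _ _ _ _ f1 f2
    have h12 := hM.2.2.2 _ _ _ _ _ _ f1 g2
    have h21 := hM.2.2.2 _ _ _ _ _ _ f2 g1
    obtain ⟨p', q', hn, hpq⟩ : ∃ p' q', Full p' q' (n₁ * d₂ + n₂ * d₁) ∧
        (p₁ + p₂ = p' + 1 ∧ q₁ + q₂ = q' ∨ p' = p₁ + p₂ ∧ q' = q₁ + q₂ + 1) := by
      rcases c1 with ⟨a1, b1⟩ | ⟨a1, b1⟩
      · rcases c2 with ⟨a2, b2⟩ | ⟨a2, b2⟩
        · exact ⟨p₁ + p₂', q₁ + q₂,
            full_add hE hM (full_pq _ _ h12 (by omega) (by omega)) h21 0 (by omega),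
            Or.inl ⟨by omega, rfl⟩⟩
        · exact ⟨p₁ + p₂, q₁ + q₂ + 1,
            full_add hE hM (full_pq _ _ h12 (by omega) (by omega)) h21 1 (by omega),
            Or.inr ⟨rfl, rfl⟩⟩
      · rcases c2 with ⟨a2, b2⟩ | ⟨a2, b2⟩
        · refine ⟨p₁ + p₂, q₁ + q₂ + 1, ?_, Or.inr ⟨rfl, rfl⟩⟩
          rw [add_comm (n₁ * d₂)]
          exact full_add hE hM (full_pq _ _ h21 (by omega) (by omega)) h12 1 (by omega)
        · exact ⟨p₁ + p₂, q₁ + q₂ + 1,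
            full_add hE hM (full_pq _ _ h12 (by omega) (by omega)) h21 0 (by omega),
            Or.inr ⟨rfl, rfl⟩⟩
    refine ⟨o₂, n₁ * n₂, n₁ * d₂ + n₂ * d₁, p₁ + p₂, q₁ + q₂, p', q',
      K₁ + K₂, s1, s2, t3, t4, hnn, hn, hpq, ?_, ?_⟩
    · have h3 : faces (Tangle.ver S T) = faces S + faces T + 1 := rfl
      have h4 : positive (Tangle.ver S T) = positive S + positive T := rfl
      rw [h3, h4]
      push_cast
      omega
    · intro ξ hξ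
      have hξ' : ξ ≠ 0 := hξ.ne'
      have hm1 := hP.2 _ _ _ hn ξ hξ
      have hm2 := hP.2 _ _ _ hnn ξ hξ
      have hc : (0 : ℝ) < ξ ^ K₁ * ξ ^ K₂ := mul_pos (zpow_pos hξ _) (zpow_pos hξ _)
      have hR := hV S T ξ _ _ _ _ _ _ (r1 ξ hξ) (r2 ξ hξ)
      have hc2 : ξ ^ (K₁ + K₂) = ξ ^ K₁ * ξ ^ K₂ := zpow_add₀ hξ' _ _
      have hk1 := kap_pos o₂ hξ
      rw [ev_add, ev_mul, ev_mul] at hm1
      rw [ev_mul] at hm2
      rw [ev_add, ev_mul, ev_mul, ev_mul, hc2]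
      generalize ξ ^ K₁ = c₁ at *
      generalize ξ ^ K₂ = c₂ at *
      generalize ev ξ n₁ = A₁ at *
      generalize ev ξ d₁ = B₁ at *
      generalize ev ξ n₂ = A₂ at *
      generalize ev ξ d₂ = B₂ at *
      generalize kap o₂ ξ = κ at *
      have k1 : c₁ * (A₁ + κ * B₁) * (c₂ * (A₂ + κ * B₂)) -
          (c₁ * (A₁ + κ * B₁) - c₁ * A₁) * (c₂ * (κ * B₂)) =
          c₁ * c₂ * (A₁ * A₂ + κ * (A₁ * B₂ + A₂ * B₁)) := by
        ring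
      have k2 : c₁ * (κ * B₁) * (c₂ * (A₂ + κ * B₂)) - c₁ * (κ * B₁) * (c₂ * (κ * B₂)) +
          c₁ * A₁ * (c₂ * (κ * B₂)) = c₁ * c₂ * (κ * (A₁ * B₂ + A₂ * B₁)) := by
        ring
      have k3 : c₁ * A₁ * (c₂ * A₂) = c₁ * c₂ * (A₁ * A₂) := by
        ring
      rw [k1, k2, k3] at hR
      exact hR (mul_pos hc (add_pos hm2 (mul_pos hk1 hm1)))

end Pool.Agent.HMA
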