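import Pool.Agent.HMA.Spec

set_option autoImplicit false

namespace Pool.Agent.HMA

open Polynomial Matrix

namespace IndCPAux

theorem ev_mul (ξ : ℝ) (F G : ℤ[X]) : ev ξ (F * G) = ev ξ F * ev ξ G := by simp [ev]
theorem ev_add (ξ : ℝ) (F G : ℤ[X]) : ev ξ (F + G) = ev ξ F + ev ξ G := by simp [ev]
theorem ev_X (ξ : ℝ) : ev ξ X = ξ + ξ⁻¹ := by simp [ev]

theorem kap_mul (d : Bool) {ξ : ℝ} (hξ : 0 < ξ) : kap d ξ * kap (!d) ξ = 1 := by
  cases d <;> simp [kap, hξ.ne']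

theorem kap_add (d : Bool) (ξ : ℝ) : ξ + ξ⁻¹ = kap d ξ + kap (!d) ξ := by
  cases d <;> simp [kap, add_comm]

theorem zpow_kap (d : Bool) {ξ : ℝ} (hξ : 0 < ξ) (K K' : ℤ) :
    ξ ^ (K + K' + (if d then 1 else -1)) = ξ ^ K * ξ ^ K' * kap d ξ := by
  rw [zpow_add₀ hξ.ne', zpow_add₀ hξ.ne']
  cases d <;> simp [kap]

theorem posU (hC2 : S_Cone2) (hPos : S_Pos) {p q : ℕ} {x : ℤ[X] × ℤ[X]} (h : FullK p q x) {ξ : ℝ}
    (hξ : 0 < ξ) : 0 < (ξ + ξ⁻¹) * ev ξ x.1 + ev ξ x.2 := by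
  have h1 := hC2.2.1 _ _ _ (hC2.2.2.1 _ _ _ _ _ _ h hC2.1)
  have h2 := hPos.2 _ _ _ h1 ξ hξ
  have h3 : (pm x (1, 0)).1 = X * x.1 + x.2 := by simp [pm]
  rw [h3, ev_add, ev_mul, ev_X] at h2
  exact h2

theorem mkx (hCh : S_Cheb) (hFM : S_FullM) (hC1 : S_Cone1) (hC2 : S_Cone2)
    {a b a' b' N i : ℕ} {F G : ℤ[X]} {x : ℤ[X] × ℤ[X]} (hF : Full a b F) (hx : FullK a' b' x)
    (hG : G ∈ Uni N) (hN : N + 2 * i = a + b + 1) :
    FullK (a + a') (b + b') (F * x.1, F * x.2 + G * x.1) := by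
  have hA : x.1 ∈ Uni (a' + b') := hFM.2.1 _ _ _ (hC2.2.1 _ _ _ hx)
  have h1 := hCh.2.2 _ i _ (hCh.2.1 _ _ _ _ hG hA)
  have h2 : N + (a' + b') + 2 * i = a + a' + (b + b') + 1 := by omega
  rw [h2] at h1
  have h3 := hC2.2.2.2.2 _ _ _ _ (hC2.2.2.2.1 _ _ _ _ _ _ hF hx) (hC1.2.2.1 _ _ h1)
  have h4 : ((F * x.1, F * x.2) : ℤ[X] × ℤ[X]) + (0, G * x.1) = (F * x.1, F * x.2 + G * x.1) := by
    simp
  rwa [h4] at h3

theorem Full_symm {p q : ℕ} {F : ℤ[X]} (h : Full p q F) : Full q p F := by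
  obtain ⟨G, hG, rfl⟩ := h
  refine ⟨G, ?_, ?_⟩
  · rwa [add_comm q p]
  · rw [mul_comm (SS q)]

theorem Rel_congr {T : Tangle} {ξ m a b m' a' b' : ℝ} (h : Rel T ξ m a b) (h1 : m = m')
    (h2 : a = a') (h3 : b = b') : Rel T ξ m' a' b' := by
  subst h1 h2 h3
  exact h

end IndCPAux

open IndCPAux in
theorem tIndCP : S_Hor → S_Ver → S_Cheb → S_FullM → S_Cone1 → S_Cone2 → S_Pos → S_IndCP := by
  intro hHor hVer hCh hFM hC1 hC2 hPos
  refine ⟨?_, ?_, ?_, ?_⟩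
  · -- `hor`, c and b
    rintro S T ⟨-, -, e1, -⟩ ⟨o, n, d, p, q, p', q', K, h1, h2, h3, h4, hn, hd, hpq, hf, hrel⟩
      ⟨d2, x, p2, q2, K2, g1, g2, g3, g4, hx, hf2, hrel2⟩
    have ho : o = d2 := by rw [← h2, e1, g1]
    subst ho
    have hnU := hFM.2.1 _ _ _ hn
    have hxx : FullK (p' + p2) (q' + q2) (d * x.1, d * x.2 + n * x.1) := by
      rcases hpq with ⟨rfl, rfl⟩ | ⟨rfl, rfl⟩
      · exact mkx (i := 0) hCh hFM hC1 hC2 hd hx hnU (by omega)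
      · exact mkx (i := 1) hCh hFM hC1 hC2 hd hx hnU (by omega)
    refine ⟨o, _, p' + p2, q' + q2, K + K2 + (if o then 1 else -1), h1, g2, h3, g4, hxx, ?_, ?_⟩
    · simp only [faces, positive]
      push_cast
      linarith
    · intro ξ hξ
      have hpos := posU hC2 hPos hxx hξ
      have hc : 0 < ξ ^ (K + K2 + (if o then 1 else -1)) := zpow_pos hξ _
      have hm := mul_pos hc hpos
      simp only [ev_mul, ev_add] at hm ⊢
      rw [zpow_kap o hξ] at hm ⊢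
      refine Rel_congr (hHor S T ξ _ _ _ _ _ _ (hrel ξ hξ) (hrel2 ξ hξ) (lt_of_lt_of_eq hm ?_))
        ?_ ?_ ?_ <;> ring
  · -- `hor`, b and c
    rintro S T ⟨-, -, e1, -⟩ ⟨d2, x, p2, q2, K2, g1, g2, g3, g4, hx, hf2, hrel2⟩
      ⟨o, n, d, p, q, p', q', K, h1, h2, h3, h4, hn, hd, hpq, hf, hrel⟩
    have ho : o = !d2 := by rw [← h1, ← e1, g2]
    subst ho
    have hnU := hFM.2.1 _ _ _ hn
    have hxx : FullK (p' + p2) (q' + q2) (d * x.1, d * x.2 + n * x.1) := by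
      rcases hpq with ⟨rfl, rfl⟩ | ⟨rfl, rfl⟩
      · exact mkx (i := 0) hCh hFM hC1 hC2 hd hx hnU (by omega)
      · exact mkx (i := 1) hCh hFM hC1 hC2 hd hx hnU (by omega)
    refine ⟨d2, _, p' + p2, q' + q2, K2 + K + (if !d2 then 1 else -1), g1, h2, g3, ?_, hxx,
      ?_, ?_⟩
    · rw [Bool.not_not] at h4
      exact h4
    · simp only [faces, positive]
      push_cast
      linarith
    · intro ξ hξ
      have hpos := posU hC2 hPos hxx hξ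
      have hc : 0 < ξ ^ (K2 + K + (if !d2 then 1 else -1)) := zpow_pos hξ _
      have hm := mul_pos hc hpos
      simp only [ev_mul, ev_add] at hm ⊢
      rw [zpow_kap (!d2) hξ] at hm ⊢
      have r1 := hrel ξ hξ
      have r2 := hrel2 ξ hξ
      rw [kap_add d2 ξ] at hm r2 ⊢
      refine Rel_congr (hHor S T ξ _ _ _ _ _ _ r2 r1 (lt_of_lt_of_eq hm ?_))
        ?_ ?_ ?_ <;> ring
  · -- `ver`, c and a
    rintro S T ⟨-, -, e1, -⟩ ⟨o, n, d, p, q, p', q', K, h1, h2, h3, h4, hn, hd, hpq, hf, hrel⟩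
      ⟨d2, x, p2, q2, K2, g1, g2, g3, g4, hx, hf2, hrel2⟩
    have ho : o = d2 := by
      rw [h3, g1] at e1
      exact Bool.not_inj e1
    subst ho
    have hdU := hFM.2.1 _ _ _ hd
    have hxx : FullK (q + q2) (p + p2) (n * x.1, n * x.2 + d * x.1) := by
      rcases hpq with ⟨rfl, rfl⟩ | ⟨rfl, rfl⟩
      · exact mkx (i := 1) hCh hFM hC1 hC2 (Full_symm hn) hx hdU (by omega)
      · exact mkx (i := 0) hCh hFM hC1 hC2 (Full_symm hn) hx hdU (by omega)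
    refine ⟨o, _, p + p2, q + q2, K + K2, h1, h2, g3, g4, hxx, ?_, ?_⟩
    · simp only [faces, positive]
      push_cast
      rcases hpq with ⟨rfl, rfl⟩ | ⟨rfl, rfl⟩ <;> push_cast at * <;> linarith
    · intro ξ hξ
      have hpos := posU hC2 hPos hxx hξ
      have hc : 0 < ξ ^ (K + K2) := zpow_pos hξ _
      have hm := mul_pos hc hpos
      simp only [ev_mul, ev_add] at hm ⊢
      rw [zpow_add₀ hξ.ne'] at hm ⊢
      have r1 := hrel ξ hξ
      have r2 := hrel2 ξ hξ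
      have hk := kap_mul o hξ
      rw [kap_add o ξ] at hm r2 ⊢
      refine Rel_congr (hVer S T ξ _ _ _ _ _ _ r1 r2 (lt_of_lt_of_eq hm ?_)) ?_ ?_ ?_
      · linear_combination (-(ξ ^ K * ξ ^ K2 * ev ξ d * ev ξ x.1)) * hk
      · linear_combination (ξ ^ K * ξ ^ K2 * ev ξ d * ev ξ x.1) * hk
      · linear_combination (ξ ^ K * ξ ^ K2 * ev ξ d * ev ξ x.1) * hk
      · ring
  · -- `ver`, a and c
    rintro S T ⟨-, -, e1, -⟩ ⟨d2, x, p2, q2, K2, g1, g2, g3, g4, hx, hf2, hrel2⟩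
      ⟨o, n, d, p, q, p', q', K, h1, h2, h3, h4, hn, hd, hpq, hf, hrel⟩
    have ho : o = !d2 := by
      rw [h1, g3] at e1
      rw [e1, Bool.not_not]
    subst ho
    have hdU := hFM.2.1 _ _ _ hd
    have hxx : FullK (q + q2) (p + p2) (n * x.1, n * x.2 + d * x.1) := by
      rcases hpq with ⟨rfl, rfl⟩ | ⟨rfl, rfl⟩
      · exact mkx (i := 1) hCh hFM hC1 hC2 (Full_symm hn) hx hdU (by omega)
      · exact mkx (i := 0) hCh hFM hC1 hC2 (Full_symm hn) hx hdU (by omega)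
    rw [Bool.not_not] at h3 h4
    refine ⟨d2, _, p + p2, q + q2, K2 + K, g1, g2, h3, h4, hxx, ?_, ?_⟩
    · simp only [faces, positive]
      push_cast
      rcases hpq with ⟨rfl, rfl⟩ | ⟨rfl, rfl⟩ <;> push_cast at * <;> linarith
    · intro ξ hξ
      have hpos := posU hC2 hPos hxx hξ
      have hc : 0 < ξ ^ (K2 + K) := zpow_pos hξ _
      have hm := mul_pos hc hpos
      simp only [ev_mul, ev_add] at hm ⊢
      rw [zpow_add₀ hξ.ne'] at hm ⊢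
      have r1 := hrel ξ hξ
      have r2 := hrel2 ξ hξ
      have hk := kap_mul d2 hξ
      rw [kap_add d2 ξ] at hm r2 ⊢
      refine Rel_congr (hVer S T ξ _ _ _ _ _ _ r2 r1 (lt_of_lt_of_eq hm ?_)) ?_ ?_ ?_
      · linear_combination (-(ξ ^ K * ξ ^ K2 * ev ξ d * ev ξ x.1)) * hk
      · linear_combination (ξ ^ K * ξ ^ K2 * ev ξ d * ev ξ x.1) * hk
      · linear_combination (ξ ^ K * ξ ^ K2 * ev ξ d * ev ξ x.1) * hk
      · ring

end Pool.Agent.HMA
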