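import Pool.Agent.HMA.Spec

/-! # HMA, IndP: crossing, a + a, b * b -/

set_option autoImplicit false

namespace Pool.Agent.HMA

open Polynomial Matrix

namespace IndPAux

theorem ev_add (ξ : ℝ) (F G : ℤ[X]) : ev ξ (F + G) = ev ξ F + ev ξ G := map_add (aeval _) F G

theorem ev_sub (ξ : ℝ) (F G : ℤ[X]) : ev ξ (F - G) = ev ξ F - ev ξ G := map_sub (aeval _) F G

theorem ev_mul (ξ : ℝ) (F G : ℤ[X]) : ev ξ (F * G) = ev ξ F * ev ξ G := map_mul (aeval _) F G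

theorem ev_X (ξ : ℝ) : ev ξ X = ξ + ξ⁻¹ := aeval_X _

theorem kap_eq (d : Bool) {ξ : ℝ} (hξ : 0 < ξ) : kap d ξ * (ξ + ξ⁻¹ - kap d ξ) = 1 := by
  unfold kap
  cases d
  · simp
    field_simp
  · simp
    field_simp

theorem pos (hC : S_Cone2) (hP : S_Pos) {p q : ℕ} {x : ℤ[X] × ℤ[X]} (hx : FullK p q x) {ξ : ℝ}
    (hξ : 0 < ξ) : 0 < (ξ + ξ⁻¹) * ev ξ x.1 + ev ξ x.2 := by
  have h := hP.2 _ _ _ (hC.2.1 _ _ _ (hC.2.2.1 _ _ _ _ _ _ hx hC.1)) ξ hξ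
  have h1 : (pm x (1, 0)).1 = X * x.1 + x.2 := by
    simp [pm]
  rw [h1, ev_add, ev_mul, ev_X] at h
  exact h

theorem relCr (o u : Bool) {ξ : ℝ} (hξ : 0 < ξ) {m a b : ℝ} (hm : m = 1 + ξ ^ 2)
    (ha : a = -(wNE (-(ξ ^ 2)) o)) (hb : b = -(wNE (-(ξ ^ 2)) o)) : Rel (.cr o u) ξ m a b := by
  have h0 : (0 : ℝ) < 1 + ξ ^ 2 := by positivity
  refine ⟨?_, by rw [hm]; exact h0, fun _ => -(wNE (-(ξ ^ 2)) o) / (1 + ξ ^ 2), ?_, ?_, ?_⟩
  · rw [hm]
    change (Matrix.of fun _ _ : Unit => 1 - -(ξ ^ 2)).det = _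
    rw [Matrix.det_unique]
    simp
  · funext i
    change (Matrix.of fun _ _ : Unit => 1 - -(ξ ^ 2)).mulVec
      (fun _ => -(wNE (-(ξ ^ 2)) o) / (1 + ξ ^ 2)) i =
      (Pi.single (() : Unit) (-(wNE (-(ξ ^ 2)) o)) : Unit → ℝ) i
    have h1 : (Pi.single (() : Unit) (-(wNE (-(ξ ^ 2)) o)) : Unit → ℝ) i = -(wNE (-(ξ ^ 2)) o) := by
      cases i
      exact Pi.single_eq_same _ _
    rw [h1]
    simp only [Matrix.mulVec, dotProduct, Finset.univ_unique, Finset.sum_const, Finset.card_singleton,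
      one_smul, Matrix.of_apply]
    field_simp
    ring
  · rw [hm, ha]
    field_simp
  · rw [hm, hb]
    field_simp

end IndPAux

open IndPAux

theorem tIndP : S_Hor → S_Ver → S_Cone2 → S_Pos → S_IndP := by
  intro hH hV hC hP
  refine ⟨?_, ?_, ?_⟩
  · intro o u
    by_cases h : o = u
    · left
      refine ⟨o, (1, 0), 0, 0, 1, rfl, h.symm, h.symm, rfl, hC.1, ?_, ?_⟩
      · simp [faces, positive, h]
      · intro ξ hξ
        refine relCr o u hξ ?_ ?_ ?_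
        · simp [ev]
          field_simp
          ring
        · cases o <;> simp [ev, kap, wNE]
          · field_simp
          · ring
        · cases o <;> simp [ev, kap, wNE]
          · field_simp
          · ring
    · right
      have h' : u = !o := by
        cases o <;> cases u <;> simp_all
      refine ⟨o, (1, 0), 0, 0, 1, rfl, h', h', rfl, hC.1, ?_, ?_⟩
      · simp [faces, positive, h]
      · intro ξ hξ
        refine relCr o u hξ ?_ ?_ ?_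
        · simp [ev]
          field_simp
          ring
        · cases o <;> simp [ev, kap, wNE]
          · field_simp
          · ring
        · cases o <;> simp [ev, kap, wNE]
          · field_simp
          · ring
  · rintro S T hO ⟨d₁, x₁, p₁, q₁, K₁, s1, s2, s3, s4, f1, e1, r1⟩
      ⟨d₂, x₂, p₂, q₂, K₂, t1, t2, t3, t4, f2, e2, r2⟩
    have hd : d₁ = d₂ := by
      have h := hO.2.2.1
      rw [s2, t1] at h
      exact h
    subst hd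
    have hf := hC.2.2.1 _ _ _ _ _ _ f1 f2
    refine ⟨d₁, pm x₁ x₂, p₁ + p₂, q₁ + q₂ + 1, K₁ + K₂, s1, t2, s3, t4, hf, ?_, ?_⟩
    · have h3 : faces (Tangle.hor S T) = faces S + faces T := rfl
      have h4 : positive (Tangle.hor S T) = positive S + positive T := rfl
      rw [h3, h4]
      push_cast
      linarith
    · intro ξ hξ
      have hk := kap_eq d₁ hξ
      have hξ' : ξ ≠ 0 := hξ.ne'
      have hm := pos hC hP hf hξ
      have hc : (0 : ℝ) < ξ ^ K₁ * ξ ^ K₂ := mul_pos (zpow_pos hξ _) (zpow_pos hξ _)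
      have hR := hH S T ξ _ _ _ _ _ _ (r1 ξ hξ) (r2 ξ hξ)
      have hc2 : ξ ^ (K₁ + K₂) = ξ ^ K₁ * ξ ^ K₂ := zpow_add₀ hξ' _ _
      have h1 : ev ξ (pm x₁ x₂).1 = (ξ + ξ⁻¹) * (ev ξ x₁.1 * ev ξ x₂.1) + ev ξ x₁.1 * ev ξ x₂.2 +
          ev ξ x₂.1 * ev ξ x₁.2 := by
        simp only [pm, ev_add, ev_mul, ev_X]
      have h2 : ev ξ (pm x₁ x₂).2 = ev ξ x₁.2 * ev ξ x₂.2 - ev ξ x₁.1 * ev ξ x₂.1 := by
        simp only [pm, ev_sub, ev_mul]
      rw [h1, h2] at hm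
      rw [h1, h2, hc2]
      generalize ξ ^ K₁ = c₁ at *
      generalize ξ ^ K₂ = c₂ at *
      generalize ev ξ x₁.1 = A₁ at *
      generalize ev ξ x₁.2 = B₁ at *
      generalize ev ξ x₂.1 = A₂ at *
      generalize ev ξ x₂.2 = B₂ at *
      generalize ξ + ξ⁻¹ = u at *
      generalize kap d₁ ξ = κ at *
      have g1 : c₁ * (u * A₁ + B₁) * (c₂ * (u * A₂ + B₂)) -
          c₁ * (κ * A₁) * (c₂ * (u * A₂ + B₂) - c₂ * (κ * A₂ + B₂)) =
          c₁ * c₂ * (u * (u * (A₁ * A₂) + A₁ * B₂ + A₂ * B₁) + (B₁ * B₂ - A₁ * A₂)) := by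
        linear_combination (-(c₁ * c₂ * A₁ * A₂)) * hk
      have g2 : c₁ * (κ * A₁ + B₁) * (c₂ * (κ * A₂ + B₂)) =
          c₁ * c₂ * (κ * (u * (A₁ * A₂) + A₁ * B₂ + A₂ * B₁) + (B₁ * B₂ - A₁ * A₂)) := by
        linear_combination (-(c₁ * c₂ * A₁ * A₂)) * hk
      have g3 : c₁ * (u * A₁ + B₁) * (c₂ * (κ * A₂)) + c₁ * (κ * A₁) * (c₂ * (κ * A₂ + B₂)) -
          c₁ * (κ * A₁) * (c₂ * (κ * A₂)) =
          c₁ * c₂ * (κ * (u * (A₁ * A₂) + A₁ * B₂ + A₂ * B₁)) := by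
        ring
      rw [g1, g2, g3] at hR
      exact hR (mul_pos hc hm)
  · rintro S T hO ⟨d₁, x₁, p₁, q₁, K₁, s1, s2, s3, s4, f1, e1, r1⟩
      ⟨d₂, x₂, p₂, q₂, K₂, t1, t2, t3, t4, f2, e2, r2⟩
    have hd : d₁ = d₂ := by
      have h := hO.2.2.1
      rw [s3, t1] at h
      cases d₁ <;> cases d₂ <;> simp_all
    subst hd
    have hf := hC.2.2.1 _ _ _ _ _ _ f1 f2
    refine ⟨d₁, pm x₁ x₂, p₁ + p₂ + 1, q₁ + q₂, K₁ + K₂, s1, s2, t3, t4, hf, ?_, ?_⟩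
    · have h3 : faces (Tangle.ver S T) = faces S + faces T + 1 := rfl
      have h4 : positive (Tangle.ver S T) = positive S + positive T := rfl
      rw [h3, h4]
      push_cast
      linarith
    · intro ξ hξ
      have hk := kap_eq d₁ hξ
      have hξ' : ξ ≠ 0 := hξ.ne'
      have hm := pos hC hP hf hξ
      have hc : (0 : ℝ) < ξ ^ K₁ * ξ ^ K₂ := mul_pos (zpow_pos hξ _) (zpow_pos hξ _)
      have hR := hV S T ξ _ _ _ _ _ _ (r1 ξ hξ) (r2 ξ hξ)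
      have hc2 : ξ ^ (K₁ + K₂) = ξ ^ K₁ * ξ ^ K₂ := zpow_add₀ hξ' _ _
      have h1 : ev ξ (pm x₁ x₂).1 = (ξ + ξ⁻¹) * (ev ξ x₁.1 * ev ξ x₂.1) + ev ξ x₁.1 * ev ξ x₂.2 +
          ev ξ x₂.1 * ev ξ x₁.2 := by
        simp only [pm, ev_add, ev_mul, ev_X]
      have h2 : ev ξ (pm x₁ x₂).2 = ev ξ x₁.2 * ev ξ x₂.2 - ev ξ x₁.1 * ev ξ x₂.1 := by
        simp only [pm, ev_sub, ev_mul]
      rw [h1, h2] at hm
      rw [h1, h2, hc2]
      generalize ξ ^ K₁ = c₁ at *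
      generalize ξ ^ K₂ = c₂ at *
      generalize ev ξ x₁.1 = A₁ at *
      generalize ev ξ x₁.2 = B₁ at *
      generalize ev ξ x₂.1 = A₂ at *
      generalize ev ξ x₂.2 = B₂ at *
      generalize ξ + ξ⁻¹ = u at *
      generalize kap d₁ ξ = κ at *
      have g1 : c₁ * (u * A₁ + B₁) * (c₂ * (u * A₂ + B₂)) -
          (c₁ * (u * A₁ + B₁) - c₁ * (κ * A₁ + B₁)) * (c₂ * (κ * A₂)) =
          c₁ * c₂ * (u * (u * (A₁ * A₂) + A₁ * B₂ + A₂ * B₁) + (B₁ * B₂ - A₁ * A₂)) := by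
        linear_combination (-(c₁ * c₂ * A₁ * A₂)) * hk
      have g2 : c₁ * (κ * A₁ + B₁) * (c₂ * (κ * A₂ + B₂)) =
          c₁ * c₂ * (κ * (u * (A₁ * A₂) + A₁ * B₂ + A₂ * B₁) + (B₁ * B₂ - A₁ * A₂)) := by
        linear_combination (-(c₁ * c₂ * A₁ * A₂)) * hk
      have g3 : c₁ * (κ * A₁) * (c₂ * (u * A₂ + B₂)) - c₁ * (κ * A₁) * (c₂ * (κ * A₂)) +
          c₁ * (κ * A₁ + B₁) * (c₂ * (κ * A₂)) =
          c₁ * c₂ * (κ * (u * (A₁ * A₂) + A₁ * B₂ + A₂ * B₁)) := by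
        ring
      rw [g1, g2, g3] at hR
      exact hR (mul_pos hc hm)

end Pool.Agent.HMA
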