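import Pool.Agent.HMA.Spec

/-!
# HMA, LK: the left kernel of the Fox matrix (Alexander numbering)
-/

namespace Pool.Agent.HMA

open Polynomial Matrix

namespace LKAux

/-- A column of `single`. -/
theorem sum_single {m n : Type*} [Fintype m] [DecidableEq m] [DecidableEq n] (v : m → ℝ) (i₀ : m)
    (j₀ j : n) (w : ℝ) :
    ∑ i, v i * single i₀ j₀ w i j = if j = j₀ then w * v i₀ else 0 := by
  by_cases hj : j = j₀
  · subst hj
    rw [if_pos rfl, Finset.sum_eq_single i₀]
    · rw [single_apply_same, mul_comm]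
    · intro i _ hi
      rw [single_apply_of_row_ne (Ne.symm hi), mul_zero]
    · intro h
      exact absurd (Finset.mem_univ _) h
  · rw [if_neg hj]
    refine Finset.sum_eq_zero fun i _ => ?_
    rw [single_apply_of_col_ne _ _ (Ne.symm hj), mul_zero]

/-- The statement for one tangle, one `ν` and one `z`. -/
def Good (T : Tangle) (ν : ℤ) (z : T.Cr → ℤ) (y : ℝ) : Prop :=
  (∀ j, ∑ i, y ^ (z i) * fox (-y) T i j =
      (if j = T.nw then y ^ (ν + (if T.ovr T.nw then 0 else 1)) else 0) +
      (if j = T.se then y ^ (ν + (if T.und T.ne then -1 else 1) +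
        (if T.ovr T.se then 0 else 1)) else 0)) ∧
    -(wNE (-y) (T.ovr T.ne)) * y ^ (z T.ne) = y ^ (ν + (if T.und T.ne then 0 else 1)) ∧
    -(wSW (-y) (T.ovr T.sw)) * y ^ (z T.sw) =
      y ^ (ν + (if T.ovr T.nw then -1 else 1) + (if T.und T.sw then 0 else 1))

theorem cross (o u : Bool) (ν : ℤ) : ∃ z : (Tangle.cr o u).Cr → ℤ, ∀ y : ℝ, 0 < y →
    Good (.cr o u) ν z y := by
  refine ⟨fun _ => ν + (if o then -1 else 0) + (if u then 0 else 1), fun y hy => ?_⟩
  have hy0 : y ≠ 0 := hy.ne'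
  have e1 : y ^ (ν + 1) = y ^ ν * y := zpow_add_one₀ hy0 ν
  have e2 : y ^ (ν + -1) = y ^ ν * y⁻¹ := by rw [zpow_add₀ hy0, _root_.zpow_neg_one]
  refine ⟨?_, ?_, ?_⟩
  · intro j
    change (∑ _i : Unit, y ^ (ν + (if o then -1 else 0) + (if u then 0 else 1)) * (1 - -y)) =
      (if (() : Unit) = () then y ^ (ν + (if o then 0 else 1)) else 0) +
      (if (() : Unit) = () then y ^ (ν + (if u then -1 else 1) + (if o then 0 else 1)) else 0)
    rw [if_pos rfl, if_pos rfl, Fintype.sum_unique]
    cases o <;> cases u <;>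
      simp only [if_true, if_false, Bool.false_eq_true, add_zero]
    · have e3 : y ^ (ν + 1 + 1) = y ^ (ν + 1) * y := zpow_add_one₀ hy0 _
      rw [e3]
      ring
    · have e3 : ν + -1 + 1 = ν := by ring
      rw [e3, e1]
      ring
    · have e3 : ν + -1 + 1 = ν := by ring
      rw [e3, e1]
      ring
    · rw [e2]
      field_simp
      ring
  · change -(wNE (-y) o) * y ^ (ν + (if o then -1 else 0) + (if u then 0 else 1)) =
      y ^ (ν + (if u then 0 else 1))
    unfold wNE
    cases o <;> cases u <;>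
      simp only [if_true, if_false, Bool.false_eq_true, add_zero]
    · ring
    · ring
    · have e3 : ν + -1 + 1 = ν := by ring
      rw [e3, e1]
      ring
    · rw [e2]
      field_simp
  · change -(wSW (-y) o) * y ^ (ν + (if o then -1 else 0) + (if u then 0 else 1)) =
      y ^ (ν + (if o then -1 else 1) + (if u then 0 else 1))
    unfold wSW
    cases o <;> cases u <;>
      simp only [if_true, if_false, Bool.false_eq_true, add_zero]
    · have e3 : y ^ (ν + 1 + 1) = y ^ (ν + 1) * y := zpow_add_one₀ hy0 _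
      rw [e3]
      ring
    · rw [e1]
      ring
    · ring
    · ring

theorem hor (S T : Tangle) (ν : ℤ) (h1 : S.und S.ne = T.ovr T.nw) (h2 : S.ovr S.se = T.und T.sw)
    (z₁ : S.Cr → ℤ) (z₂ : T.Cr → ℤ) (y : ℝ) (hS : Good S ν z₁ y) (hT : Good T ν z₂ y) :
    Good (.hor S T) ν (Sum.elim z₁ z₂) y := by
  obtain ⟨s1, s2, s3⟩ := hS
  obtain ⟨t1, t2, t3⟩ := hT
  refine ⟨?_, t2, s3⟩
  intro j
  rcases j with j | j
  · change (∑ i : S.Cr ⊕ T.Cr, y ^ (Sum.elim z₁ z₂ i) *
      fromBlocks (fox (-y) S) (single S.ne T.nw (wNE (-y) (S.ovr S.ne)))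
        (single T.sw S.se (wSW (-y) (T.ovr T.sw))) (fox (-y) T) i (Sum.inl j)) =
      (if (Sum.inl j : S.Cr ⊕ T.Cr) = Sum.inl S.nw then
        y ^ (ν + (if S.ovr S.nw then 0 else 1)) else 0) +
      (if (Sum.inl j : S.Cr ⊕ T.Cr) = Sum.inr T.se then
        y ^ (ν + (if T.und T.ne then -1 else 1) + (if T.ovr T.se then 0 else 1)) else 0)
    rw [Fintype.sum_sum_type]
    simp only [Sum.elim_inl, Sum.elim_inr, fromBlocks_apply₁₁, fromBlocks_apply₂₁,
      Sum.inl.injEq, reduceCtorEq, if_false, add_zero]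
    rw [s1 j, sum_single]
    have e3 : wSW (-y) (T.ovr T.sw) * y ^ z₂ T.sw =
        -y ^ (ν + (if S.und S.ne then -1 else 1) + (if S.ovr S.se then 0 else 1)) := by
      rw [h1, h2, ← t3]
      ring
    rw [e3, add_assoc]
    have e4 : ((if j = S.se then y ^ (ν + (if S.und S.ne then -1 else 1) +
        (if S.ovr S.se then 0 else 1)) else 0) + if j = S.se then
        -y ^ (ν + (if S.und S.ne then -1 else 1) + (if S.ovr S.se then 0 else 1)) else 0) = 0 := by
      split_ifs <;> ring
    rw [e4, add_zero]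
  · change (∑ i : S.Cr ⊕ T.Cr, y ^ (Sum.elim z₁ z₂ i) *
      fromBlocks (fox (-y) S) (single S.ne T.nw (wNE (-y) (S.ovr S.ne)))
        (single T.sw S.se (wSW (-y) (T.ovr T.sw))) (fox (-y) T) i (Sum.inr j)) =
      (if (Sum.inr j : S.Cr ⊕ T.Cr) = Sum.inl S.nw then
        y ^ (ν + (if S.ovr S.nw then 0 else 1)) else 0) +
      (if (Sum.inr j : S.Cr ⊕ T.Cr) = Sum.inr T.se then
        y ^ (ν + (if T.und T.ne then -1 else 1) + (if T.ovr T.se then 0 else 1)) else 0)
    rw [Fintype.sum_sum_type]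
    simp only [Sum.elim_inl, Sum.elim_inr, fromBlocks_apply₁₂, fromBlocks_apply₂₂,
      Sum.inr.injEq, reduceCtorEq, if_false, zero_add]
    rw [t1 j, sum_single]
    have e3 : wNE (-y) (S.ovr S.ne) * y ^ z₁ S.ne =
        -y ^ (ν + (if T.ovr T.nw then 0 else 1)) := by
      rw [← h1, ← s2]
      ring
    rw [e3, ← add_assoc]
    have e4 : ((if j = T.nw then -y ^ (ν + (if T.ovr T.nw then 0 else 1)) else 0) +
        if j = T.nw then y ^ (ν + (if T.ovr T.nw then 0 else 1)) else 0) = 0 := by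
      split_ifs <;> ring
    rw [e4, zero_add]

theorem ver (S T : Tangle) (ν : ℤ) (h1 : S.und S.sw = !T.ovr T.nw) (h2 : S.ovr S.se = !T.und T.ne)
    (hb : (if S.ovr S.nw then (1 : ℤ) else -1) + (if S.und S.sw then 1 else -1) =
      (if S.und S.ne then 1 else -1) + (if S.ovr S.se then 1 else -1))
    (z₁ : S.Cr → ℤ) (z₂ : T.Cr → ℤ) (y : ℝ) (hS : Good S ν z₁ y)
    (hT : Good T (ν + (if S.ovr S.nw then -1 else 1) + (if S.und S.sw then -1 else 1)) z₂ y) :
    Good (.ver S T) ν (Sum.elim z₁ z₂) y := by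
  obtain ⟨s1, s2, s3⟩ := hS
  obtain ⟨t1, t2, t3⟩ := hT
  refine ⟨?_, s2, ?_⟩
  · intro j
    rcases j with j | j
    · change (∑ i : S.Cr ⊕ T.Cr, y ^ (Sum.elim z₁ z₂ i) *
        fromBlocks (fox (-y) S) (single S.sw T.nw (wSW (-y) (S.ovr S.sw)))
          (single T.ne S.se (wNE (-y) (T.ovr T.ne))) (fox (-y) T) i (Sum.inl j)) =
        (if (Sum.inl j : S.Cr ⊕ T.Cr) = Sum.inl S.nw then
          y ^ (ν + (if S.ovr S.nw then 0 else 1)) else 0) +
        (if (Sum.inl j : S.Cr ⊕ T.Cr) = Sum.inr T.se then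
          y ^ (ν + (if S.und S.ne then -1 else 1) + (if T.ovr T.se then 0 else 1)) else 0)
      rw [Fintype.sum_sum_type]
      simp only [Sum.elim_inl, Sum.elim_inr, fromBlocks_apply₁₁, fromBlocks_apply₂₁,
        Sum.inl.injEq, reduceCtorEq, if_false, add_zero]
      rw [s1 j, sum_single]
      have e3 : wNE (-y) (T.ovr T.ne) * y ^ z₂ T.ne =
          -y ^ (ν + (if S.und S.ne then -1 else 1) + (if S.ovr S.se then 0 else 1)) := by
        have e5 : wNE (-y) (T.ovr T.ne) * y ^ z₂ T.ne =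
          -(-(wNE (-y) (T.ovr T.ne)) * y ^ z₂ T.ne) := by ring
        rw [e5, t2]
        refine congrArg (fun k : ℤ => -y ^ k) ?_
        revert hb h2
        generalize S.ovr S.nw = a
        generalize S.und S.sw = b
        generalize S.und S.ne = c
        generalize S.ovr S.se = d
        generalize T.und T.ne = e
        intro h2 hb
        subst h2
        cases a <;> cases b <;> cases c <;> cases e <;> simp at hb ⊢
      rw [e3, add_assoc]
      have e4 : ((if j = S.se then y ^ (ν + (if S.und S.ne then -1 else 1) +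
          (if S.ovr S.se then 0 else 1)) else 0) + if j = S.se then
          -y ^ (ν + (if S.und S.ne then -1 else 1) + (if S.ovr S.se then 0 else 1)) else 0) = 0 := by
        split_ifs <;> ring
      rw [e4, add_zero]
    · change (∑ i : S.Cr ⊕ T.Cr, y ^ (Sum.elim z₁ z₂ i) *
        fromBlocks (fox (-y) S) (single S.sw T.nw (wSW (-y) (S.ovr S.sw)))
          (single T.ne S.se (wNE (-y) (T.ovr T.ne))) (fox (-y) T) i (Sum.inr j)) =
        (if (Sum.inr j : S.Cr ⊕ T.Cr) = Sum.inl S.nw then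
          y ^ (ν + (if S.ovr S.nw then 0 else 1)) else 0) +
        (if (Sum.inr j : S.Cr ⊕ T.Cr) = Sum.inr T.se then
          y ^ (ν + (if S.und S.ne then -1 else 1) + (if T.ovr T.se then 0 else 1)) else 0)
      rw [Fintype.sum_sum_type]
      simp only [Sum.elim_inl, Sum.elim_inr, fromBlocks_apply₁₂, fromBlocks_apply₂₂,
        Sum.inr.injEq, reduceCtorEq, if_false, zero_add]
      rw [t1 j, sum_single]
      have e3 : wSW (-y) (S.ovr S.sw) * y ^ z₁ S.sw =
          -y ^ (ν + (if S.ovr S.nw then -1 else 1) + (if S.und S.sw then -1 else 1) +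
            (if T.ovr T.nw then 0 else 1)) := by
        have e5 : wSW (-y) (S.ovr S.sw) * y ^ z₁ S.sw =
          -(-(wSW (-y) (S.ovr S.sw)) * y ^ z₁ S.sw) := by ring
        rw [e5, s3]
        refine congrArg (fun k : ℤ => -y ^ k) ?_
        revert h1
        generalize S.ovr S.nw = a
        generalize S.und S.sw = b
        generalize T.ovr T.nw = c
        intro h1
        subst h1
        cases a <;> cases c <;> simp
      rw [e3, ← add_assoc]
      have e4 : ((if j = T.nw then -y ^ (ν + (if S.ovr S.nw then -1 else 1) +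
          (if S.und S.sw then -1 else 1) + (if T.ovr T.nw then 0 else 1)) else 0) +
          if j = T.nw then y ^ (ν + (if S.ovr S.nw then -1 else 1) +
          (if S.und S.sw then -1 else 1) + (if T.ovr T.nw then 0 else 1)) else 0) = 0 := by
        split_ifs <;> ring
      rw [e4, zero_add]
      refine if_congr Iff.rfl ?_ rfl
      refine congrArg (fun k : ℤ => y ^ k) ?_
      revert hb h2
      generalize S.ovr S.nw = a
      generalize S.und S.sw = b
      generalize S.und S.ne = c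
      generalize S.ovr S.se = d
      generalize T.und T.ne = e
      generalize T.ovr T.se = f
      intro h2 hb
      subst h2
      cases a <;> cases b <;> cases c <;> cases e <;> simp at hb ⊢
  · change -(wSW (-y) (T.ovr T.sw)) * y ^ (z₂ T.sw) =
      y ^ (ν + (if S.ovr S.nw then -1 else 1) + (if T.und T.sw then 0 else 1))
    rw [t3]
    refine congrArg (fun k : ℤ => y ^ k) ?_
    revert h1
    generalize S.ovr S.nw = a
    generalize S.und S.sw = b
    generalize T.ovr T.nw = c
    intro h1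
    subst h1
    cases a <;> cases c <;> simp

end LKAux

theorem tLK : S_Bal → S_LK := by
  intro hB T
  induction T with
  | cr o u => exact fun _ ν => LKAux.cross o u ν
  | hor S T ihS ihT =>
    intro hO ν
    obtain ⟨hS, hT, h1, h2⟩ := hO
    obtain ⟨z₁, e₁⟩ := ihS hS ν
    obtain ⟨z₂, e₂⟩ := ihT hT ν
    exact ⟨Sum.elim z₁ z₂, fun y hy => LKAux.hor S T ν h1 h2 z₁ z₂ y (e₁ y hy) (e₂ y hy)⟩
  | ver S T ihS ihT =>
    intro hO ν
    obtain ⟨hS, hT, h1, h2⟩ := hO
    obtain ⟨z₁, e₁⟩ := ihS hS ν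
    obtain ⟨z₂, e₂⟩ := ihT hT
      (ν + (if S.ovr S.nw then -1 else 1) + (if S.und S.sw then -1 else 1))
    exact ⟨Sum.elim z₁ z₂, fun y hy => LKAux.ver S T ν h1 h2 (hB S hS) z₁ z₂ y (e₁ y hy) (e₂ y hy)⟩

end Pool.Agent.HMA
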