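import Pool.Agent.HMA.Spec

/-!
# HMA, module Pos: positivity of `SS k` at `ξ + ξ⁻¹`
-/

namespace Pool.Agent.HMA

open Polynomial Matrix

private theorem ev_add (ξ : ℝ) (f g : ℤ[X]) : ev ξ (f + g) = ev ξ f + ev ξ g := map_add _ _ _

private theorem ev_sub (ξ : ℝ) (f g : ℤ[X]) : ev ξ (f - g) = ev ξ f - ev ξ g := map_sub _ _ _

private theorem ev_mul (ξ : ℝ) (f g : ℤ[X]) : ev ξ (f * g) = ev ξ f * ev ξ g := map_mul _ _ _

private theorem ev_X (ξ : ℝ) : ev ξ X = ξ + ξ⁻¹ := aeval_X _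

private theorem ev_one (ξ : ℝ) : ev ξ 1 = 1 := map_one _

private theorem ev_zero (ξ : ℝ) : ev ξ 0 = 0 := map_zero _

private theorem rec_SS (ξ : ℝ) (hξ : 0 < ξ) :
    ∀ k, ev ξ (SS (k + 1)) = ξ * ev ξ (SS k) + (ξ⁻¹) ^ (k + 1)
  | 0 => by
    change ev ξ X = ξ * ev ξ 1 + (ξ⁻¹) ^ 1
    rw [ev_X, ev_one, mul_one, pow_one]
  | k + 1 => by
    change ev ξ (X * SS (k + 1) - SS k) = _
    rw [ev_sub, ev_mul, ev_X, add_mul]
    have h := rec_SS ξ hξ k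
    have h1 : ξ⁻¹ * ev ξ (SS (k + 1)) = ev ξ (SS k) + (ξ⁻¹) ^ (k + 1 + 1) := by
      rw [h, mul_add, ← mul_assoc, inv_mul_cancel₀ hξ.ne', one_mul, ← pow_succ']
    rw [h1]
    ring

private theorem SS_pos (ξ : ℝ) (hξ : 0 < ξ) : ∀ k, 0 < ev ξ (SS k)
  | 0 => by
    change 0 < ev ξ 1
    rw [ev_one]
    exact one_pos
  | k + 1 => by
    rw [rec_SS ξ hξ k]
    have := SS_pos ξ hξ k
    positivity

theorem tPos : S_Pos := by
  have h1 : ∀ N F, F ∈ Uni N → ∀ ξ : ℝ, 0 < ξ → 0 ≤ ev ξ F := by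
    intro N F hF ξ hξ
    unfold Uni at hF
    induction hF using AddSubmonoid.closure_induction with
    | mem f hf =>
      obtain ⟨k, _, _, rfl⟩ := hf
      exact (SS_pos ξ hξ k).le
    | zero => rw [ev_zero]
    | add f g _ _ hf hg =>
      rw [ev_add]
      exact add_nonneg hf hg
  refine ⟨h1, ?_⟩
  rintro p q F ⟨G, hG, rfl⟩ ξ hξ
  rw [ev_add, ev_mul]
  have := h1 _ G hG ξ hξ
  have h2 := SS_pos ξ hξ p
  have h3 := SS_pos ξ hξ q
  positivity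

end Pool.Agent.HMA
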