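import Pool.Agent.HMA.Spec

/-! # HMA, Read: reading off the coefficients -/

set_option autoImplicit false

namespace Pool.Agent.HMA

open Polynomial

namespace ReadAux

/-- Polynomials over the real numbers which agree for `y > 0` are equal. -/
theorem eq_of_pos {f g : ℝ[X]} (h : ∀ y : ℝ, 0 < y → f.eval y = g.eval y) : f = g := by
  refine Polynomial.eq_of_infinite_eval_eq f g ?_
  refine Set.Infinite.mono (s := Set.Ioi (0 : ℝ)) (fun y hy => h y hy) (Set.Ioi_infinite 0)

/-- `∑ a j X ^ j`. -/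
noncomputable def pf (N : ℕ) (a : ℕ → ℕ) : ℝ[X] :=
  ∑ j ∈ Finset.range (N + 1), C (a j : ℝ) * X ^ j

theorem eval_pf (N : ℕ) (a : ℕ → ℕ) (y : ℝ) :
    (pf N a).eval y = ∑ j ∈ Finset.range (N + 1), (a j : ℝ) * y ^ j := by
  unfold pf
  rw [Polynomial.eval_finsetSum]
  refine Finset.sum_congr rfl fun j _ => ?_
  simp

theorem pf_coeff (N : ℕ) (a : ℕ → ℕ) : (pf N a).coeff 0 = a 0 := by
  rw [Polynomial.coeff_zero_eq_eval_zero, eval_pf, Finset.sum_eq_single 0]
  · simp
  · intro j _ hj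
    rw [zero_pow hj, mul_zero]
  · intro h
    exact absurd (Finset.mem_range.2 (Nat.succ_pos _)) h

/-- `Δ(-X)` over the real numbers. -/
noncomputable def nD (Δ : ℤ[X]) : ℝ[X] := (Δ.map (Int.castRingHom ℝ)).comp (-X)

theorem eval_nD (Δ : ℤ[X]) (y : ℝ) : (nD Δ).eval y = aeval (-y) Δ := by
  unfold nD
  rw [Polynomial.eval_comp, Polynomial.eval_neg, Polynomial.eval_X, Polynomial.eval_map,
    Polynomial.aeval_def]
  rfl

theorem nD_comp (Δ : ℤ[X]) : (nD Δ).comp (-X) = Δ.map (Int.castRingHom ℝ) := by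
  unfold nD
  rw [Polynomial.comp_assoc]
  simp

/-- The comparison of the orders at `0`. -/
theorem ord (D f : ℝ[X]) (N : ℕ) (K : ℤ) (hf : f.coeff 0 ≠ 0)
    (h : ∀ y : ℝ, 0 < y → y ^ N * (D.eval y) ^ 2 = y ^ K * (f.eval y) ^ 2) :
    ∃ e : ℕ, K = N + 2 * e := by
  have hf0 : f ≠ 0 := by
    rintro rfl
    exact hf (Polynomial.coeff_zero 0)
  have hfe : f.eval 0 ≠ 0 := by
    rw [← Polynomial.coeff_zero_eq_eval_zero]
    exact hf
  rcases lt_or_ge K 0 with hK | hK
  · exfalso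
    obtain ⟨k, hk⟩ : ∃ k : ℕ, K = -(k + 1 : ℤ) := ⟨(-K - 1).toNat, by omega⟩
    have h1 : X ^ (N + k + 1) * D ^ 2 = f ^ 2 := by
      refine eq_of_pos fun y hy => ?_
      have h2 := h y hy
      rw [Polynomial.eval_mul, Polynomial.eval_pow, Polynomial.eval_X, Polynomial.eval_pow,
        Polynomial.eval_pow]
      have h3 : y ^ K = (y ^ (k + 1))⁻¹ := by
        rw [hk, zpow_neg]
        norm_cast
      rw [h3] at h2
      have h4 : y ^ (k + 1) ≠ 0 := (pow_pos hy _).ne'
      have h5 : y ^ (N + k + 1) = y ^ (k + 1) * y ^ N := by ring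
      rw [h5, mul_assoc, h2, mul_inv_cancel_left₀ h4]
    have h2 := congrArg (Polynomial.eval 0) h1
    rw [Polynomial.eval_mul, Polynomial.eval_pow, Polynomial.eval_X, Polynomial.eval_pow,
      Polynomial.eval_pow, zero_pow (Nat.succ_ne_zero _), zero_mul] at h2
    exact pow_ne_zero 2 hfe h2.symm
  · obtain ⟨k, rfl⟩ := Int.eq_ofNat_of_zero_le hK
    have h1 : X ^ N * D ^ 2 = X ^ k * f ^ 2 := by
      refine eq_of_pos fun y hy => ?_
      have h2 := h y hy
      rw [zpow_natCast] at h2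
      simpa using h2
    have hD : D ≠ 0 := by
      rintro rfl
      rw [zero_pow two_ne_zero, mul_zero] at h1
      exact mul_ne_zero (pow_ne_zero _ Polynomial.X_ne_zero) (pow_ne_zero _ hf0) h1.symm
    have hX : (X : ℝ[X]) ^ N ≠ 0 := pow_ne_zero _ Polynomial.X_ne_zero
    have hX' : (X : ℝ[X]) ^ k ≠ 0 := pow_ne_zero _ Polynomial.X_ne_zero
    have h2 := congrArg Polynomial.natTrailingDegree h1
    have h3 : Polynomial.natTrailingDegree f = 0 := Polynomial.natTrailingDegree_eq_zero.2 (Or.inr hf)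
    rw [Polynomial.natTrailingDegree_mul hX (pow_ne_zero _ hD),
      Polynomial.natTrailingDegree_mul hX' (pow_ne_zero _ hf0), Polynomial.natTrailingDegree_X_pow,
      Polynomial.natTrailingDegree_X_pow, pow_two, pow_two, Polynomial.natTrailingDegree_mul hD hD,
      Polynomial.natTrailingDegree_mul hf0 hf0, h3] at h2
    refine ⟨D.natTrailingDegree, ?_⟩
    omega

end ReadAux

open ReadAux

theorem tRead : S_Coef → S_Read := by
  intro hC p q F Δ K hF hΔ
  obtain ⟨a, ha, ha0, hs, hst, hw⟩ := hC p q F hF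
  have hsq : ∀ y : ℝ, 0 < y → 0 < √y ∧ (√y) ^ 2 = y := fun y hy =>
    ⟨Real.sqrt_pos.2 hy, Real.sq_sqrt hy.le⟩
  have hev : ∀ y : ℝ, 0 < y → (√y) ^ (p + q) * ev (√y) F = (pf (p + q) a).eval y := by
    intro y hy
    rw [ha _ (hsq y hy).1, eval_pf]
    refine Finset.sum_congr rfl fun j _ => ?_
    rw [pow_mul, (hsq y hy).2]
  obtain ⟨e, he⟩ := ord (nD Δ) (pf (p + q) a) (p + q) K (by
      rw [pf_coeff]
      exact_mod_cast ha0.ne') (by
      intro y hy
      have h1 := hΔ _ (hsq y hy).1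
      rw [(hsq y hy).2] at h1
      have h2 : y ^ (p + q) = ((√y) ^ (p + q)) ^ 2 := by
        rw [← pow_mul, mul_comm, pow_mul, (hsq y hy).2]
      have h3 : y ^ K = ((√y) ^ K) ^ 2 := by
        rw [← zpow_natCast, ← zpow_mul, mul_comm, zpow_mul]
        congr 1
        exact_mod_cast (hsq y hy).2.symm
      rw [eval_nD, h1, ← hev y hy, h2, h3]
      ring)
  have hD : nD Δ = X ^ e * pf (p + q) a := by
    refine eq_of_pos fun y hy => ?_
    have h1 := hΔ _ (hsq y hy).1
    rw [(hsq y hy).2] at h1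
    have h3 : (√y) ^ K = y ^ e * (√y) ^ (p + q) := by
      rw [he, zpow_add₀ (hsq y hy).1.ne', mul_comm]
      congr 1
      rw [zpow_mul]
      have h4 : (√y) ^ (2 : ℤ) = y := by exact_mod_cast (hsq y hy).2
      rw [h4, zpow_natCast]
    rw [eval_nD, h1, h3, mul_assoc, hev y hy]
    simp
  have hΔ' : Δ = ∑ j ∈ Finset.range (p + q + 1),
      C ((((-1) ^ e : ℤˣ) : ℤ) * (-1) ^ j * (a j : ℤ)) * X ^ (e + j) := by
    refine Polynomial.map_injective (Int.castRingHom ℝ) Int.cast_injective ?_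
    rw [← nD_comp, hD, Polynomial.mul_comp, Polynomial.pow_comp, Polynomial.X_comp]
    unfold pf
    have h0 : (∑ j ∈ Finset.range (p + q + 1), C (a j : ℝ) * X ^ j).comp (-X) =
        ∑ j ∈ Finset.range (p + q + 1), (C (a j : ℝ) * X ^ j).comp (-X) :=
      map_sum (Polynomial.compRingHom (-X : ℝ[X])) _ _
    rw [h0, Finset.mul_sum, Polynomial.map_sum]
    refine Finset.sum_congr rfl fun j _ => ?_
    rw [Polynomial.mul_comp, Polynomial.C_comp, Polynomial.pow_comp, Polynomial.X_comp]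
    simp only [Polynomial.map_mul, Polynomial.map_pow, Polynomial.map_X, Polynomial.map_C]
    have h1 : (-X : ℝ[X]) = C (-1) * X := by simp
    have h2 : (Int.castRingHom ℝ) ((((-1) ^ e : ℤˣ) : ℤ) * (-1) ^ j * (a j : ℤ)) =
        (-1) ^ e * (-1) ^ j * (a j : ℝ) := by simp
    rw [h2, h1, mul_pow, mul_pow, ← C_pow, ← C_pow, C_mul, C_mul, pow_add]
    ring
  refine ⟨e, p + q, a, (-1) ^ e, hΔ', ?_, ?_, ha0, hs, ?_, hw, ?_⟩
  · push_cast
    rw [abs_le]
    constructor <;> omega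
  · rw [Int.modEq_iff_dvd]
    push_cast
    exact ⟨-q, by ring⟩
  · intro j hj
    have h1 : (p : ℤ) - q ≤ |(p : ℤ) - q| := le_abs_self _
    have h2 : -((p : ℤ) - q) ≤ |(p : ℤ) - q| := neg_le_abs _
    push_cast at hj
    exact hst j (by omega) (by omega)
  · intro i hi hflat
    by_contra hcon
    have h1 : (p : ℤ) - q ≤ |(p : ℤ) - q| := le_abs_self _
    have h2 : -((p : ℤ) - q) ≤ |(p : ℤ) - q| := neg_le_abs _
    push_cast at hcon
    have h3 : i < p := by omega
    have h4 : i < q := by omega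
    have h5 := hst i h3 h4
    have h6 := hflat (i + 1) (by omega) (by omega)
    omega

end Pool.Agent.HMA
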