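import Pool.Agent.HMA.Spec

/-!
# HMA, Row1: the row sums of the Fox matrix
-/

set_option autoImplicit false

namespace Pool.Agent.HMA

open Polynomial Matrix

namespace Row1Aux

variable {R : Type} [CommRing R]

theorem one_mulVec {m n : Type} [Fintype m] [DecidableEq m] [DecidableEq n] (i : n) (j : m) (w : R) :
    ((single i j w).mulVec fun _ => 1) = (Pi.single i w : n → R) := by
  rw [single_mulVec, mul_one]
  rfl

/-- row sums of a block matrix with two elementary off-diagonal blocks -/
theorem blk {m n : Type} [Fintype m] [DecidableEq m] [Fintype n] [DecidableEq n]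
    (A : Matrix m m R) (D : Matrix n n R) (i : m) (j : n) (k : n) (l : m) (w w' : R)
    (f : m → R) (g : n → R) (hA : A.mulVec (fun _ => 1) = f) (hD : D.mulVec (fun _ => 1) = g) :
    (fromBlocks A (single i j w) (single k l w') D).mulVec (fun _ => 1) =
      Sum.elim (f + Pi.single i w) (Pi.single k w' + g) := by
  rw [fromBlocks_mulVec]
  have h1 := one_mulVec i j w
  have h2 := one_mulVec k l w'
  have e1 : A.mulVec ((fun _ : m ⊕ n => (1 : R)) ∘ Sum.inl) = f := hA
  have e2 : D.mulVec ((fun _ : m ⊕ n => (1 : R)) ∘ Sum.inr) = g := hD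
  have e3 : (single i j w).mulVec ((fun _ : m ⊕ n => (1 : R)) ∘ Sum.inr) = Pi.single i w := h1
  have e4 : (single k l w').mulVec ((fun _ : m ⊕ n => (1 : R)) ∘ Sum.inl) = Pi.single k w' := h2
  rw [e1, e2, e3, e4]

theorem sum_w (t : R) (o : Bool) : wNE t o + wSW t o = t - 1 := by
  cases o
  · simp only [wNE, wSW, Bool.false_eq_true, if_false]; ring
  · simp only [wNE, wSW, if_true]; ring

theorem sneg {n : Type} [DecidableEq n] (j : n) (c : R) (y : n) :
    (Pi.single j (-c) : n → R) y = -((Pi.single j c : n → R) y) := by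
  rw [Pi.single_neg, Pi.neg_apply]

/-- the single vector at a left or at a right crossing -/
theorem single_inl {m n : Type} [DecidableEq m] [DecidableEq n] (i : m) (x : R) :
    (Pi.single (Sum.inl i) x : m ⊕ n → R) = Sum.elim (Pi.single i x) 0 := by
  funext y
  rcases y with y | y
  · rw [Sum.elim_inl]
    by_cases h : y = i
    · subst h; rw [Pi.single_eq_same, Pi.single_eq_same]
    · rw [Pi.single_eq_of_ne h, Pi.single_eq_of_ne (fun h2 => h (Sum.inl.inj h2))]
  · rw [Sum.elim_inr, Pi.zero_apply, Pi.single_eq_of_ne (by simp)]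

theorem single_inr {m n : Type} [DecidableEq m] [DecidableEq n] (i : n) (x : R) :
    (Pi.single (Sum.inr i) x : m ⊕ n → R) = Sum.elim (0 : m → R) (Pi.single i x) := by
  funext y
  rcases y with y | y
  · rw [Sum.elim_inl, Pi.zero_apply, Pi.single_eq_of_ne (by simp)]
  · rw [Sum.elim_inr]
    by_cases h : y = i
    · subst h; rw [Pi.single_eq_same, Pi.single_eq_same]
    · rw [Pi.single_eq_of_ne h, Pi.single_eq_of_ne (fun h2 => h (Sum.inr.inj h2))]

theorem elim_hor {m n : Type} [DecidableEq m] [DecidableEq n] (i i' : m) (j j' : n) (a b c d : R) :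
    (Sum.elim (Pi.single i (-a) + Pi.single i' (-b) + Pi.single i a)
      (Pi.single j c + (Pi.single j' (-d) + Pi.single j (-c))) : m ⊕ n → R) =
      Pi.single (Sum.inr j') (-d) + Pi.single (Sum.inl i') (-b) := by
  rw [single_inl, single_inr]
  funext y
  rcases y with y | y
  · rw [Sum.elim_inl, Pi.add_apply (Sum.elim _ _), Sum.elim_inl, Sum.elim_inl, Pi.add_apply,
      Pi.add_apply, Pi.zero_apply, sneg i a]
    ring
  · rw [Sum.elim_inr, Pi.add_apply (Sum.elim _ _), Sum.elim_inr, Sum.elim_inr, Pi.add_apply,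
      Pi.add_apply, Pi.zero_apply, sneg j c]
    ring

theorem elim_ver {m n : Type} [DecidableEq m] [DecidableEq n] (i i' : m) (j j' : n) (a b c d : R) :
    (Sum.elim (Pi.single i (-a) + Pi.single i' (-b) + Pi.single i' b)
      (Pi.single j c + (Pi.single j (-c) + Pi.single j' (-d))) : m ⊕ n → R) =
      Pi.single (Sum.inl i) (-a) + Pi.single (Sum.inr j') (-d) := by
  rw [single_inl, single_inr]
  funext y
  rcases y with y | y
  · rw [Sum.elim_inl, Pi.add_apply (Sum.elim _ _), Sum.elim_inl, Sum.elim_inl, Pi.add_apply,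
      Pi.add_apply, Pi.zero_apply, sneg i' b]
    ring
  · rw [Sum.elim_inr, Pi.add_apply (Sum.elim _ _), Sum.elim_inr, Sum.elim_inr, Pi.add_apply,
      Pi.add_apply, Pi.zero_apply, sneg j c]
    ring

end Row1Aux

open Row1Aux in
theorem tRow1 : S_Row1 := by
  intro R _ t T
  induction T with
  | cr o u =>
    funext i
    have h1 : (fox t (Tangle.cr o u)).mulVec (fun _ => 1) i = 1 - t := by
      show ∑ _j : Unit, (1 - t) * 1 = _
      rw [Finset.sum_const, Finset.card_univ, Fintype.card_unit, one_smul, mul_one]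
    have h2 : (Pi.single (Tangle.cr o u).ne (-(wNE t ((Tangle.cr o u).ovr (Tangle.cr o u).ne))) +
        Pi.single (Tangle.cr o u).sw (-(wSW t ((Tangle.cr o u).ovr (Tangle.cr o u).sw))) :
        (Tangle.cr o u).Cr → R) i = -(wNE t o) + -(wSW t o) := by
      rw [Pi.add_apply]
      have e1 : i = (Tangle.cr o u).ne := rfl
      have e2 : i = (Tangle.cr o u).sw := rfl
      conv_lhs => rw [e1, Pi.single_eq_same, ← e1, e2, Pi.single_eq_same]
      rfl
    rw [h1, h2]
    have := sum_w t o
    linear_combination this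
  | hor S T ihS ihT =>
    have h := blk (fox t S) (fox t T) S.ne T.nw T.sw S.se (wNE t (S.ovr S.ne))
      (wSW t (T.ovr T.sw)) _ _ ihS ihT
    exact h.trans (elim_hor S.ne S.sw T.sw T.ne _ _ _ _)
  | ver S T ihS ihT =>
    have h := blk (fox t S) (fox t T) S.sw T.nw T.ne S.se (wSW t (S.ovr S.sw))
      (wNE t (T.ovr T.ne)) _ _ ihS ihT
    exact h.trans (elim_ver S.ne S.sw T.ne T.sw _ _ _ _)

end Pool.Agent.HMA
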