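import Pool.Agent.HMA.Spec

/-!
# HMA, module Ver: the vertical sum
-/

namespace Pool.Agent.HMA

open Matrix

private theorem VerAux.block_mulVec {m n : Type} [Fintype m] [DecidableEq m] [Fintype n]
    [DecidableEq n] (A : Matrix m m ℝ) (D : Matrix n n ℝ) (i : m) (j : n) (k : n) (l : m)
    (w w' : ℝ) (f : m → ℝ) (g : n → ℝ) :
    (fromBlocks A (single i j w) (single k l w') D).mulVec (Sum.elim f g) =
      Sum.elim (A.mulVec f + Pi.single i (w * g j)) (Pi.single k (w' * f l) + D.mulVec g) := by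
  rw [fromBlocks_mulVec]
  simp only [Sum.elim_comp_inl, Sum.elim_comp_inr, single_mulVec]
  rfl

private theorem VerAux.adj_mulVec {m : Type} [Fintype m] [DecidableEq m] (A : Matrix m m ℝ)
    (h : m → ℝ) (i l : m) (c : ℝ) (H : A.mulVec h = Pi.single i c) :
    A.det * h l = A.adjugate l i * c := by
  have h1 : A.adjugate.mulVec (A.mulVec h) = A.det • h := by
    rw [mulVec_mulVec, adjugate_mul, smul_mulVec, one_mulVec]
  rw [H] at h1
  have h2 := congrFun h1 l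
  simp only [mulVec_single, Pi.smul_apply, smul_eq_mul] at h2
  rw [← h2]
  simp [mul_comm]

private theorem VerAux.block (S_det : S_Det) {m n : Type} [Fintype m] [DecidableEq m] [Fintype n]
    [DecidableEq n] (A : Matrix m m ℝ) (D : Matrix n n ℝ) (nw ne sw se : m) (nw' ne' se' : n)
    (w₀ w w' : ℝ) (m₁ a₁ b₁ m₂ a₂ b₂ : ℝ) (hA : A.det = m₁) (hm₁ : 0 < m₁) (h₁ : m → ℝ)
    (hh₁ : A.mulVec h₁ = Pi.single ne (-w₀)) (ha₁ : m₁ * h₁ nw = a₁) (hb₁ : m₁ * h₁ se = b₁)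
    (hrow : A.mulVec (fun _ => 1) = Pi.single ne (-w₀) + Pi.single sw (-w))
    (hD : D.det = m₂) (hm₂ : 0 < m₂) (h₂ : n → ℝ)
    (hh₂ : D.mulVec h₂ = Pi.single ne' (-w')) (ha₂ : m₂ * h₂ nw' = a₂) (hb₂ : m₂ * h₂ se' = b₂)
    (hm : 0 < m₁ * m₂ - (m₁ - b₁) * a₂) :
    (fromBlocks A (single sw nw' w) (single ne' se w') D).det = m₁ * m₂ - (m₁ - b₁) * a₂ ∧
    ∃ h : m ⊕ n → ℝ, (fromBlocks A (single sw nw' w) (single ne' se w') D).mulVec h =
        Pi.single (Sum.inl ne) (-w₀) ∧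
      (m₁ * m₂ - (m₁ - b₁) * a₂) * h (Sum.inl nw) = a₁ * m₂ - a₁ * a₂ + b₁ * a₂ ∧
      (m₁ * m₂ - (m₁ - b₁) * a₂) * h (Sum.inr se') = b₁ * b₂ := by
  have hdet : (fromBlocks A (single sw nw' w) (single ne' se w') D).det =
      m₁ * m₂ - (m₁ - b₁) * a₂ := by
    rw [S_det m n A D sw nw' ne' se w w' (by rw [hA]; exact hm₁.ne') (by rw [hD]; exact hm₂.ne')]
    have e1 : A.mulVec (fun l => 1 - h₁ l) = Pi.single sw (-w) := by
      have : (fun l => 1 - h₁ l) = (fun _ => (1 : ℝ)) - h₁ := rfl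
      rw [this, mulVec_sub, hrow, hh₁]
      abel
    have e2 := VerAux.adj_mulVec A _ sw se (-w) e1
    have e3 := VerAux.adj_mulVec D _ ne' nw' (-w') hh₂
    rw [hA] at e2
    rw [hD] at e3
    rw [hA, hD]
    have e4 : A.adjugate se sw * w = -(m₁ - b₁) := by
      rw [← hb₁]; linear_combination e2
    have e5 : D.adjugate nw' ne' * w' = -a₂ := by
      rw [← ha₂]; linear_combination e3
    calc m₁ * m₂ - w * w' * A.adjugate se sw * D.adjugate nw' ne'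
        = m₁ * m₂ - (A.adjugate se sw * w) * (D.adjugate nw' ne' * w') := by ring
      _ = _ := by rw [e4, e5]; ring
  refine ⟨hdet, ?_⟩
  generalize hM : m₁ * m₂ - (m₁ - b₁) * a₂ = M at *
  have hM0 : M ≠ 0 := hm.ne'
  have hm₁0 : m₁ ≠ 0 := hm₁.ne'
  have hm₂0 : m₂ ≠ 0 := hm₂.ne'
  have x1 : h₁ nw = a₁ / m₁ := by rw [← ha₁]; field_simp
  have x2 : h₁ se = b₁ / m₁ := by rw [← hb₁]; field_simp
  have x3 : h₂ nw' = a₂ / m₂ := by rw [← ha₂]; field_simp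
  have x4 : h₂ se' = b₂ / m₂ := by rw [← hb₂]; field_simp
  refine ⟨Sum.elim (h₁ + (b₁ * a₂ / M) • ((fun _ => (1 : ℝ)) - h₁)) ((b₁ * m₂ / M) • h₂), ?_, ?_, ?_⟩
  · rw [VerAux.block_mulVec, mulVec_add, mulVec_smul, mulVec_sub, mulVec_smul, hrow, hh₁, hh₂]
    have y1 : w * ((b₁ * m₂ / M) • h₂) nw' = (b₁ * a₂ / M) * w := by
      simp only [Pi.smul_apply, smul_eq_mul, x3]
      field_simp
    have y2 : w' * (h₁ + (b₁ * a₂ / M) • ((fun _ => (1 : ℝ)) - h₁) : m → ℝ) se =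
        (b₁ * m₂ / M) * w' := by
      simp only [Pi.add_apply, Pi.smul_apply, Pi.sub_apply, smul_eq_mul, x2]
      have : b₁ / m₁ + b₁ * a₂ / M * (1 - b₁ / m₁) = b₁ * m₂ / M := by
        field_simp
        rw [← hM]; ring
      rw [this]; ring
    rw [y1, y2]
    ext x
    rcases x with x | x
    · simp only [Sum.elim_inl, Pi.add_apply, Pi.smul_apply, Pi.sub_apply, smul_eq_mul]
      have z : (Pi.single (Sum.inl ne) (-w₀) : m ⊕ n → ℝ) (Sum.inl x) =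
          (Pi.single ne (-w₀) : m → ℝ) x := by
        simp only [Pi.single_apply, Sum.inl.injEq]
      rw [z]
      simp only [Pi.single_apply]
      split_ifs <;> ring
    · simp only [Sum.elim_inr, Pi.add_apply, Pi.smul_apply, smul_eq_mul]
      have z : (Pi.single (Sum.inl ne) (-w₀) : m ⊕ n → ℝ) (Sum.inr x) = 0 := by
        simp
      rw [z]
      simp only [Pi.single_apply]
      split_ifs <;> ring
  · simp only [Sum.elim_inl, Pi.add_apply, Pi.smul_apply, Pi.sub_apply, smul_eq_mul, x1]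
    field_simp
    rw [← hM]; ring
  · simp only [Sum.elim_inr, Pi.smul_apply, smul_eq_mul, x4]
    field_simp

theorem tVer : S_Row1 → S_Det → S_Ver := by
  intro hRow hDet S T ξ m₁ a₁ b₁ m₂ a₂ b₂ hS hT hm
  obtain ⟨hA, hm₁, h₁, hh₁, ha₁, hb₁⟩ := hS
  obtain ⟨hD, hm₂, h₂, hh₂, ha₂, hb₂⟩ := hT
  obtain ⟨h1, h, h2, h3, h4⟩ := VerAux.block hDet (fox (-(ξ ^ 2)) S) (fox (-(ξ ^ 2)) T)
    S.nw S.ne S.sw S.se T.nw T.ne T.se (wNE (-(ξ ^ 2)) (S.ovr S.ne)) (wSW (-(ξ ^ 2)) (S.ovr S.sw))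
    (wNE (-(ξ ^ 2)) (T.ovr T.ne)) m₁ a₁ b₁ m₂ a₂ b₂ hA hm₁ h₁ hh₁ ha₁ hb₁
    (hRow ℝ (-(ξ ^ 2)) S) hD hm₂ h₂ hh₂ ha₂ hb₂ hm
  exact ⟨h1, hm, h, h2, h3, h4⟩

end Pool.Agent.HMA
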