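import Pool.Agent.HMA.Cheb
import Pool.Agent.HMA.FullM
import Pool.Agent.HMA.Cone1
import Pool.Agent.HMA.Cone2
import Pool.Agent.HMA.Pos
import Pool.Agent.HMA.Row1
import Pool.Agent.HMA.Det
import Pool.Agent.HMA.Hor
import Pool.Agent.HMA.Ver
import Pool.Agent.HMA.Bal
import Pool.Agent.HMA.LK
import Pool.Agent.HMA.Adj
import Pool.Agent.HMA.Clo
import Pool.Agent.HMA.IndP
import Pool.Agent.HMA.IndC
import Pool.Agent.HMA.IndCC
import Pool.Agent.HMA.IndCP
import Pool.Agent.HMA.Ind
import Pool.Agent.HMA.Coef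
import Pool.Agent.HMA.Read
import Pool.Agent.HMA.Fin

/-! HMA, module `Main`: the assembly. -/

namespace Pool.Agent.HMA

theorem mFullM : S_FullM := tFullM tCheb
theorem mCone1 : S_Cone1 := tCone1 tCheb
theorem mCone2 : S_Cone2 := tCone2 tCheb mFullM mCone1
theorem mHor : S_Hor := tHor tRow1 tDet
theorem mVer : S_Ver := tVer tRow1 tDet
theorem mLK : S_LK := tLK tBal
theorem mAdj : S_Adj := tAdj tRow1 tBal mLK
theorem mIndP : S_IndP := tIndP mHor mVer mCone2 tPos
theorem mIndC : S_IndC := tIndC mHor mVer mFullM mCone2 tPos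
theorem mIndCC : S_IndCC := tIndCC mHor mVer tCheb mFullM tPos
theorem mIndCP : S_IndCP := tIndCP mHor mVer tCheb mFullM mCone1 mCone2 tPos
theorem mInd : S_Ind := tInd mIndP mIndC mIndCC mIndCP
theorem mRead : S_Read := tRead tCoef
theorem mFin : S_Fin := tFin mInd mAdj tClo mRead mCone2

end Pool.Agent.HMA
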