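import Pool.Agent.HMA.Defs

/-!
# HMA, Spec: the statements of the modules

Proof of the theorem: note 3661 (problem MP_29c64e_gt). Every module proves one `S_..`; modules which
use other statements take them as hypotheses (named in the docstring, in this order).

Notation of the docstrings: `u = ξ + ξ⁻¹`, `κ = kap d ξ` (`ξ` or `ξ⁻¹`, so `u - κ = κ⁻¹`), a parallel
tangle has data `x = (A, B)`, `c = ξ ^ K`, and (pattern b) `m = c (u A + B)`, `a = c κ A`,
`b = c (κ A + B)`, (pattern a) `m = c (u A + B)`, `a = c (κ A + B)`, `b = c κ A`, (pattern c)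
`m = c (n + κ d)`, `a = c κ d`, `b = c n`.
-/

namespace Pool.Agent.HMA

open Polynomial Matrix

/-! ## Polynomials in `u` -/

/-- Module `Cheb`. (1) For `a ≤ b` the product `SS a * SS b` is the sum of the `SS (b - a + 2 i)`,
`0 ≤ i ≤ a` (induction on `a` with `X * SS (k+1) = SS (k+2) + SS k`), in particular `SS (a+b)` (the term
`i = a`) plus an element of `Uni (a + b)`. (2) products. (3) monotone. -/
def S_Cheb : Prop :=
  (∀ a b, ∃ G ∈ Uni (a + b), SS a * SS b = SS (a + b) + G) ∧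
  (∀ a b F G, F ∈ Uni a → G ∈ Uni b → F * G ∈ Uni (a + b)) ∧
  (∀ a i F, F ∈ Uni a → F ∈ Uni (a + 2 * i))

/-- Module `FullM` (uses `S_Cheb`). For the product write `F = SS p * SS q + U`,
`G = SS p' * SS q' + U'` and use `SS p * SS p' = SS (p+p') + ..`, `SS q * SS q' = SS (q+q') + ..`. -/
def S_FullM : Prop :=
  Full 0 0 1 ∧
  (∀ p q F, Full p q F → F ∈ Uni (p + q)) ∧
  (∀ p q F G, Full p q F → G ∈ Uni (p + q) → Full p q (F + G)) ∧
  (∀ p q p' q' F G, Full p q F → Full p' q' G → Full (p + p') (q + q') (F * G))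

/-- Module `Cone1` (uses `S_Cheb`): the cone of parallel tangles. (1) `(sg (k+1)).1 = SS k`;
(2) `σ^k σ^l = σ^(k+l)` (`pm` is commutative, associative, bilinear, `sg 0` is its unit, and
`sg (k+1) = pm (sg 1) (sg k)`); (3) `P σ^0`; (4) multiplication by `Uni`; (5) composition (closure
induction in both arguments); (6) the first component. -/
def S_Cone1 : Prop :=
  (∀ k, (sg (k + 1)).1 = SS k) ∧
  (∀ k l, pm (sg k) (sg l) = sg (k + l)) ∧
  (∀ e P, P ∈ Uni e → ((0 : ℤ[X]), P) ∈ KK e) ∧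
  (∀ e E P x, P ∈ Uni e → x ∈ KK E → (P * x.1, P * x.2) ∈ KK (e + E)) ∧
  (∀ E E' x y, x ∈ KK E → y ∈ KK E' → pm x y ∈ KK (E + E')) ∧
  (∀ E x, x ∈ KK (E + 1) → x.1 ∈ Uni E)

/-- Module `Cone2` (uses `S_Cheb`, `S_FullM`, `S_Cone1`). (1) the crossing (`k = 0`, `P = 1`, `R = 0`);
(2) the first component of `P σ^(k+1)` is `P * SS k`, in `Full (p' + k) q`, since `SS k` is `Full k 0`;
(3) composition: `P σ^(k+1) * P' σ^(k'+1) = P P' σ^(k+k'+2)` with `P P'` full; the other three products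
are in the cone (a full polynomial `P` lies in `Uni (p' + q)`, hence `P σ^(k+1)` in `KK (p + q + 1)`);
(4) multiplication by a full polynomial; (5) adding an element of the cone. -/
def S_Cone2 : Prop :=
  FullK 0 0 (1, 0) ∧
  (∀ p q x, FullK p q x → Full p q x.1) ∧
  (∀ p q p' q' x y, FullK p q x → FullK p' q' y → FullK (p + p' + 1) (q + q') (pm x y)) ∧
  (∀ p q p' q' F x, Full p q F → FullK p' q' x →
    FullK (p + p') (q + q') (F * x.1, F * x.2)) ∧
  (∀ p q x y, FullK p q x → y ∈ KK (p + q + 1) → FullK p q (x + y))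

/-- Module `Pos`. By induction `ev ξ (SS k) = ∑ i ∈ range (k+1), ξ^(k - 2 i)` (integer exponents), or
`(ξ - ξ⁻¹) * ev ξ (SS k) = ξ^(k+1) - ξ^(-k-1)` with the case `ξ = 1` apart; it is positive. -/
def S_Pos : Prop :=
  (∀ N F, F ∈ Uni N → ∀ ξ : ℝ, 0 < ξ → 0 ≤ ev ξ F) ∧
  (∀ p q F, Full p q F → ∀ ξ : ℝ, 0 < ξ → 0 < ev ξ F)

/-! ## Linear algebra -/

/-- Module `Row1`: the row sums of the Fox matrix (induction on the tangle; `wNE t o + wSW t o = t - 1`;
in `hor S T` the row `ne` of `S` and the row `sw` of `T` get one entry more). -/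
def S_Row1 : Prop :=
  ∀ (R : Type) [CommRing R] (t : R) (T : Tangle),
    (fox t T).mulVec (fun _ => 1) =
      Pi.single T.ne (-(wNE t (T.ovr T.ne))) + Pi.single T.sw (-(wSW t (T.ovr T.sw)))

/-- Module `Det`: a block determinant (`det_fromBlocks₁₁` for `A` invertible,
`C A⁻¹ B = w w' (A⁻¹) l i • single k j`, and `det (D + single k j c) = det D + c * D.adjugate j k`). -/
def S_Det : Prop :=
  ∀ (m n : Type) [Fintype m] [DecidableEq m] [Fintype n] [DecidableEq n]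
    (A : Matrix m m ℝ) (D : Matrix n n ℝ) (i : m) (j : n) (k : n) (l : m) (w w' : ℝ),
    A.det ≠ 0 → D.det ≠ 0 →
    (fromBlocks A (single i j w) (single k l w') D).det =
      A.det * D.det - w * w' * A.adjugate l i * D.adjugate j k

/-- Module `Hor` (uses `S_Row1`, `S_Det`). `m = m₁ m₂ - b₁ (m₂ - a₂)`; `h₁`, `h₂` the solutions for `S`,
`T`. Solution for `hor S T`: `u h₁` on `S`, `h₂ + v (1 - h₂)` on `T`, `u = m₁ a₂ / m`, `v = b₁ a₂ / m`.
Row `ne` of `S`: `-u + u = 0` because the value at `T.nw` is `a₂/m₂ + v (1 - a₂/m₂) = u`; row `sw` of `T`: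
`fox (1 - h₂)` is `-wSW e_sw` (`S_Row1`) and the value at `S.se` is `u b₁ / m₁ = v`. Determinant: `S_Det`
with `(adjugate S) se ne * (-wNE) = b₁` (multiply `fox *ᵥ h₁ = ..` by the adjugate) and
`(adjugate T) nw sw * (-wSW) = m₂ - a₂`. Values: `m u a₁ / m₁ = a₁ a₂`,
`m (b₂/m₂ + v (1 - b₂/m₂)) = m₁ b₂ + b₁ a₂ - b₁ b₂`. -/
def S_Hor : Prop :=
  ∀ (S T : Tangle) (ξ m₁ a₁ b₁ m₂ a₂ b₂ : ℝ), Rel S ξ m₁ a₁ b₁ → Rel T ξ m₂ a₂ b₂ →
    0 < m₁ * m₂ - b₁ * (m₂ - a₂) →
    Rel (.hor S T) ξ (m₁ * m₂ - b₁ * (m₂ - a₂)) (a₁ * a₂) (m₁ * b₂ + b₁ * a₂ - b₁ * b₂)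

/-- Module `Ver` (uses `S_Row1`, `S_Det`). `m = m₁ m₂ - (m₁ - b₁) a₂`. Solution: `h₁ + u (1 - h₁)` on `S`,
`v h₂` on `T`, `v = b₁ m₂ / m`, `u = b₁ a₂ / m`. Row `sw` of `S`: the value at `T.nw` is `v a₂ / m₂ = u`;
row `ne` of `T`: the value at `S.se` is `b₁/m₁ + u (1 - b₁/m₁) = v`. -/
def S_Ver : Prop :=
  ∀ (S T : Tangle) (ξ m₁ a₁ b₁ m₂ a₂ b₂ : ℝ), Rel S ξ m₁ a₁ b₁ → Rel T ξ m₂ a₂ b₂ →
    0 < m₁ * m₂ - (m₁ - b₁) * a₂ →
    Rel (.ver S T) ξ (m₁ * m₂ - (m₁ - b₁) * a₂) (a₁ * m₂ - a₁ * a₂ + b₁ * a₂) (b₁ * b₂)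

/-- Module `Bal`: two of the four ends enter, two leave (induction). -/
def S_Bal : Prop :=
  ∀ T : Tangle, T.Oriented →
    ((if T.ovr T.nw then (1 : ℤ) else -1) + (if T.und T.sw then 1 else -1) =
      (if T.und T.ne then 1 else -1) + (if T.ovr T.se then 1 else -1))

/-- Module `LK` (left kernel; uses `S_Bal`). Alexander numbering: `ν` is the index of the region N, W has
index `ν - 1` or `ν + 1`, E has index `ν - 1` or `ν + 1`; `y ^ z i` the value of the crossing `i`; the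
value of an arc which ends at the crossing `i` is `-entry * y ^ z i`, equal to `y` to the index of the
region to the left of the arc. Induction: `hor S T` with the same `ν` for both; `ver S T` with `ν` for `S`
and the index of the region S of `S` for `T`. Columns `nw`, `se`: the arc continues outside. -/
def S_LK : Prop :=
  ∀ T : Tangle, T.Oriented → ∀ ν : ℤ, ∃ z : T.Cr → ℤ, ∀ y : ℝ, 0 < y →
    (∀ j, ∑ i, y ^ (z i) * fox (-y) T i j =
      (if j = T.nw then y ^ (ν + (if T.ovr T.nw then 0 else 1)) else 0) +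
      (if j = T.se then y ^ (ν + (if T.und T.ne then -1 else 1) +
        (if T.ovr T.se then 0 else 1)) else 0)) ∧
    -(wNE (-y) (T.ovr T.ne)) * y ^ (z T.ne) = y ^ (ν + (if T.und T.ne then 0 else 1)) ∧
    -(wSW (-y) (T.ovr T.sw)) * y ^ (z T.sw) =
      y ^ (ν + (if T.ovr T.nw then -1 else 1) + (if T.und T.sw then 0 else 1))

/-- Module `Adj` (uses `S_Row1`, `S_Bal`, `S_LK`): all entries of the adjugate of the closed diagram
agree up to powers of `y`. The rows of `foxC` sum to 0, hence `adjugate i j` does not depend on `i`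
(`adjugate_apply`: the determinant with row `j` replaced by `e_i - e_i'` vanishes, the matrix kills the
constant vector); `∑ i, y ^ z i * foxC i j = 0`, hence `y ^ z j' * adjugate i j = y ^ z j * adjugate i j'`
(replace the column `i` by `y ^ z j' e_j - y ^ z j e_j'`). Shift `z` by `z ne`. -/
def S_Adj : Prop :=
  ∀ (T : Tangle) (c : Bool), T.Oriented → Closes T c → ∃ z : T.Cr → ℤ, ∀ y : ℝ, 0 < y → ∀ i j i',
    (foxC (-y) T c).adjugate i j = y ^ (z j) * (foxC (-y) T c).adjugate i' T.ne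

/-- Module `Clo`: the minors of the closures. In `adjugate T.se T.ne` the row `ne` and the column `se`
are removed, in `adjugate T.nw T.ne` the row `ne` and the column `nw`, so the two entries added in
`foxC` do not matter and it is the entry of `(fox ..).adjugate`; multiply
`fox *ᵥ h = single ne (-wNE)` by the adjugate of `fox`. -/
def S_Clo : Prop :=
  ∀ (T : Tangle) (ξ m a b : ℝ), Rel T ξ m a b →
    (foxC (-(ξ ^ 2)) T true).adjugate T.se T.ne * -(wNE (-(ξ ^ 2)) (T.ovr T.ne)) = b ∧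
    (foxC (-(ξ ^ 2)) T false).adjugate T.nw T.ne * -(wNE (-(ξ ^ 2)) (T.ovr T.ne)) = a

/-! ## Induction -/

/-- Module `IndP` (uses `S_Hor`, `S_Ver`, `S_Cone2`, `S_Pos`): patterns a, b. Crossing: `x = (1, 0)`,
`p = q = 0`, `K = 1`, pattern a if `o = u`, pattern b if `o ≠ u`, `d = o`; the solution is the constant
`w / (1 + ξ²)`. `hor`, a and a: both have the same `d`; `x = pm x₁ x₂`, `K = K₁ + K₂`, `p = p₁ + p₂`,
`q = q₁ + q₂ + 1`. `ver`, b and b: the same `d`, `x = pm x₁ x₂`, `K = K₁ + K₂`, `p = p₁ + p₂ + 1`,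
`q = q₁ + q₂`. Positivity of `u A + B`: it is the first component of `pm x (1, 0)`, full. -/
def S_IndP : Prop :=
  (∀ o u, PatA (.cr o u) ∨ PatB (.cr o u)) ∧
  (∀ S T, (Tangle.hor S T).Oriented → PatA S → PatA T → PatA (.hor S T)) ∧
  (∀ S T, (Tangle.ver S T).Oriented → PatB S → PatB T → PatB (.ver S T))

/-- Module `IndC` (uses `S_Hor`, `S_Ver`, `S_FullM`, `S_Cone2`, `S_Pos`): two parallel tangles which
give c. `hor`, b and b: opposite `d`, `κ₁ κ₂ = 1`, `o = d₁`, `n = (pm x₁ x₂).1`, `d = A₁ A₂`,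
`ξ ^ K = c₁ c₂ κ₂`, `(p, q) = (p₁ + p₂ + 1, q₁ + q₂)`, `(p', q') = (p₁ + p₂, q₁ + q₂)`. `ver`, a and a:
opposite `d`, `o = d₁`, `n = A₁ A₂`, `d = (pm x₁ x₂).1`, `ξ ^ K = c₁ c₂`, `(p, q) = (p₁ + p₂, q₁ + q₂)`,
`(p', q') = (p₁ + p₂, q₁ + q₂ + 1)`. -/
def S_IndC : Prop :=
  (∀ S T, (Tangle.hor S T).Oriented → PatB S → PatB T → PatC (.hor S T)) ∧
  (∀ S T, (Tangle.ver S T).Oriented → PatA S → PatA T → PatC (.ver S T))

/-- Module `IndCC` (uses `S_Hor`, `S_Ver`, `S_Cheb`, `S_FullM`, `S_Pos`): two tangles c, the same `o`.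
`hor`: `n = n₁ d₂ + n₂ d₁`, `d = d₁ d₂`, `ξ ^ K = c₁ c₂ κ`. `ver`: `n = n₁ n₂`, `d = n₁ d₂ + n₂ d₁`,
`ξ ^ K = c₁ c₂`. The two summands have the same `p - q`; the one with the larger `p + q` is full, the
other one is in `Uni` of the same or a smaller degree of the same parity. -/
def S_IndCC : Prop :=
  (∀ S T, (Tangle.hor S T).Oriented → PatC S → PatC T → PatC (.hor S T)) ∧
  (∀ S T, (Tangle.ver S T).Oriented → PatC S → PatC T → PatC (.ver S T))

/-- Module `IndCP` (uses `S_Hor`, `S_Ver`, `S_Cheb`, `S_FullM`, `S_Cone1`, `S_Cone2`, `S_Pos`): a tangle c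
and a parallel tangle. `hor`, c and b (same κ, `o = d`): `A = d₁ A₂`, `B = d₁ B₂ + n₁ A₂`, `c = c₁ c₂ κ`;
`hor`, b and c (`o₂ = !d₁`): `A = A₁ d₂`, `B = B₁ d₂ + A₁ n₂`, `c = c₁ c₂ κ⁻¹`; `ver`, c and a (`o = d`):
`A = n₁ A₂`, `B = n₁ B₂ + d₁ A₂`, `c = c₁ c₂`; `ver`, a and c (`o₂ = !d₁`): `A = A₁ n₂`,
`B = B₁ n₂ + A₁ d₂`, `c = c₁ c₂`. E.g. c and b: `(A, B) = d₁ x₂ + (0, n₁ A₂)`, the first is full
(`S_Cone2` (4)), the second in the cone (`n₁ A₂ ∈ Uni`, `S_Cone1` (3), `S_Cheb` (3)). -/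
def S_IndCP : Prop :=
  (∀ S T, (Tangle.hor S T).Oriented → PatC S → PatB T → PatB (.hor S T)) ∧
  (∀ S T, (Tangle.hor S T).Oriented → PatB S → PatC T → PatB (.hor S T)) ∧
  (∀ S T, (Tangle.ver S T).Oriented → PatC S → PatA T → PatA (.ver S T)) ∧
  (∀ S T, (Tangle.ver S T).Oriented → PatA S → PatC T → PatA (.ver S T))

/-- Module `Ind` (uses `S_IndP`, `S_IndC`, `S_IndCC`, `S_IndCP`; the other combinations of patterns are
not oriented: in `hor S T` the pattern of `S` at NE, SE must match the pattern of `T` at NW, SW). -/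
def S_Ind : Prop := ∀ T : Tangle, T.Oriented → PatA T ∨ PatB T ∨ PatC T

/-! ## Reading off the coefficients -/

/-- Module `Coef`: the coefficients of a full polynomial. `F = ∑ w_i SS (N - 2 i)` (`N = p + q`,
`2 i ≤ N`, `w_i` natural numbers, and `w_i ≥ 1` for `i ≤ min p q` because `SS p * SS q` is the sum of the
`SS (N - 2 i)`, `i ≤ min p q`), `a j` is the sum of the `w_i` with `i ≤ j` and `i ≤ N - j`. Suggestion:
first prove the statement with an arbitrary element of `Uni N` (weakly increasing) by closure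
induction, and for `SS p * SS q` by the explicit coefficients `min (j+1) (N-j+1) (p+1) (q+1)`; then add. -/
def S_Coef : Prop :=
  ∀ p q F, Full p q F → ∃ a : ℕ → ℕ,
    (∀ ξ : ℝ, 0 < ξ → ξ ^ (p + q) * ev ξ F =
      ∑ j ∈ Finset.range (p + q + 1), (a j : ℝ) * ξ ^ (2 * j)) ∧
    0 < a 0 ∧ (∀ i j, i + j = p + q → a i = a j) ∧
    (∀ j, j < p → j < q → a j < a (j + 1)) ∧
    (∀ j, 2 * (j + 1) ≤ p + q → a j ≤ a (j + 1))

/-- Module `Read` (uses `S_Coef`). With `f = ∑ a_j X^j` the hypothesis says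
`Δ(-ξ²) = ξ^(K - N) f(ξ²)` for all `ξ > 0`; comparing polynomials in `ξ` (`f(0) = a_0 ≠ 0`) gives
`K - N = 2 e`, `e ≥ 0`, and `Δ(-y) = y^e f(y)` for infinitely many `y`. -/
def S_Read : Prop :=
  ∀ (p q : ℕ) (F Δ : ℤ[X]) (K : ℤ), Full p q F →
    (∀ ξ : ℝ, 0 < ξ → aeval (-(ξ ^ 2)) Δ = ξ ^ K * ev ξ F) → Pattern Δ ((p : ℤ) - q)

/-- The main theorem (module `Fin`, uses `S_Ind`, `S_Adj`, `S_Clo`, `S_Read`, `S_Cone2`). The Fox matrix
over `ℤ[X]` maps to the one over `ℝ` under `aeval (-ξ²)` (induction on the tangle),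
`RingHom.map_adjugate`. -/
def S_Fin : Prop :=
  ∀ (T : Tangle) (c : Bool), T.Oriented → Closes T c → ∀ i j : T.Cr,
    Pattern ((foxC (X : ℤ[X]) T c).adjugate i j) (sig T c)

end Pool.Agent.HMA
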